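import Pool.Agent.Work.MP_71c844_lc.UN.Stmts

/-!
# Block UN, item Be
-/

namespace Pool.Agent.UN

open Finset
open Pool.Agent.NegLim (T Tn wt dens Dich)
open Pool.Agent.LayCirc (inp)

theorem pr_Be : StBe := by
  intro x n hx h
  induction n with
  | zero => simp
  | succ n ih =>
    push_cast at h
    have h1 : (n : ℝ) * x ≤ 1 / 2 := by nlinarith
    have h2 : (1 + x) ^ n * (1 + x) ≤ (1 + 2 * n * x) * (1 + x) :=
      mul_le_mul_of_nonneg_right (ih h1) (by linarith)
    have h3 : 0 ≤ x * (1 - 2 * (n * x)) := mul_nonneg hx (by linarith)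
    rw [pow_succ]
    push_cast
    nlinarith

end Pool.Agent.UN
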