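import Pool.Agent.Work.MP_71c844_lc.UN.Stmts

/-!
# Block UN, item Cs (helper39): noise and the uniform distribution
-/

namespace Pool.Agent.UN

open Finset
open Pool.Agent.NegLim (T Tn wt dens Dich)
open Pool.Agent.LayCirc (inp)

private theorem Cs_card (E : Type) [Fintype E] [DecidableEq E] :
    ∑ _x : Finset E, (1 : ℝ) = 2 ^ Fintype.card E := by
  rw [sum_const, card_univ, Fintype.card_finset, nsmul_eq_mul, mul_one]
  push_cast
  rfl

theorem pr_Cs : StCs := by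
  intro hRh hRn hRs hBe E _ _ δ s φ h0 h1 hφ0 hφ1
  set n := Fintype.card E with hn
  set D := dens δ s with hD
  have hD0 : 0 ≤ D := Pool.Agent.NegLim.dens_nonneg h0 h1 s
  have hP : (0 : ℝ) < 2 ^ n := by positivity
  have hsq : (√(n : ℝ)) ^ 2 = n := Real.sq_sqrt (Nat.cast_nonneg n)
  have hs0 : 0 ≤ √(n : ℝ) := Real.sqrt_nonneg _
  have hR0 : 0 ≤ 2 * D * √(n : ℝ) := by positivity
  have hRsq : (2 * D * √(n : ℝ)) ^ 2 = 4 * (n * D ^ 2) := by
    rw [mul_pow, hsq]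
    ring
  by_cases hA : (n : ℝ) * D ^ 2 ≤ 1 / 2
  · have hS : Eu φ - Eu (Tn δ s φ) = (∑ x, φ x * (1 - rho D x)) / 2 ^ n := by
      unfold Eu
      rw [hRn hRh E δ s φ, ← sub_div, ← sum_sub_distrib]
      congr 1
      refine sum_congr rfl fun x _ => ?_
      ring
    rw [hS, div_le_iff₀ hP]
    have hCS := Finset.sum_mul_sq_le_sq_mul_sq (univ : Finset (Finset E)) φ
      (fun x => 1 - rho D x)
    have hφ2 : ∑ x, φ x ^ 2 ≤ (2 : ℝ) ^ n := by
      rw [← Cs_card E]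
      refine sum_le_sum fun x _ => ?_
      have h2 := hφ0 x
      have h3 := hφ1 x
      nlinarith
    have hr2 : ∑ x : Finset E, (1 - rho D x) ^ 2 = 2 ^ n * ((1 + D ^ 2) ^ n - 1) := by
      obtain ⟨h2, h3⟩ := hRs E D
      have h4 : ∀ x : Finset E, (1 - rho D x) ^ 2 = 1 - 2 * rho D x + rho D x ^ 2 := by
        intro x
        ring
      simp_rw [h4]
      rw [sum_add_distrib, sum_sub_distrib, ← mul_sum, h2, h3, Cs_card, mul_pow]
      ring
    have hbe : (1 + D ^ 2) ^ n ≤ 1 + 2 * n * D ^ 2 := hBe (D ^ 2) n (by positivity) hA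
    have hr3 : ∑ x : Finset E, (1 - rho D x) ^ 2 ≤ 2 ^ n * (2 * n * D ^ 2) := by
      rw [hr2]
      exact mul_le_mul_of_nonneg_left (by linarith) hP.le
    have hr0 : 0 ≤ ∑ x : Finset E, (1 - rho D x) ^ 2 := sum_nonneg fun x _ => sq_nonneg _
    have hfin : (∑ x, φ x * (1 - rho D x)) ^ 2 ≤ (2 * D * √(n : ℝ) * 2 ^ n) ^ 2 := by
      refine hCS.trans ?_
      rw [mul_pow, hRsq]
      calc (∑ x, φ x ^ 2) * ∑ x : Finset E, (1 - rho D x) ^ 2 ≤
          2 ^ n * (2 ^ n * (2 * n * D ^ 2)) := mul_le_mul hφ2 hr3 hr0 hP.le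
        _ ≤ 4 * (n * D ^ 2) * (2 ^ n) ^ 2 := by
          have h5 : (0 : ℝ) ≤ n * D ^ 2 * (2 ^ n) ^ 2 := by positivity
          nlinarith
    exact (le_abs_self _).trans (abs_le_of_sq_le_sq hfin (by positivity))
  · have h2 : Eu φ ≤ 1 := by
      unfold Eu
      rw [div_le_one hP, ← Cs_card E]
      exact sum_le_sum fun x _ => hφ1 x
    have h3 : 0 ≤ Eu (Tn δ s φ) := by
      unfold Eu
      refine div_nonneg (sum_nonneg fun x _ => ?_) hP.le
      have h4 := Pool.Agent.NegLim.Tn_mono h0 h1 (φ := fun _ => (0 : ℝ)) (ψ := φ) hφ0 s x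
      rwa [Pool.Agent.NegLim.Tn_const] at h4
    have h4 : (1 : ℝ) ≤ 2 * D * √(n : ℝ) := by
      by_contra hne
      push Not at hne hA
      have h5 : (2 * D * √(n : ℝ)) ^ 2 < 1 := by nlinarith
      rw [hRsq] at h5
      linarith
    linarith

end Pool.Agent.UN
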