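import Pool.Agent.Work.MP_71c844_lc.UN.Stmts

/-!
# Block UN, item Hh: the Stein equation of the Poisson law
-/

namespace Pool.Agent.UN

open Finset
open Pool.Agent.NegLim (T Tn wt dens Dich)
open Pool.Agent.LayCirc (inp)

/-- the integral of `t ^ n * exp (- lam * t)` over the unit interval -/
noncomputable def Hh_I (lam : ℝ) (n : ℕ) : ℝ :=
  ∫ t in (0 : ℝ)..1, t ^ n * Real.exp (-lam * t)

theorem Hh_cont (lam : ℝ) (n : ℕ) : Continuous (fun t : ℝ => t ^ n * Real.exp (-lam * t)) := by
  fun_prop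

theorem Hh_nonneg (lam : ℝ) (n : ℕ) : 0 ≤ Hh_I lam n := by
  unfold Hh_I
  refine intervalIntegral.integral_nonneg zero_le_one ?_
  intro t ht
  exact mul_nonneg (pow_nonneg ht.1 _) (Real.exp_nonneg _)

theorem Hh_le_one (lam : ℝ) (hl : 0 < lam) (n : ℕ) : Hh_I lam n ≤ 1 := by
  unfold Hh_I
  have h1 : ∫ t in (0 : ℝ)..1, t ^ n * Real.exp (-lam * t) ≤ ∫ _t in (0 : ℝ)..1, (1 : ℝ) := by
    refine intervalIntegral.integral_mono_on zero_le_one
      ((Hh_cont lam n).intervalIntegrable _ _) (continuous_const.intervalIntegrable _ _) ?_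
    intro t ht
    have h2 : t ^ n ≤ 1 := pow_le_one₀ ht.1 ht.2
    have h3 : Real.exp (-lam * t) ≤ 1 := by
      rw [Real.exp_le_one_iff]
      have := mul_nonneg hl.le ht.1
      linarith
    have h4 : 0 ≤ Real.exp (-lam * t) := Real.exp_nonneg _
    calc t ^ n * Real.exp (-lam * t) ≤ 1 * 1 :=
          mul_le_mul h2 h3 h4 zero_le_one
      _ = 1 := one_mul 1
  rw [intervalIntegral.integral_const] at h1
  simpa using h1

theorem Hh_deriv_exp (lam t : ℝ) :
    HasDerivAt (fun t : ℝ => Real.exp (-lam * t)) (Real.exp (-lam * t) * (-lam)) t := by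
  have h1 : HasDerivAt (fun t : ℝ => -lam * t) (-lam) t := by
    simpa using (hasDerivAt_id t).const_mul (-lam)
  exact h1.exp

theorem Hh_zero (lam : ℝ) : lam * Hh_I lam 0 = 1 - Real.exp (-lam) := by
  have h1 : ∫ t in (0 : ℝ)..1, Real.exp (-lam * t) * (-lam) =
      Real.exp (-lam * 1) - Real.exp (-lam * 0) := by
    refine intervalIntegral.integral_eq_sub_of_hasDerivAt (f := fun t : ℝ => Real.exp (-lam * t))
      (fun t _ => Hh_deriv_exp lam t) ?_
    exact Continuous.intervalIntegrable (by fun_prop) _ _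
  rw [intervalIntegral.integral_mul_const, mul_one, mul_zero, Real.exp_zero] at h1
  have h2 : Hh_I lam 0 = ∫ t in (0 : ℝ)..1, Real.exp (-lam * t) := by
    unfold Hh_I
    simp only [pow_zero, one_mul]
  rw [h2]
  linarith

theorem Hh_succ (lam : ℝ) (n : ℕ) :
    ((n : ℝ) + 1) * Hh_I lam n - lam * Hh_I lam (n + 1) = Real.exp (-lam) := by
  have h1 : ∫ t in (0 : ℝ)..1, (((n : ℝ) + 1) * (t ^ n * Real.exp (-lam * t)) -
      lam * (t ^ (n + 1) * Real.exp (-lam * t))) =
      (1 : ℝ) ^ (n + 1) * Real.exp (-lam * 1) - (0 : ℝ) ^ (n + 1) * Real.exp (-lam * 0) := by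
    refine intervalIntegral.integral_eq_sub_of_hasDerivAt
      (f := fun t : ℝ => t ^ (n + 1) * Real.exp (-lam * t)) (fun t _ => ?_) ?_
    · have h2 : HasDerivAt (fun t : ℝ => t ^ (n + 1)) (((n + 1 : ℕ) : ℝ) * t ^ n) t := by
        simpa using hasDerivAt_pow (n + 1) t
      have h3 := h2.mul (Hh_deriv_exp lam t)
      refine h3.congr_deriv ?_
      push_cast
      ring
    · exact Continuous.intervalIntegrable (by fun_prop) _ _
  rw [intervalIntegral.integral_sub, intervalIntegral.integral_const_mul,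
    intervalIntegral.integral_const_mul] at h1
  · unfold Hh_I
    rw [h1, one_pow, zero_pow (Nat.succ_ne_zero n), mul_one]
    ring
  · exact (continuous_const.mul (Hh_cont lam n)).intervalIntegrable _ _
  · exact (continuous_const.mul (Hh_cont lam (n + 1))).intervalIntegrable _ _

theorem pr_Hh : StHh := by
  intro lam hl
  refine ⟨fun j => if j = 0 then 0 else Hh_I lam (j - 1), ?_, ?_, ?_⟩
  · intro j
    dsimp only
    split_ifs
    · exact le_refl _
    · exact Hh_nonneg lam _
  · intro j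
    dsimp only
    split_ifs
    · exact zero_le_one
    · exact Hh_le_one lam hl _
  · intro j
    dsimp only
    rcases Nat.eq_zero_or_pos j with hj | hj
    · subst hj
      rw [if_pos rfl, if_neg (Nat.succ_ne_zero 0), if_pos rfl]
      have h1 := Hh_zero lam
      rw [Nat.add_sub_cancel]
      simp only [mul_zero]
      linarith
    · obtain ⟨n, rfl⟩ : ∃ n, j = n + 1 := ⟨j - 1, by omega⟩
      rw [if_neg (Nat.succ_ne_zero n), if_neg (Nat.succ_ne_zero (n + 1)),
        if_neg (Nat.succ_ne_zero n)]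
      have h1 := Hh_succ lam n
      rw [Nat.add_sub_cancel, Nat.add_sub_cancel]
      push_cast
      linarith

end Pool.Agent.UN
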