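import Pool.Agent.Work.MP_71c844_lc.UN.StmtsB

/-!
# Block UN, item Lx: extended patterns never return along increasing sequences
-/

namespace Pool.Agent.UN

open Finset
open Pool.Agent.NegLim (T Tn wt dens Dich gval)
open Pool.Agent.LayCirc

/-- the number with the binary digits `f` -/
private def Lx_cd (s : ℕ) (f : Fin s → Bool) : ℕ :=
  ∑ j : Fin s, if f j = true then 2 ^ (s - 1 - j.1) else 0

private lemma Lx_succ (s : ℕ) (f : Fin (s + 1) → Bool) :
    Lx_cd (s + 1) f = (if f 0 = true then 2 ^ s else 0) + Lx_cd s (fun j => f j.succ) := by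
  unfold Lx_cd
  rw [Fin.sum_univ_succ]
  congr 1
  refine Finset.sum_congr rfl fun j _ => ?_
  have h : s + 1 - 1 - (j.succ).1 = s - 1 - j.1 := by
    rw [Fin.val_succ]
    omega
  rw [h]

private lemma Lx_lt (s : ℕ) (f : Fin s → Bool) : Lx_cd s f < 2 ^ s := by
  induction s with
  | zero => simp [Lx_cd]
  | succ s ih =>
    rw [Lx_succ, pow_succ]
    have h1 := ih (fun j => f j.succ)
    have h2 : (if f 0 = true then 2 ^ s else 0) ≤ 2 ^ s := by split_ifs <;> simp
    omega

private lemma Lx_cmp (s : ℕ) (f g : Fin s → Bool) (n : Fin s) (h : ∀ j, j < n → f j = g j)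
    (hf : f n = false) (hg : g n = true) : Lx_cd s f < Lx_cd s g := by
  induction s with
  | zero => exact n.elim0
  | succ s ih =>
    rw [Lx_succ, Lx_succ]
    induction n using Fin.cases with
    | zero =>
      rw [hf, hg]
      have h1 := Lx_lt s (fun j => f j.succ)
      simp only [Bool.false_eq_true, if_false, if_true]
      omega
    | succ n =>
      have h0 : f 0 = g 0 := h 0 (Fin.succ_pos n)
      have h1 := ih (fun j => f j.succ) (fun j => g j.succ) n
        (fun j hj => h j.succ (Fin.succ_lt_succ_iff.2 hj)) hf hg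
      rw [h0]
      omega

theorem pr_Lx : StLx := by
  classical
  intro ι E _ _ s π c o
  refine ⟨fun x => 2 * Lx_cd s (pat π c x) + (if val c (inp π x) o = true then 1 else 0), ?_⟩
  intro X Z hXZ
  have hself : ∀ j : Fin s, (NegLim.run (inp π X) (toList c (sig c (pat π c X)) s le_rfl)).getD
      (s - 1 - j.1) false = val c (inp π X) j := by
    intro j
    refine frozen_eq c (pat π c X) (inp π X) s le_rfl (fun i _ hi => ?_) j.1 j.2 j.2.le
    unfold pat
    rw [if_pos hi]
  have hrun : ∀ n : Fin s, val c (inp π X) n = true →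
      (NegLim.run (inp π Z) (toList c (sig c (pat π c X)) s le_rfl)).getD
      (s - 1 - n.1) false = true := by
    intro n h1
    refine NegLim.run_mono (a := inp π X) (b := inp π Z) ?_ _
      (numNot_toList c _ s le_rfl) _ ?_
    · intro i hi
      unfold inp NegLim.pull at hi ⊢
      split at hi
      · exact hi
      · simp only [decide_eq_true_eq] at hi ⊢
        exact hXZ hi
    · have := hself n
      rw [h1] at this
      exact this
  by_cases hsame : ∀ j : Fin s, Fed c j → val c (inp π Z) j = val c (inp π X) j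
  · have hpat : pat π c X = pat π c Z := by
      funext j
      unfold pat
      by_cases hj : Fed c j
      · rw [if_pos hj, if_pos hj, hsame j hj]
      · rw [if_neg hj, if_neg hj]
    have hZo : (NegLim.run (inp π Z) (toList c (sig c (pat π c X)) s le_rfl)).getD
        (s - 1 - o.1) false = val c (inp π Z) o := by
      refine frozen_eq c (pat π c X) (inp π Z) s le_rfl (fun i _ hi => ?_) o.1 o.2 o.2.le
      unfold pat
      rw [if_pos hi, hsame i hi]
    rcases hX : val c (inp π X) o with _ | _
    · rcases hZ : val c (inp π Z) o with _ | _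
      · exact Or.inl ⟨hpat, rfl⟩
      · right
        simp only [hpat, hX, hZ, if_true, Bool.false_eq_true, if_false]
        omega
    · have h1 := hrun o hX
      rw [hZo] at h1
      exact Or.inl ⟨hpat, h1.symm⟩
  · right
    push Not at hsame
    have hex : ∃ n : ℕ, ∃ hn : n < s, Fed c ⟨n, hn⟩ ∧
        val c (inp π Z) ⟨n, hn⟩ ≠ val c (inp π X) ⟨n, hn⟩ := by
      obtain ⟨j, h1, h2⟩ := hsame
      exact ⟨j.1, j.2, h1, h2⟩
    obtain ⟨hn, hfed, hne⟩ := Nat.find_spec hex
    have hmin := fun m (hm : m < Nat.find hex) => Nat.find_min hex hm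
    have hfr := frozen_eq c (pat π c X) (inp π Z) (Nat.find hex) hn.le (fun i hi hfi => by
      unfold pat
      rw [if_pos hfi]
      by_contra hcon
      exact hmin i.1 hi ⟨i.2, hfi, fun h => hcon h.symm⟩) (Nat.find hex) hn le_rfl
    have hmono : val c (inp π X) ⟨Nat.find hex, hn⟩ = true →
        val c (inp π Z) ⟨Nat.find hex, hn⟩ = true := by
      intro h1
      rw [← hfr]
      exact hrun ⟨Nat.find hex, hn⟩ h1
    have hXf : val c (inp π X) ⟨Nat.find hex, hn⟩ = false := by
      rcases hv : val c (inp π X) ⟨Nat.find hex, hn⟩ with _ | _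
      · rfl
      · exfalso
        apply hne
        rw [hmono hv, hv]
    have hZt : val c (inp π Z) ⟨Nat.find hex, hn⟩ = true := by
      rcases hv : val c (inp π Z) ⟨Nat.find hex, hn⟩ with _ | _
      · exfalso
        apply hne
        rw [hv, hXf]
      · rfl
    have hcmp := Lx_cmp s (pat π c X) (pat π c Z) ⟨Nat.find hex, hn⟩ (fun j hj => by
      unfold pat
      by_cases hfj : Fed c j
      · rw [if_pos hfj, if_pos hfj]
        by_contra hcon
        exact hmin j.1 hj ⟨j.2, hfj, fun h => hcon h.symm⟩
      · rw [if_neg hfj, if_neg hfj]) (by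
      unfold pat
      rw [if_pos hfed, hXf]) (by
      unfold pat
      rw [if_pos hfed, hZt])
    have h1 : (if val c (inp π X) o = true then 1 else 0) ≤ 1 := by split_ifs <;> simp
    show 2 * Lx_cd s (pat π c X) + (if val c (inp π X) o = true then 1 else 0) <
      2 * Lx_cd s (pat π c Z) + (if val c (inp π Z) o = true then 1 else 0)
    omega

end Pool.Agent.UN
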