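import Pool.Agent.Work.MP_71c844_lc.UN.StmtsB

/-! Block UN, item Mp: circuits whose behaviour along increasing sequences is controlled by a
bounded potential do not see whether a planted set is added to a uniform random set. -/

namespace Pool.Agent.UN

open Finset
open Pool.Agent.NegLim (T Tn wt dens Dich gval)
open Pool.Agent.LayCirc

private theorem Mp_mono {E : Type} [Fintype E] [DecidableEq E] {φ ψ : Finset E → ℝ}
    (h : ∀ x, φ x ≤ ψ x) : Eu φ ≤ Eu ψ := by
  unfold Eu
  exact div_le_div_of_nonneg_right (Finset.sum_le_sum fun x _ => h x) (by positivity)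

private theorem Mp_add {E : Type} [Fintype E] [DecidableEq E] (φ ψ : Finset E → ℝ) :
    Eu (fun x => φ x + ψ x) = Eu φ + Eu ψ := by
  unfold Eu
  rw [Finset.sum_add_distrib, add_div]

private theorem Mp_sub {E : Type} [Fintype E] [DecidableEq E] (φ ψ : Finset E → ℝ) :
    Eu (fun x => φ x - ψ x) = Eu φ - Eu ψ := by
  unfold Eu
  rw [Finset.sum_sub_distrib, sub_div]

private theorem Mp_smul {E : Type} [Fintype E] [DecidableEq E] (c : ℝ) (φ : Finset E → ℝ) :
    Eu (fun x => c * φ x) = c * Eu φ := by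
  unfold Eu
  rw [← Finset.mul_sum, mul_div_assoc]

private theorem Mp_sum {E : Type} [Fintype E] [DecidableEq E] (s : Finset ℕ)
    (φ : ℕ → Finset E → ℝ) : Eu (fun x => ∑ i ∈ s, φ i x) = ∑ i ∈ s, Eu (φ i) := by
  unfold Eu
  rw [Finset.sum_comm, Finset.sum_div]

private theorem Mp_const {E : Type} [Fintype E] [DecidableEq E] (c : ℝ) :
    Eu (fun _ : Finset E => c) = c := by
  unfold Eu
  rw [Finset.sum_const, Finset.card_univ, Fintype.card_finset, nsmul_eq_mul]
  push_cast
  rw [mul_div_assoc, mul_comm, div_mul_cancel₀]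
  positivity

/-- Averages of an increasing function with values in `[0, B]` grow slowly under noise. -/
private theorem Mp_pot {E : Type} [Fintype E] [DecidableEq E] (hCs : CsC) (δ : ℝ) (n B : ℕ)
    (ψ : Finset E → ℝ) (h0 : 0 ≤ δ) (h1 : δ ≤ 1) (hB : 1 ≤ B) (hψ0 : ∀ x, 0 ≤ ψ x)
    (hψ1 : ∀ x, ψ x ≤ B) :
    Eu (Tn δ n ψ) - Eu ψ ≤ B * (2 * dens δ n * √(Fintype.card E)) := by
  have hB0 : (0 : ℝ) < B := by exact_mod_cast hB
  have h := hCs E δ n (fun x => 1 - 1 / (B : ℝ) * ψ x) h0 h1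
    (fun x => by
      have : 1 / (B : ℝ) * ψ x ≤ 1 := by
        rw [one_div, inv_mul_le_iff₀ hB0, mul_one]
        exact hψ1 x
      linarith)
    (fun x => by
      have : 0 ≤ 1 / (B : ℝ) * ψ x := mul_nonneg (by positivity) (hψ0 x)
      linarith)
  have e1 : Tn δ n (fun x => 1 - 1 / (B : ℝ) * ψ x) =
      fun x => 1 - 1 / (B : ℝ) * Tn δ n ψ x := by
    funext x
    rw [NegLim.Tn_fsub (fun _ => (1 : ℝ)) (fun x => 1 / (B : ℝ) * ψ x), NegLim.Tn_const,
      NegLim.Tn_smul]
  rw [e1, Mp_sub (fun _ => (1 : ℝ)) (fun x => 1 / (B : ℝ) * ψ x),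
    Mp_sub (fun _ => (1 : ℝ)) (fun x => 1 / (B : ℝ) * Tn δ n ψ x), Mp_const,
    Mp_smul, Mp_smul] at h
  have h2 : 1 / (B : ℝ) * (Eu (Tn δ n ψ) - Eu ψ) ≤ 2 * dens δ n * √(Fintype.card E) := by
    have e2 : Eu (fun x => Tn δ n ψ x) = Eu (Tn δ n ψ) := rfl
    have e3 : Eu (fun x => ψ x) = Eu ψ := rfl
    linarith
  rw [one_div, inv_mul_le_iff₀ hB0] at h2
  exact h2

open Classical in
theorem pr_Mp : StMp := by
  intro hCs E U J _ _ _ _ K R B q ε Y C st G Ψ hq hq2 hε0 hR hB hG hΨB hΨm hΨs hG0 hGC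
  set δ : ℝ := 1 / (2 : ℝ) ^ K with hδ
  have hM : (0 : ℝ) < 2 ^ K := by positivity
  have h0 : 0 ≤ δ := by positivity
  have h1 : δ ≤ 1 := by
    rw [hδ, div_le_one hM]; exact one_le_pow₀ (by norm_num)
  have hqpos : 0 < q := lt_of_lt_of_le (by positivity) hq
  have hUpos : (0 : ℝ) < Fintype.card U := by exact_mod_cast Fintype.card_pos
  have hB0 : (0 : ℝ) < B := by exact_mod_cast hB
  let φ : J → Finset E → ℝ := fun j x => if G j x = true then 0 else 1
  let cx : Finset E → ℝ := fun x => if C x = true then 0 else 1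
  let pC : Finset E → ℝ := fun x =>
    ((univ.filter (fun u => C (x ∪ Y u) = true)).card : ℝ) / Fintype.card U
  let p : Finset E → ℝ := fun x =>
    ((univ.filter (fun u => G (st x) (x ∪ Y u) = true)).card : ℝ) / Fintype.card U
  have hp1 : ∀ x, p x ≤ 1 := fun x => by
    simp only [p]; rw [div_le_one hUpos]
    exact_mod_cast Finset.card_filter_le _ _
  let η : ℕ → ℝ := fun k => 4 * (8 * ((4 : ℕ) : ℝ) * 2 ^ K / 2 ^ k / q)
  have hη0 : ∀ k, 0 ≤ η k := fun k => by
    simp only [η]; positivity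
  have hdich : ∀ k, k ≤ K → ∀ x, Tn δ (2 ^ k * R) (φ (st x)) x ≤ ε ∨ p x ≤ η k := by
    intro k hk x
    exact (hG (st x)).dich k hk x
  let D : ℕ → Finset E → ℝ := fun k x =>
    if C x = false ∧ Tn δ (2 ^ k * R) (φ (st x)) x ≤ ε then 1 else 0
  have hD0 : ∀ k x, 0 ≤ D k x := fun k x => by
    simp only [D]; split_ifs
    · exact zero_le_one
    · exact le_rfl
  have hpt : ∀ x, cx x * pC x ≤ D 0 x + ∑ k ∈ range K, η k * D (k + 1) x + η K := by
    intro x
    rcases Bool.eq_false_or_eq_true (C x) with hC | hC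
    · have e0 : cx x = 0 := by simp only [cx]; rw [if_pos hC]
      rw [e0, zero_mul]
      have : 0 ≤ ∑ k ∈ range K, η k * D (k + 1) x :=
        Finset.sum_nonneg fun k _ => mul_nonneg (hη0 k) (hD0 _ _)
      linarith [hD0 0 x, hη0 K]
    · have e0 : cx x = 1 := by
        simp only [cx]; rw [if_neg (by rw [hC]; exact Bool.false_ne_true)]
      rw [e0, one_mul]
      have hpp : pC x ≤ p x := by
        simp only [pC, p]
        refine div_le_div_of_nonneg_right ?_ hUpos.le
        refine Nat.cast_le.2 (Finset.card_le_card fun u hu => ?_)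
        rw [Finset.mem_filter] at hu ⊢
        exact ⟨hu.1, hGC x u hC hu.2⟩
      have key : ∀ K', K' ≤ K → (p x ≤ D 0 x + ∑ k ∈ range K', η k * D (k + 1) x) ∨
          ¬ Tn δ (2 ^ K' * R) (φ (st x)) x ≤ ε := by
        intro K'
        induction K' with
        | zero =>
          intro _
          by_cases hh : Tn δ (2 ^ 0 * R) (φ (st x)) x ≤ ε
          · left
            have : D 0 x = 1 := by simp only [D]; rw [if_pos ⟨hC, hh⟩]
            rw [this]; simpa using hp1 x
          · right; exact hh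
        | succ K' ih =>
          intro hK'
          rcases ih (by omega) with hh | hh
          · left
            rw [Finset.sum_range_succ]
            have := mul_nonneg (hη0 K') (hD0 (K' + 1) x)
            linarith
          · by_cases h2 : Tn δ (2 ^ (K' + 1) * R) (φ (st x)) x ≤ ε
            · left
              have e1 : p x ≤ η K' := (hdich K' (by omega) x).resolve_left hh
              have e2 : D (K' + 1) x = 1 := by simp only [D]; rw [if_pos ⟨hC, h2⟩]
              rw [Finset.sum_range_succ, e2, mul_one]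
              have e3 : 0 ≤ ∑ k ∈ range K', η k * D (k + 1) x :=
                Finset.sum_nonneg fun k _ => mul_nonneg (hη0 k) (hD0 _ _)
              linarith [hD0 0 x]
            · right; exact h2
      rcases key K le_rfl with hh | hh
      · linarith [hη0 K]
      · have e1 : p x ≤ η K := (hdich K le_rfl x).resolve_left hh
        have e3 : 0 ≤ ∑ k ∈ range K, η k * D (k + 1) x :=
          Finset.sum_nonneg fun k _ => mul_nonneg (hη0 k) (hD0 _ _)
        linarith [hD0 0 x]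
  -- the expected values
  set s : ℝ := √(Fintype.card E) with hs
  have hs0 : 0 ≤ s := Real.sqrt_nonneg _
  have hR0 : (0 : ℝ) ≤ R := by positivity
  let ψ : Finset E → ℝ := fun x => (Ψ x : ℝ)
  have hψ0 : ∀ x, 0 ≤ ψ x := fun x => Nat.cast_nonneg _
  have hψ1 : ∀ x, ψ x ≤ B := fun x => Nat.cast_le.2 (hΨB x)
  have hψm : ∀ x y, x ⊆ y → ψ x ≤ ψ y := fun x y hxy => Nat.cast_le.2 (hΨm x y hxy)
  have hDψ : ∀ k x, D k x ≤ ε + (Tn δ (2 ^ k * R) ψ x - ψ x) := by
    intro k x
    have hm : ψ x ≤ Tn δ (2 ^ k * R) ψ x := by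
      rw [NegLim.Tn_translate' ψ]
      calc ψ x = Tn δ (2 ^ k * R) (fun _ => ψ x) ∅ := (NegLim.Tn_const _ _ _).symm
        _ ≤ Tn δ (2 ^ k * R) (fun z => ψ (x ∪ z)) ∅ :=
          NegLim.Tn_mono h0 h1 (fun z => hψm _ _ Finset.subset_union_left) _ _
    simp only [D]
    split_ifs with h
    · obtain ⟨hC, hT⟩ := h
      have e1 : ψ x + 1 - Tn δ (2 ^ k * R) (φ (st x)) x ≤ Tn δ (2 ^ k * R) ψ x := by
        rw [NegLim.Tn_translate' ψ, NegLim.Tn_translate' (φ (st x))]
        have e2 : ψ x + 1 - Tn δ (2 ^ k * R) (fun z => φ (st x) (x ∪ z)) ∅ =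
            Tn δ (2 ^ k * R) (fun z => (ψ x + 1) - φ (st x) (x ∪ z)) ∅ := by
          rw [NegLim.Tn_fsub (fun _ => ψ x + 1) (fun z => φ (st x) (x ∪ z)), NegLim.Tn_const]
        rw [e2]
        refine NegLim.Tn_mono h0 h1 (fun z => ?_) _ _
        simp only [φ]
        split_ifs with hg
        · have := hΨs x (x ∪ z) Finset.subset_union_left hC hg
          have h3 : ((Ψ x + 1 : ℕ) : ℝ) ≤ (Ψ (x ∪ z) : ℝ) := Nat.cast_le.2 this
          push_cast at h3
          show (Ψ x : ℝ) + 1 - 0 ≤ (Ψ (x ∪ z) : ℝ)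
          linarith
        · have := hψm x (x ∪ z) Finset.subset_union_left
          linarith
      linarith
    · linarith
  have hED : ∀ k, Eu (D k) ≤ ε + B * (2 * (2 ^ k * R / 2 ^ K) * s) := by
    intro k
    have e1 : Eu (D k) ≤ Eu (fun x => ε + (Tn δ (2 ^ k * R) ψ x - ψ x)) := Mp_mono (hDψ k)
    have e2 : Eu (fun x => ε + (Tn δ (2 ^ k * R) ψ x - ψ x)) =
        ε + (Eu (Tn δ (2 ^ k * R) ψ) - Eu ψ) := by
      rw [Mp_add, Mp_const, Mp_sub]
    have e3 := Mp_pot hCs δ (2 ^ k * R) B ψ h0 h1 hB hψ0 hψ1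
    have e4 : dens δ (2 ^ k * R) ≤ 2 ^ k * R / 2 ^ K := by
      refine (NegLim.dens_le h0 h1 (2 ^ k * R)).trans (le_of_eq ?_)
      rw [hδ]
      push_cast
      ring
    have e5 : B * (2 * dens δ (2 ^ k * R) * s) ≤ B * (2 * (2 ^ k * R / 2 ^ K) * s) :=
      mul_le_mul_of_nonneg_left
        (mul_le_mul_of_nonneg_right (mul_le_mul_of_nonneg_left e4 (by norm_num)) hs0) hB0.le
    rw [e2] at e1
    linarith
  have hG1 : Gam Y C ≤ Eu (D 0) + ∑ k ∈ range K, η k * Eu (D (k + 1)) + η K := by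
    have e1 : Gam Y C = Eu (fun x => cx x * pC x) := rfl
    rw [e1]
    refine (Mp_mono hpt).trans (le_of_eq ?_)
    rw [Mp_add (fun x => D 0 x + ∑ k ∈ range K, η k * D (k + 1) x) (fun _ => η K), Mp_const,
      Mp_add (D 0) (fun x => ∑ k ∈ range K, η k * D (k + 1) x),
      Mp_sum (range K) (fun k x => η k * D (k + 1) x)]
    congr 2
    refine Finset.sum_congr rfl fun k _ => ?_
    rw [Mp_smul]
  have hηK : η K = 128 / q := by
    simp only [η]
    field_simp
    norm_num
  have hterm : ∀ k ∈ range K, η k * Eu (D (k + 1)) ≤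
      2 * ε * (1 / 2) ^ k + B * (512 * R * s / q) := by
    intro k _
    have e1 : η k * Eu (D (k + 1)) ≤ η k * (ε + B * (2 * (2 ^ (k + 1) * R / 2 ^ K) * s)) :=
      mul_le_mul_of_nonneg_left (hED (k + 1)) (hη0 k)
    have e2 : η k * (ε + B * (2 * (2 ^ (k + 1) * R / 2 ^ K) * s)) =
        (64 * 2 ^ K / q) * (2 * ε * (1 / 2) ^ k) + B * (512 * R * s / q) := by
      simp only [η]
      rw [one_div, inv_pow, pow_succ]
      field_simp
      push_cast
      ring
    have e3 : (64 * 2 ^ K / q) * (2 * ε * (1 / 2) ^ k) ≤ 1 * (2 * ε * (1 / 2) ^ k) := by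
      apply mul_le_mul_of_nonneg_right _ (by positivity)
      rw [div_le_one hqpos]; exact hq
    linarith
  have hsum := Finset.sum_le_sum hterm
  rw [Finset.sum_add_distrib, ← Finset.mul_sum, Finset.sum_const, card_range,
    nsmul_eq_mul] at hsum
  have hgeo : ∑ i ∈ range K, (1 / 2 : ℝ) ^ i ≤ 2 := sum_geometric_two_le K
  have hgeo2 : 2 * ε * ∑ i ∈ range K, (1 / 2 : ℝ) ^ i ≤ 2 * ε * 2 :=
    mul_le_mul_of_nonneg_left hgeo (by positivity)
  have hE0 := hED 0
  have hE0' : B * (2 * (2 ^ 0 * (R : ℝ) / 2 ^ K) * s) ≤ B * (256 * R * s / q) := by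
    refine mul_le_mul_of_nonneg_left ?_ hB0.le
    have e1 : 2 * (2 ^ 0 * (R : ℝ) / 2 ^ K) * s = (2 * R * s) * (1 / 2 ^ K) := by
      rw [pow_zero]; ring
    have e2 : 256 * R * s / q = (2 * R * s) * (128 / q) := by ring
    rw [e1, e2]
    apply mul_le_mul_of_nonneg_left _ (by positivity)
    rw [div_le_div_iff₀ hM hqpos]
    linarith
  have hfin : 5 * ε + 128 / q + B * ((512 * K + 256) * R * s / q) =
      (ε + B * (256 * R * s / q)) + (2 * ε * 2 + K * (B * (512 * R * s / q))) + 128 / q := by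
    ring
  rw [hfin]
  rw [hηK] at hG1
  linarith

end Pool.Agent.UN
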