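import Pool.Agent.Work.MP_71c844_lc.UN.Stmts

/-! Block UN, item Mu: a small monotone circuit does not see whether a planted set is added to a
uniform random set. -/

namespace Pool.Agent.UN

open Finset
open Pool.Agent.NegLim (T Tn wt dens Dich)
open Pool.Agent.LayCirc (inp)

private theorem Mu_mono {E : Type} [Fintype E] [DecidableEq E] {φ ψ : Finset E → ℝ}
    (h : ∀ x, φ x ≤ ψ x) : Eu φ ≤ Eu ψ := by
  unfold Eu
  exact div_le_div_of_nonneg_right (Finset.sum_le_sum fun x _ => h x) (by positivity)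

private theorem Mu_add {E : Type} [Fintype E] [DecidableEq E] (φ ψ : Finset E → ℝ) :
    Eu (fun x => φ x + ψ x) = Eu φ + Eu ψ := by
  unfold Eu
  rw [Finset.sum_add_distrib, add_div]

private theorem Mu_sub {E : Type} [Fintype E] [DecidableEq E] (φ ψ : Finset E → ℝ) :
    Eu (fun x => φ x - ψ x) = Eu φ - Eu ψ := by
  unfold Eu
  rw [Finset.sum_sub_distrib, sub_div]

private theorem Mu_smul {E : Type} [Fintype E] [DecidableEq E] (c : ℝ) (φ : Finset E → ℝ) :
    Eu (fun x => c * φ x) = c * Eu φ := by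
  unfold Eu
  rw [← Finset.mul_sum, mul_div_assoc]

private theorem Mu_sum {E : Type} [Fintype E] [DecidableEq E] (s : Finset ℕ)
    (φ : ℕ → Finset E → ℝ) : Eu (fun x => ∑ i ∈ s, φ i x) = ∑ i ∈ s, Eu (φ i) := by
  unfold Eu
  rw [Finset.sum_comm, Finset.sum_div]

private theorem Mu_const {E : Type} [Fintype E] [DecidableEq E] (c : ℝ) :
    Eu (fun _ : Finset E => c) = c := by
  unfold Eu
  rw [Finset.sum_const, Finset.card_univ, Fintype.card_finset, nsmul_eq_mul]
  push_cast
  rw [mul_div_assoc, mul_comm, div_mul_cancel₀]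
  positivity

open Classical in
theorem pr_Mu : StMu := by
  intro hCs E U _ _ _ _ K R q ε Y G hq hq2 hε0 hR hG
  set δ : ℝ := 1 / (2 : ℝ) ^ K with hδ
  have hM : (0 : ℝ) < 2 ^ K := by positivity
  have h0 : 0 ≤ δ := by positivity
  have h1 : δ ≤ 1 := by
    rw [hδ, div_le_one hM]; exact one_le_pow₀ (by norm_num)
  have hqpos : 0 < q := lt_of_lt_of_le (by positivity) hq
  have hUpos : (0 : ℝ) < Fintype.card U := by exact_mod_cast Fintype.card_pos
  let φ : Finset E → ℝ := fun x => if G x = true then 0 else 1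
  have hφ0 : ∀ x, 0 ≤ φ x := fun x => by simp only [φ]; split_ifs <;> norm_num
  have hφ1 : ∀ x, φ x ≤ 1 := fun x => by simp only [φ]; split_ifs <;> norm_num
  have hφa : NegLim.Anti φ := by
    intro x y hxy
    simp only [φ]
    split_ifs with e1 e2 e2
    · exact le_rfl
    · exact zero_le_one
    · exact absurd (hG.mono x y hxy e2) e1
    · exact le_rfl
  let p : Finset E → ℝ := fun x =>
    ((univ.filter (fun u => G (x ∪ Y u) = true)).card : ℝ) / Fintype.card U
  have hp0 : ∀ x, 0 ≤ p x := fun x => by simp only [p]; positivity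
  have hp1 : ∀ x, p x ≤ 1 := fun x => by
    simp only [p]; rw [div_le_one hUpos]
    exact_mod_cast Finset.card_filter_le _ _
  let η : ℕ → ℝ := fun k => 4 * (8 * ((4 : ℕ) : ℝ) * 2 ^ K / 2 ^ k / q)
  have hη0 : ∀ k, 0 ≤ η k := fun k => by
    simp only [η]; positivity
  have hdich : ∀ k, k ≤ K → ∀ x, Tn δ (2 ^ k * R) φ x ≤ ε ∨ p x ≤ η k := by
    intro k hk x
    exact hG.dich k hk x
  let D : ℕ → Finset E → ℝ := fun k x => if Tn δ (2 ^ k * R) φ x ≤ ε then φ x else 0
  have hD0 : ∀ k x, 0 ≤ D k x := fun k x => by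
    simp only [D]; split_ifs
    · exact hφ0 x
    · exact le_rfl
  have hpt : ∀ x, φ x * p x ≤ D 0 x + ∑ k ∈ range K, η k * D (k + 1) x + η K := by
    intro x
    have hφ01 : φ x = 0 ∨ φ x = 1 := by
      simp only [φ]; split_ifs <;> simp
    rcases hφ01 with hφx | hφx
    · rw [hφx, zero_mul]
      have : 0 ≤ ∑ k ∈ range K, η k * D (k + 1) x :=
        Finset.sum_nonneg fun k _ => mul_nonneg (hη0 k) (hD0 _ _)
      linarith [hD0 0 x, hη0 K]
    · rw [hφx, one_mul]
      have key : ∀ K', K' ≤ K → (p x ≤ D 0 x + ∑ k ∈ range K', η k * D (k + 1) x) ∨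
          ¬ Tn δ (2 ^ K' * R) φ x ≤ ε := by
        intro K'
        induction K' with
        | zero =>
          intro _
          by_cases hh : Tn δ (2 ^ 0 * R) φ x ≤ ε
          · left
            have : D 0 x = 1 := by simp only [D]; rw [if_pos hh, hφx]
            rw [this]; simpa using hp1 x
          · right; exact hh
        | succ K' ih =>
          intro hK'
          rcases ih (by omega) with hh | hh
          · left
            rw [Finset.sum_range_succ]
            have := mul_nonneg (hη0 K') (hD0 (K' + 1) x)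
            linarith
          · by_cases h2 : Tn δ (2 ^ (K' + 1) * R) φ x ≤ ε
            · left
              have e1 : p x ≤ η K' := (hdich K' (by omega) x).resolve_left hh
              have e2 : D (K' + 1) x = 1 := by simp only [D]; rw [if_pos h2, hφx]
              rw [Finset.sum_range_succ, e2, mul_one]
              have e3 : 0 ≤ ∑ k ∈ range K', η k * D (k + 1) x :=
                Finset.sum_nonneg fun k _ => mul_nonneg (hη0 k) (hD0 _ _)
              linarith [hD0 0 x]
            · right; exact h2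
      rcases key K le_rfl with hh | hh
      · linarith [hη0 K]
      · have e1 : p x ≤ η K := (hdich K le_rfl x).resolve_left hh
        have e3 : 0 ≤ ∑ k ∈ range K, η k * D (k + 1) x :=
          Finset.sum_nonneg fun k _ => mul_nonneg (hη0 k) (hD0 _ _)
        linarith [hD0 0 x]
  -- the expected values
  set s : ℝ := √(Fintype.card E) with hs
  have hs0 : 0 ≤ s := Real.sqrt_nonneg _
  have hR0 : (0 : ℝ) ≤ R := by positivity
  have hED : ∀ k, Eu (D k) ≤ ε + 2 * (2 ^ k * R / 2 ^ K) * s := by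
    intro k
    have e1 : Eu (D k) ≤ Eu (fun x => ε + (φ x - Tn δ (2 ^ k * R) φ x)) := by
      apply Mu_mono
      intro x
      have := NegLim.Tn_le_self h0 h1 hφa (2 ^ k * R) x
      simp only [D]
      split_ifs with h <;> linarith
    have e2 : Eu (fun x => ε + (φ x - Tn δ (2 ^ k * R) φ x)) =
        ε + (Eu φ - Eu (Tn δ (2 ^ k * R) φ)) := by
      rw [Mu_add, Mu_const, Mu_sub]
    have e3 := hCs E δ (2 ^ k * R) φ h0 h1 hφ0 hφ1
    have e4 : dens δ (2 ^ k * R) ≤ 2 ^ k * R / 2 ^ K := by
      refine (NegLim.dens_le h0 h1 (2 ^ k * R)).trans (le_of_eq ?_)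
      rw [hδ]
      push_cast
      ring
    have e5 : 2 * dens δ (2 ^ k * R) * s ≤ 2 * (2 ^ k * R / 2 ^ K) * s :=
      mul_le_mul_of_nonneg_right (mul_le_mul_of_nonneg_left e4 (by norm_num)) hs0
    rw [e2] at e1
    linarith
  have hG1 : Gam Y G ≤ Eu (D 0) + ∑ k ∈ range K, η k * Eu (D (k + 1)) + η K := by
    have e1 : Gam Y G = Eu (fun x => φ x * p x) := rfl
    rw [e1]
    refine (Mu_mono hpt).trans (le_of_eq ?_)
    rw [Mu_add (fun x => D 0 x + ∑ k ∈ range K, η k * D (k + 1) x) (fun _ => η K), Mu_const,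
      Mu_add (D 0) (fun x => ∑ k ∈ range K, η k * D (k + 1) x),
      Mu_sum (range K) (fun k x => η k * D (k + 1) x)]
    congr 2
    refine Finset.sum_congr rfl fun k _ => ?_
    rw [Mu_smul]
  have hηK : η K = 128 / q := by
    simp only [η]
    field_simp
    norm_num
  have hterm : ∀ k ∈ range K, η k * Eu (D (k + 1)) ≤
      2 * ε * (1 / 2) ^ k + 512 * R * s / q := by
    intro k _
    have e1 : η k * Eu (D (k + 1)) ≤ η k * (ε + 2 * (2 ^ (k + 1) * R / 2 ^ K) * s) :=
      mul_le_mul_of_nonneg_left (hED (k + 1)) (hη0 k)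
    have e2 : η k * (ε + 2 * (2 ^ (k + 1) * R / 2 ^ K) * s) =
        (64 * 2 ^ K / q) * (2 * ε * (1 / 2) ^ k) + 512 * R * s / q := by
      simp only [η]
      rw [one_div, inv_pow, pow_succ]
      field_simp
      push_cast
      ring
    have e3 : (64 * 2 ^ K / q) * (2 * ε * (1 / 2) ^ k) ≤ 1 * (2 * ε * (1 / 2) ^ k) := by
      apply mul_le_mul_of_nonneg_right _ (by positivity)
      rw [div_le_one hqpos]; exact hq
    linarith
  have hsum := Finset.sum_le_sum hterm
  rw [Finset.sum_add_distrib, ← Finset.mul_sum, Finset.sum_const, card_range,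
    nsmul_eq_mul] at hsum
  have hgeo : ∑ i ∈ range K, (1 / 2 : ℝ) ^ i ≤ 2 := sum_geometric_two_le K
  have hgeo2 : 2 * ε * ∑ i ∈ range K, (1 / 2 : ℝ) ^ i ≤ 2 * ε * 2 :=
    mul_le_mul_of_nonneg_left hgeo (by positivity)
  have hE0 := hED 0
  have hE0' : 2 * (2 ^ 0 * (R : ℝ) / 2 ^ K) * s ≤ 256 * R * s / q := by
    have e1 : 2 * (2 ^ 0 * (R : ℝ) / 2 ^ K) * s = (2 * R * s) * (1 / 2 ^ K) := by
      rw [pow_zero]; ring
    have e2 : 256 * R * s / q = (2 * R * s) * (128 / q) := by ring
    rw [e1, e2]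
    apply mul_le_mul_of_nonneg_left _ (by positivity)
    rw [div_le_div_iff₀ hM hqpos]
    linarith
  have hfin : 5 * ε + 128 / q + (512 * K + 256) * R * s / q =
      (ε + 256 * R * s / q) + (2 * ε * 2 + K * (512 * R * s / q)) + 128 / q := by
    ring
  rw [hfin]
  rw [hηK] at hG1
  linarith

end Pool.Agent.UN
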