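import Pool.Agent.Work.MP_71c844_lc.UN.Stmts

/-!
# Block UN, item Pl: planting
-/

set_option autoImplicit false

namespace Pool.Agent.UN

open Finset
open Pool.Agent.NegLim (T Tn wt dens Dich)
open Pool.Agent.LayCirc (inp)

/-- the fibres of `x ↦ x ∪ A` -/
private theorem Pl_card {E : Type} [Fintype E] [DecidableEq E] (A w : Finset E) (h : A ⊆ w) :
    (univ.filter (fun x : Finset E => x ∪ A = w)).card = 2 ^ A.card := by
  rw [← Finset.card_powerset]
  refine Finset.card_nbij' (fun x => x ∩ A) (fun a => (w \ A) ∪ a) ?_ ?_ ?_ ?_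
  · intro x _
    exact Finset.mem_coe.2 (Finset.mem_powerset.2 Finset.inter_subset_right)
  · intro a ha
    have ha' : a ⊆ A := Finset.mem_powerset.1 (Finset.mem_coe.1 ha)
    refine Finset.mem_coe.2 (Finset.mem_filter.2 ⟨Finset.mem_univ _, ?_⟩)
    ext e
    simp only [Finset.mem_union, Finset.mem_sdiff]
    constructor
    · rintro ((⟨h1, -⟩ | h1) | h1)
      · exact h1
      · exact h (ha' h1)
      · exact h h1
    · intro h1
      by_cases h2 : e ∈ A
      · exact Or.inr h2
      · exact Or.inl (Or.inl ⟨h1, h2⟩)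
  · intro x hx
    have hx' : x ∪ A = w := (Finset.mem_filter.1 (Finset.mem_coe.1 hx)).2
    change (w \ A) ∪ (x ∩ A) = x
    rw [← hx']
    ext e
    simp only [Finset.mem_union, Finset.mem_sdiff, Finset.mem_inter]
    constructor
    · rintro (⟨h1 | h1, h2⟩ | ⟨h1, -⟩)
      · exact h1
      · exact absurd h1 h2
      · exact h1
    · intro h1
      by_cases h2 : e ∈ A
      · exact Or.inr ⟨h1, h2⟩
      · exact Or.inl ⟨Or.inl h1, h2⟩
  · intro a ha
    have ha' : a ⊆ A := Finset.mem_powerset.1 (Finset.mem_coe.1 ha)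
    change ((w \ A) ∪ a) ∩ A = a
    ext e
    simp only [Finset.mem_union, Finset.mem_sdiff, Finset.mem_inter]
    constructor
    · rintro ⟨⟨-, h1⟩ | h1, h2⟩
      · exact absurd h2 h1
      · exact h1
    · intro h1
      exact ⟨Or.inr h1, ha' h1⟩

/-- sum over the fibres -/
private theorem Pl_sum {E : Type} [Fintype E] [DecidableEq E] (A : Finset E) (ψ : Finset E → ℝ) :
    ∑ x, ψ (x ∪ A) = 2 ^ A.card * ∑ w : Finset E, if A ⊆ w then ψ w else 0 := by
  have h1 : ∀ x : Finset E, ψ (x ∪ A) = ∑ w : Finset E, if x ∪ A = w then ψ w else 0 := by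
    intro x
    rw [Finset.sum_ite_eq]
    simp
  rw [Finset.sum_congr rfl fun x _ => h1 x, Finset.sum_comm, Finset.mul_sum]
  refine Finset.sum_congr rfl fun w _ => ?_
  rw [← Finset.sum_filter, Finset.sum_const, nsmul_eq_mul]
  by_cases h : A ⊆ w
  · rw [if_pos h, Pl_card A w h]
    push_cast
    ring
  · rw [if_neg h, mul_zero]
    have h2 : (univ.filter (fun x : Finset E => x ∪ A = w)) = ∅ := by
      refine Finset.filter_eq_empty_iff.2 fun x _ hx => h ?_
      rw [← hx]
      exact Finset.subset_union_right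
    rw [h2]
    simp

theorem pr_Pl : StPl := by
  intro E _ _ A ψ
  unfold Eu
  rw [Pl_sum A ψ, ← mul_div_assoc, ← mul_assoc, ← mul_pow]
  have e : ((1 : ℝ) / 2 * 2) ^ A.card = 1 := by norm_num
  rw [e, one_mul]

end Pool.Agent.UN
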