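import Pool.Agent.Work.MP_71c844_lc.UN.StmtsB

set_option autoImplicit false

/-!
# Block UN, item Ps: the potential

`StLx` is not used: the pair (pattern, output) is monotone along increasing inputs for the
lexicographic order (`Ps_mono`).
-/

namespace Pool.Agent.UN

open Finset
open Pool.Agent.NegLim (T Tn wt dens Dich gval)
open Pool.Agent.LayCirc

section Ps

variable {ι E : Type} [Fintype E] [DecidableEq E] {s : ℕ}

/-- A gate is monotone as long as the arguments of the arbitrary gates below it agree. -/
theorem Ps_gate (π : ι → Bool ⊕ E) (c : Circuit ι s) (x y : Finset E) (hxy : x ⊆ y) (n : Fin s)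
    (hsame : ∀ j : Fin s, j < n → Fed c j → val c (inp π y) j = val c (inp π x) j)
    (hx : val c (inp π x) n = true) : val c (inp π y) n = true := by
  have h1 := frozen_eq c (pat π c x) (inp π x) n.1 n.2.le (fun i _ hfi => by
    unfold pat
    rw [if_pos hfi]) n.1 n.2 le_rfl
  have h2 := frozen_eq c (pat π c x) (inp π y) n.1 n.2.le (fun i hi hfi => by
    unfold pat
    rw [if_pos hfi]
    exact (hsame i hi hfi).symm) n.1 n.2 le_rfl
  rw [← h2]
  refine NegLim.run_mono (a := inp π x) (b := inp π y) ?_ _
    (numNot_toList c _ s le_rfl) _ ?_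
  · intro i hi
    unfold inp NegLim.pull at hi ⊢
    split at hi
    · exact hi
    · simp only [decide_eq_true_eq] at hi ⊢
      exact hxy hi
  · rw [h1]
    exact hx

/-- The pattern together with the output, in the lexicographic order. -/
noncomputable def Ps_code (π : ι → Bool ⊕ E) (c : Circuit ι s) (o : Fin s) (x : Finset E) :
    Lex (Lex (Fin s → Bool) × Bool) :=
  toLex (toLex (pat π c x), val c (inp π x) o)

theorem Ps_pat (π : ι → Bool ⊕ E) (c : Circuit ι s) (x : Finset E) (j : Fin s) (hj : Fed c j) :
    pat π c x j = val c (inp π x) j := by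
  unfold pat
  rw [if_pos hj]

theorem Ps_pat' (π : ι → Bool ⊕ E) (c : Circuit ι s) (x : Finset E) (j : Fin s)
    (hj : ¬ Fed c j) : pat π c x j = false := by
  unfold pat
  rw [if_neg hj]

theorem Ps_mono (π : ι → Bool ⊕ E) (c : Circuit ι s) (o : Fin s) : Monotone (Ps_code π c o) := by
  intro x y hxy
  unfold Ps_code
  rw [Prod.Lex.toLex_le_toLex]
  rcases lt_trichotomy (toLex (pat π c x)) (toLex (pat π c y)) with h | h | h
  · exact Or.inl h
  · refine Or.inr ⟨h, ?_⟩
    have hp : pat π c x = pat π c y := toLex.injective h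
    rw [Bool.le_iff_imp]
    refine Ps_gate π c x y hxy o fun j _ hj => ?_
    rw [← Ps_pat π c x j hj, ← Ps_pat π c y j hj, hp]
  · exfalso
    obtain ⟨i, hi, hlt⟩ := h
    have hlt' : pat π c y i < pat π c x i := hlt
    have hi' : ∀ j < i, pat π c y j = pat π c x j := hi
    obtain ⟨e1, e2⟩ := Bool.lt_iff.1 hlt'
    have hfed : Fed c i := by
      by_contra hcon
      rw [Ps_pat' π c x i hcon] at e2
      cases e2
    have e3 := Ps_gate π c x y hxy i (fun j hj hfj => by
      rw [← Ps_pat π c x j hfj, ← Ps_pat π c y j hfj, hi' j hj]) (by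
        rw [← Ps_pat π c x i hfed]
        exact e2)
    rw [← Ps_pat π c y i hfed, e1] at e3
    cases e3

theorem Ps_inp_mono (π : ι → Bool ⊕ E) : Monotone (inp π) := by
  intro x y hxy e
  show inp π x e ≤ inp π y e
  unfold inp NegLim.pull
  rcases π e with b' | t
  · exact le_rfl
  · by_cases h : t ∈ x
    · simp only [h, hxy h, le_refl]
    · simp only [h, decide_false]
      exact Bool.false_le _

/-- There is an increasing sequence ending in `x` along which the code changes `m` times. -/
def Ps_P (π : ι → Bool ⊕ E) (c : Circuit ι s) (o : Fin s) (m : ℕ) (x : Finset E) : Prop :=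
  ∃ a : ℕ → Finset E, Monotone a ∧ (∀ i, m ≤ i → a i = x) ∧
    ∀ i, i < m → Ps_code π c o (a i) ≠ Ps_code π c o (a (i + 1))

theorem Ps_zero (π : ι → Bool ⊕ E) (c : Circuit ι s) (o : Fin s) (x : Finset E) :
    Ps_P π c o 0 x :=
  ⟨fun _ => x, fun _ _ _ => le_rfl, fun _ _ => rfl, fun i hi => absurd hi (Nat.not_lt_zero i)⟩

theorem Ps_step (π : ι → Bool ⊕ E) (c : Circuit ι s) (o : Fin s) (m : ℕ) (x y : Finset E)
    (hxy : x ⊆ y) (hne : Ps_code π c o x ≠ Ps_code π c o y) (h : Ps_P π c o m x) :
    Ps_P π c o (m + 1) y := by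
  obtain ⟨a, ha, hax, hac⟩ := h
  refine ⟨fun i => if i < m + 1 then a i else y, ?_, ?_, ?_⟩
  · intro i j hij
    show (if i < m + 1 then a i else y) ≤ (if j < m + 1 then a j else y)
    by_cases hj : j < m + 1
    · rw [if_pos hj, if_pos (lt_of_le_of_lt hij hj)]
      exact ha hij
    · rw [if_neg hj]
      by_cases hi : i < m + 1
      · rw [if_pos hi]
        have h1 : a i ≤ a m := ha (Nat.lt_succ_iff.1 hi)
        rw [hax m le_rfl] at h1
        exact h1.trans hxy
      · rw [if_neg hi]
  · intro i hi
    show (if i < m + 1 then a i else y) = y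
    rw [if_neg (by omega)]
  · intro i hi
    show Ps_code π c o (if i < m + 1 then a i else y) ≠
      Ps_code π c o (if i + 1 < m + 1 then a (i + 1) else y)
    rw [if_pos hi]
    by_cases h1 : i + 1 < m + 1
    · rw [if_pos h1]
      exact hac i (by omega)
    · rw [if_neg h1]
      have : i = m := by omega
      rw [this, hax m le_rfl]
      exact hne

theorem Ps_same (π : ι → Bool ⊕ E) (c : Circuit ι s) (o : Fin s) (m : ℕ) (x y : Finset E)
    (hxy : x ⊆ y) (he : Ps_code π c o x = Ps_code π c o y) (h : Ps_P π c o m x) :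
    Ps_P π c o m y := by
  obtain ⟨a, ha, hax, hac⟩ := h
  refine ⟨fun i => if i < m then a i else y, ?_, ?_, ?_⟩
  · intro i j hij
    show (if i < m then a i else y) ≤ (if j < m then a j else y)
    by_cases hj : j < m
    · rw [if_pos hj, if_pos (lt_of_le_of_lt hij hj)]
      exact ha hij
    · rw [if_neg hj]
      by_cases hi : i < m
      · rw [if_pos hi]
        have h1 : a i ≤ a m := ha hi.le
        rw [hax m le_rfl] at h1
        exact h1.trans hxy
      · rw [if_neg hi]
  · intro i hi
    show (if i < m then a i else y) = y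
    rw [if_neg (by omega)]
  · intro i hi
    show Ps_code π c o (if i < m then a i else y) ≠
      Ps_code π c o (if i + 1 < m then a (i + 1) else y)
    rw [if_pos hi]
    by_cases h1 : i + 1 < m
    · rw [if_pos h1]
      exact hac i hi
    · rw [if_neg h1, ← he]
      have h2 := hac i hi
      rw [hax (i + 1) (by omega)] at h2
      exact h2

/-- The number of the changes is less than twice the number of the patterns. -/
theorem Ps_bound (π : ι → Bool ⊕ E) (c : Circuit ι s) (o : Fin s) (M : ℕ)
    (hM : ∀ x : ℕ → (ι → Bool), Monotone x →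
      (Set.range (fun i => pattern c (x i))).ncard ≤ M)
    (m : ℕ) (x : Finset E) (h : Ps_P π c o m x) : m + 1 ≤ 2 * M := by
  obtain ⟨a, ha, -, hac⟩ := h
  have hA := hM (fun i => inp π (a i)) (fun i j hij => Ps_inp_mono π (ha hij))
  set A : Set ({j : Fin s // Fed c j} → Bool) := Set.range (fun i => pattern c (inp π (a i)))
    with hAdef
  -- the code is strictly monotone up to `m`
  have hstr : ∀ i j, i < j → j ≤ m → Ps_code π c o (a i) < Ps_code π c o (a j) := by
    intro i j hij hj
    have h1 : Ps_code π c o (a i) < Ps_code π c o (a (i + 1)) :=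
      lt_of_le_of_ne (Ps_mono π c o (ha (Nat.le_succ i))) (hac i (by omega))
    exact lt_of_lt_of_le h1 (Ps_mono π c o (ha hij))
  -- the pair (pattern, output)
  let f : ℕ → ({j : Fin s // Fed c j} → Bool) × Bool :=
    fun i => (pattern c (inp π (a i)), val c (inp π (a i)) o)
  have hcode : ∀ i j, f i = f j → Ps_code π c o (a i) = Ps_code π c o (a j) := by
    intro i j hij
    have e1 : pattern c (inp π (a i)) = pattern c (inp π (a j)) := congrArg Prod.fst hij
    have e2 : val c (inp π (a i)) o = val c (inp π (a j)) o := congrArg Prod.snd hij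
    have e3 : pat π c (a i) = pat π c (a j) := by
      funext k
      by_cases hk : Fed c k
      · rw [Ps_pat π c _ k hk, Ps_pat π c _ k hk]
        exact congrFun e1 ⟨k, hk⟩
      · rw [Ps_pat' π c _ k hk, Ps_pat' π c _ k hk]
    unfold Ps_code
    rw [e2, e3]
  have hinj : Set.InjOn f (Set.Icc 0 m) := by
    intro i hi j hj hij
    rcases lt_trichotomy i j with h1 | h1 | h1
    · exact absurd (hcode i j hij) (hstr i j h1 hj.2).ne
    · exact h1
    · exact absurd (hcode i j hij) (hstr j i h1 hi.2).ne'
  have hsub : f '' Set.Icc 0 m ⊆ A ×ˢ (Set.univ : Set Bool) := by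
    rintro _ ⟨i, -, rfl⟩
    exact ⟨⟨i, rfl⟩, trivial⟩
  have hfin : (A ×ˢ (Set.univ : Set Bool)).Finite := Set.toFinite _
  have h1 : (f '' Set.Icc 0 m).ncard = m + 1 := by
    rw [Set.ncard_image_of_injOn hinj]
    have : (Set.Icc 0 m : Set ℕ) = ((Finset.Icc 0 m : Finset ℕ) : Set ℕ) := by
      rw [Finset.coe_Icc]
    rw [this, Set.ncard_coe_finset, Nat.card_Icc]
    omega
  have h2 : (A ×ˢ (Set.univ : Set Bool)).ncard = A.ncard * 2 := by
    rw [Set.ncard_prod]
    congr 1
    rw [Set.ncard_univ, Nat.card_eq_fintype_card, Fintype.card_bool]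
  have h3 := Set.ncard_le_ncard hsub hfin
  rw [h1, h2] at h3
  omega

end Ps

open Classical in
theorem pr_Ps : StPs := by
  intro _ ι E _ _ s M π c o hM
  have hB := Ps_bound π c o M hM
  have hspec : ∀ x, Ps_P π c o (Nat.findGreatest (fun m => Ps_P π c o m x) (2 * M)) x := by
    intro x
    exact Nat.findGreatest_spec (P := fun m => Ps_P π c o m x) (m := 0) (Nat.zero_le _)
      (Ps_zero π c o x)
  have hle : ∀ m x, Ps_P π c o m x →
      m ≤ Nat.findGreatest (fun m => Ps_P π c o m x) (2 * M) := by
    intro m x h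
    exact Nat.le_findGreatest (by have := hB m x h; omega) h
  refine ⟨fun x => Nat.findGreatest (fun m => Ps_P π c o m x) (2 * M),
    fun x => Nat.findGreatest_le _, ?_, ?_⟩
  · intro x y hxy
    by_cases he : Ps_code π c o x = Ps_code π c o y
    · exact hle _ y (Ps_same π c o _ x y hxy he (hspec x))
    · have := hle _ y (Ps_step π c o _ x y hxy he (hspec x))
      show Nat.findGreatest (fun m => Ps_P π c o m x) (2 * M) ≤
        Nat.findGreatest (fun m => Ps_P π c o m y) (2 * M)
      omega
  · intro x y hxy hx hy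
    have hne : Ps_code π c o x ≠ Ps_code π c o y := by
      intro he
      unfold Ps_code at he
      have e1 := toLex.injective he
      have e2 : pat π c x = pat π c y := toLex.injective (congrArg Prod.fst e1)
      have e3 : val c (inp π x) o = val c (inp π y) o := congrArg Prod.snd e1
      have e4 := (pat_cover π c o y y (Finset.Subset.refl _) (by rw [← e3]; exact hx)).1
      rw [e2, e4] at hy
      cases hy
    exact hle _ y (Ps_step π c o _ x y hxy hne (hspec x))

end Pool.Agent.UN
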