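import Pool.Agent.Work.MP_71c844_lc.UN.Stmts

/-!
# Block UN, item Rn (helper39): several noise steps
-/

namespace Pool.Agent.UN

open Finset
open Pool.Agent.NegLim (T Tn wt dens Dich)
open Pool.Agent.LayCirc (inp)

theorem pr_Rn : StRn := by
  intro hR E _ _ δ s
  induction s with
  | zero =>
    intro φ
    refine sum_congr rfl fun x _ => ?_
    have h1 : dens δ 0 = 0 := by
      unfold Pool.Agent.NegLim.dens
      simp
    rw [h1]
    unfold rho
    rw [add_zero, sub_zero, one_pow, one_pow, one_mul, one_mul]
    rfl
  | succ s ih =>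
    intro φ
    have h1 : Tn δ (s + 1) φ = Tn δ s (T δ φ) := Function.iterate_succ_apply _ _ _
    have h2 : dens δ (s + 1) = dens δ s + δ - dens δ s * δ := by
      unfold Pool.Agent.NegLim.dens
      rw [pow_succ]
      ring
    rw [h1, ih, hR, h2]

end Pool.Agent.UN
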