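import Pool.Agent.Work.MP_71c844_lc.UN.Stmts

namespace Pool.Agent.UN

open Finset
open Pool.Agent.NegLim (T Tn wt dens Dich)
open Pool.Agent.LayCirc (inp)

theorem pr_Rs : StRs := by
  intro E _ _ D
  constructor
  · have h := Fintype.sum_pow_mul_eq_add_pow E (1 + D) (1 - D)
    have h2 : (1 + D + (1 - D)) = 2 := by ring
    rw [h2] at h
    rw [← h]
    refine Finset.sum_congr rfl fun x _ => ?_
    rw [rho, Finset.card_univ_sdiff]
  · have h := Fintype.sum_pow_mul_eq_add_pow E ((1 + D) ^ 2) ((1 - D) ^ 2)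
    have h2 : ((1 + D) ^ 2 + (1 - D) ^ 2) = 2 * (1 + D ^ 2) := by ring
    rw [h2] at h
    rw [← h]
    refine Finset.sum_congr rfl fun x _ => ?_
    rw [rho, Finset.card_univ_sdiff, mul_pow, ← pow_mul, ← pow_mul, ← pow_mul, ← pow_mul,
      Nat.mul_comm 2, Nat.mul_comm 2]

end Pool.Agent.UN
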