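import Pool.Agent.Work.MP_71c844_lc.UN.Stmts

/-!
# Block UN, item Sb: the image of a projection is a subcube
-/

namespace Pool.Agent.UN

open Finset
open Pool.Agent.NegLim (T Tn wt dens Dich)
open Pool.Agent.LayCirc (inp)

open Classical in
theorem pr_Sb : StSb := by
  intro ι E _ _ _ _ π hπ
  choose g hg hgu using hπ
  have hginj : Function.Injective g := by
    intro t t' h
    have h1 := hg t
    rw [h, hg t'] at h1
    exact (Sum.inr.inj h1).symm
  refine ⟨univ.image g, inp π ∅, ?_, ?_, ?_⟩
  · rw [card_image_of_injective _ hginj, card_univ]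
  · intro e t h
    rw [mem_image]
    exact ⟨t, mem_univ _, (hgu t e h).symm⟩
  · intro h
    have hout : ∀ e, e ∉ univ.image g → ∃ b, π e = .inl b := by
      intro e he
      rcases hh : π e with b | t
      · exact ⟨b, rfl⟩
      · exact absurd (mem_image.2 ⟨t, mem_univ _, (hgu t e hh).symm⟩) he
    have hin : ∀ (X : Finset E) (t : E), inp π X (g t) = decide (t ∈ X) := by
      intro X t
      unfold inp NegLim.pull
      rw [hg t]
    have hoc : ∀ (X : Finset E) (e : ι), e ∉ univ.image g → inp π X e = inp π ∅ e := by
      intro X e he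
      obtain ⟨b, hb⟩ := hout e he
      unfold inp NegLim.pull
      rw [hb]
    refine sum_nbij' (fun x => univ.filter fun t => x (g t) = true) (fun X => inp π X)
      ?_ ?_ ?_ ?_ ?_
    · intro x _
      exact mem_univ _
    · intro X _
      rw [mem_filter]
      exact ⟨mem_univ _, fun e he => hoc X e he⟩
    · intro x hx
      rw [mem_filter] at hx
      funext e
      by_cases he : e ∈ univ.image g
      · obtain ⟨t, -, rfl⟩ := mem_image.1 he
        rw [hin]
        cases hxe : x (g t) <;> simp [hxe]
      · rw [hoc _ e he, hx.2 e he]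
    · intro X _
      ext t
      rw [mem_filter]
      simp [hin]
    · intro x hx
      rw [mem_filter] at hx
      congr 1
      funext e
      by_cases he : e ∈ univ.image g
      · obtain ⟨t, -, rfl⟩ := mem_image.1 he
        rw [hin]
        cases hxe : x (g t) <;> simp [hxe]
      · rw [hoc _ e he, hx.2 e he]

end Pool.Agent.UN
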