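import Pool.Agent.Work.MP_71c844_lc.UN.Stmts

namespace Pool.Agent.UN

open Finset
open Pool.Agent.NegLim (T Tn wt dens Dich)
open Pool.Agent.LayCirc (inp)

open Classical in
theorem pr_Sl : StSl := by
  intro hPl hHh E U _ _ _ _ N Y lam hN hlam
  have hcU : (0 : ℝ) < Fintype.card U := by exact_mod_cast Fintype.card_pos
  have hlam0 : 0 < lam := by rw [hlam]; positivity
  obtain ⟨h, h0, h1, hst⟩ := hHh lam hlam0
  have hM : (0 : ℝ) < 2 ^ Fintype.card E := by positivity
  -- the Stein equation pointwise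
  have hpt : ∀ x : Finset E, (if ∃ u, Y u ⊆ x then (1 : ℝ) else 0) =
      (Zn Y x : ℝ) * h (Zn Y x) - lam * h (Zn Y x + 1) + (1 - Real.exp (-lam)) := by
    intro x
    rw [hst (Zn Y x)]
    have hz : Zn Y x = 0 ↔ ¬ ∃ u, Y u ⊆ x := by
      unfold Zn
      rw [Finset.card_eq_zero, Finset.filter_eq_empty_iff]
      simp
    by_cases hx : ∃ u, Y u ⊆ x
    · have : Zn Y x ≠ 0 := fun e => (hz.1 e) hx
      simp [hx, this]
    · have : Zn Y x = 0 := hz.2 hx
      simp [hx, this]
  -- planted sets counted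
  have hZ : ∀ x : Finset E, (Zn Y x : ℝ) * h (Zn Y x) =
      ∑ u, (if Y u ⊆ x then h (Zn Y x) else 0) := by
    intro x
    rw [← Finset.sum_filter, Finset.sum_const, nsmul_eq_mul]
    rfl
  have hpl : ∀ u, (∑ x : Finset E, (if Y u ⊆ x then h (Zn Y x) else 0)) =
      (1 / 2) ^ N * ∑ x : Finset E, h (Zn Y (x ∪ Y u)) := by
    intro u
    have := hPl E (Y u) (fun x => h (Zn Y x))
    unfold Eu at this
    rw [hN u] at this
    have h2 := congrArg (fun t => t * (2 : ℝ) ^ Fintype.card E) this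
    simp only at h2
    rw [div_mul_cancel₀ _ hM.ne', mul_assoc, div_mul_cancel₀ _ hM.ne'] at h2
    convert h2 using 2
  have hlow : ∀ (u : U) (x : Finset E), h (Zn Y x + 1) -
      (if Zn Y (x ∪ Y u) ≠ Zn Y x + 1 then (1 : ℝ) else 0) ≤ h (Zn Y (x ∪ Y u)) := by
    intro u x
    by_cases hx : Zn Y (x ∪ Y u) = Zn Y x + 1
    · simp [hx]
    · have e1 := h1 (Zn Y x + 1)
      have e2 := h0 (Zn Y (x ∪ Y u))
      simp only [ne_eq, hx, not_false_eq_true, if_true]
      linarith
  have hzet : ∑ u : U, ∑ x : Finset E, (if Zn Y (x ∪ Y u) ≠ Zn Y x + 1 then (1 : ℝ) else 0) =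
      Fintype.card U * zet Y * 2 ^ Fintype.card E := by
    unfold zet Eu
    rw [mul_assoc, div_mul_cancel₀ _ hM.ne', Finset.mul_sum, Finset.sum_comm]
    refine Finset.sum_congr rfl fun x _ => ?_
    rw [mul_div_cancel₀ _ hcU.ne', ← Finset.sum_filter, Finset.sum_const, nsmul_eq_mul, mul_one]
  have hsum : lam * (∑ x : Finset E, h (Zn Y x + 1)) - lam * zet Y * 2 ^ Fintype.card E ≤
      ∑ x : Finset E, (Zn Y x : ℝ) * h (Zn Y x) := by
    calc lam * (∑ x : Finset E, h (Zn Y x + 1)) - lam * zet Y * 2 ^ Fintype.card E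
        = (1 / 2) ^ N * (∑ u : U, ∑ x : Finset E, (h (Zn Y x + 1) -
          (if Zn Y (x ∪ Y u) ≠ Zn Y x + 1 then (1 : ℝ) else 0))) := by
          simp only [Finset.sum_sub_distrib]
          rw [hzet, Finset.sum_const, nsmul_eq_mul, Finset.card_univ, hlam]
          rw [one_div, inv_pow]
          field_simp
      _ ≤ (1 / 2) ^ N * (∑ u : U, ∑ x : Finset E, h (Zn Y (x ∪ Y u))) := by
          refine mul_le_mul_of_nonneg_left ?_ (by positivity)
          exact Finset.sum_le_sum fun u _ => Finset.sum_le_sum fun x _ => hlow u x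
      _ = ∑ x : Finset E, (Zn Y x : ℝ) * h (Zn Y x) := by
          rw [Finset.mul_sum]
          simp only [hZ]
          rw [Finset.sum_comm]
          exact Finset.sum_congr rfl fun u _ => (hpl u).symm
  unfold Eu
  rw [le_div_iff₀ hM]
  simp only [hpt]
  rw [Finset.sum_add_distrib, Finset.sum_sub_distrib, Finset.sum_const, nsmul_eq_mul,
    Finset.card_univ, Fintype.card_finset, ← Finset.mul_sum]
  push_cast
  nlinarith [hsum]

end Pool.Agent.UN
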