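import Pool.Agent.Work.MP_71c844_lc.UN.Stmts

/-! Block UN, item St: the Stein-Chen covariance bound. -/

namespace Pool.Agent.UN

open Finset
open Pool.Agent.NegLim (T Tn wt dens Dich)
open Pool.Agent.LayCirc (inp)

private lemma St_mono {E : Type} [Fintype E] [DecidableEq E] {f g : Finset E → ℝ}
    (hfg : ∀ x, f x ≤ g x) : Eu f ≤ Eu g := by
  unfold Eu
  exact div_le_div_of_nonneg_right (Finset.sum_le_sum fun x _ => hfg x) (by positivity)

private lemma St_add {E : Type} [Fintype E] [DecidableEq E] (f g : Finset E → ℝ) :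
    Eu (fun x => f x + g x) = Eu f + Eu g := by
  unfold Eu
  rw [Finset.sum_add_distrib, add_div]

private lemma St_smul {E : Type} [Fintype E] [DecidableEq E] (c : ℝ) (f : Finset E → ℝ) :
    Eu (fun x => c * f x) = c * Eu f := by
  unfold Eu
  rw [← Finset.mul_sum, mul_div_assoc]

private lemma St_sum {E U : Type} [Fintype E] [DecidableEq E] [Fintype U]
    (f : U → Finset E → ℝ) : Eu (fun x => ∑ u, f u x) = ∑ u, Eu (f u) := by
  unfold Eu
  rw [Finset.sum_comm, Finset.sum_div]

open Classical in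
theorem pr_St : StSt := by
  intro hPl hHh E U _ _ _ _ N Y lam C hN hlam
  have hU : (0 : ℝ) < Fintype.card U := by exact_mod_cast Fintype.card_pos
  have hlam0 : 0 < lam := by rw [hlam]; positivity
  obtain ⟨h, h0, h1, hS⟩ := hHh lam hlam0
  set c : Finset E → ℝ := fun x => if C x = true then (1 : ℝ) else 0 with hc
  set ψ : Finset E → ℝ := fun x => c x * h (Zn Y x) with hψ
  have hc0 : ∀ x, 0 ≤ c x := by intro x; simp only [hc]; split_ifs <;> norm_num
  have hc1 : ∀ x, c x ≤ 1 := by intro x; simp only [hc]; split_ifs <;> norm_num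
  -- the count
  have hZ : ∀ x, ((Zn Y x : ℕ) : ℝ) = ∑ u, (if Y u ⊆ x then (1 : ℝ) else 0) := by
    intro x
    unfold Zn
    rw [Finset.card_filter]
    push_cast
    rfl
  have hZ0 : ∀ x, (Zn Y x = 0 ↔ ¬ ∃ u, Y u ⊆ x) := by
    intro x
    unfold Zn
    rw [Finset.card_eq_zero, Finset.filter_eq_empty_iff]
    push Not
    constructor
    · intro H u; exact H (Finset.mem_univ u)
    · intro H u _; exact H u
  -- Stein
  have hstein : ∀ x, (if C x = true ∧ ∃ u, Y u ⊆ x then (1 : ℝ) else 0) =
      (1 - Real.exp (-lam)) * c x + (∑ u, (if Y u ⊆ x then ψ x else 0) +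
        (-lam) * (c x * h (Zn Y x + 1))) := by
    intro x
    have e1 : ∑ u, (if Y u ⊆ x then ψ x else 0) = c x * (Zn Y x * h (Zn Y x)) := by
      rw [hZ, Finset.sum_mul, Finset.mul_sum]
      refine Finset.sum_congr rfl fun u _ => ?_
      split_ifs <;> simp [hψ]
    have e2 := hS (Zn Y x)
    have e3 : (if C x = true ∧ ∃ u, Y u ⊆ x then (1 : ℝ) else 0) =
        c x * (if Zn Y x = 0 then (0 : ℝ) else 1) := by
      by_cases hCx : C x = true
      · by_cases hex : ∃ u, Y u ⊆ x
        · have : Zn Y x ≠ 0 := fun H => (hZ0 x).1 H hex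
          simp [hc, hCx, hex, this]
        · have : Zn Y x = 0 := (hZ0 x).2 hex
          simp [hex, this]
      · simp [hc, hCx]
    rw [e1, e3]
    have e4 : (if Zn Y x = 0 then (0 : ℝ) else 1) =
        Zn Y x * h (Zn Y x) - lam * h (Zn Y x + 1) + (1 - Real.exp (-lam)) := by linarith
    rw [e4]
    ring
  -- planting
  have hplant : ∀ u, Eu (fun x => if Y u ⊆ x then ψ x else 0) =
      (1 / 2) ^ N * Eu (fun x => ψ (x ∪ Y u)) := by
    intro u
    have := hPl E (Y u) ψ
    rw [hN u] at this
    rw [← this]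
  have hpt : ∀ u x, ψ (x ∪ Y u) ≤ c x * h (Zn Y x + 1) +
      ((if C x = true then (0 : ℝ) else 1) * (if C (x ∪ Y u) = true then (1 : ℝ) else 0) +
        (if Zn Y (x ∪ Y u) ≠ Zn Y x + 1 then (1 : ℝ) else 0)) := by
    intro u x
    have hb0 : 0 ≤ c x * h (Zn Y x + 1) := mul_nonneg (hc0 x) (h0 _)
    have hb1 : ψ (x ∪ Y u) ≤ 1 := by
      simp only [hψ]
      have := mul_le_mul (hc1 (x ∪ Y u)) (h1 (Zn Y (x ∪ Y u))) (h0 _) (by norm_num)
      linarith
    have hi1 : 0 ≤ (if C x = true then (0 : ℝ) else 1) *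
        (if C (x ∪ Y u) = true then (1 : ℝ) else 0) := by
      split_ifs <;> norm_num
    have hi2 : (0 : ℝ) ≤ (if Zn Y (x ∪ Y u) ≠ Zn Y x + 1 then (1 : ℝ) else 0) := by
      split_ifs <;> norm_num
    by_cases hZe : Zn Y (x ∪ Y u) ≠ Zn Y x + 1
    · have : (if Zn Y (x ∪ Y u) ≠ Zn Y x + 1 then (1 : ℝ) else 0) = 1 := if_pos hZe
      linarith
    · have hZe' : Zn Y (x ∪ Y u) = Zn Y x + 1 := not_not.mp hZe
      by_cases hC2 : C (x ∪ Y u) = true
      · by_cases hC1 : C x = true
        · have : ψ (x ∪ Y u) = c x * h (Zn Y x + 1) := by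
            simp only [hψ, hc, hC1, hC2, hZe', if_true]
          linarith
        · have : (if C x = true then (0 : ℝ) else 1) *
              (if C (x ∪ Y u) = true then (1 : ℝ) else 0) = 1 := by
            rw [if_neg hC1, if_pos hC2]; norm_num
          linarith
      · have : ψ (x ∪ Y u) = 0 := by
          simp only [hψ, hc, if_neg hC2, zero_mul]
        linarith
  -- averages
  have hGam : ∑ u, Eu (fun x => (if C x = true then (0 : ℝ) else 1) *
      (if C (x ∪ Y u) = true then (1 : ℝ) else 0)) = Fintype.card U * Gam Y C := by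
    rw [← St_sum]
    unfold Gam
    rw [← St_smul]
    congr 1
    funext x
    rw [← Finset.mul_sum, Finset.card_filter]
    push_cast
    field_simp
  have hzet : ∑ u, Eu (fun x => if Zn Y (x ∪ Y u) ≠ Zn Y x + 1 then (1 : ℝ) else 0) =
      Fintype.card U * zet Y := by
    rw [← St_sum]
    unfold zet
    rw [← St_smul]
    congr 1
    funext x
    rw [Finset.card_filter]
    push_cast
    field_simp
  have hsumle : ∑ u, Eu (fun x => ψ (x ∪ Y u)) ≤
      Fintype.card U * (Eu (fun x => c x * h (Zn Y x + 1)) + Gam Y C + zet Y) := by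
    calc ∑ u, Eu (fun x => ψ (x ∪ Y u)) ≤ ∑ u, (Eu (fun x => c x * h (Zn Y x + 1)) +
          (Eu (fun x => (if C x = true then (0 : ℝ) else 1) *
            (if C (x ∪ Y u) = true then (1 : ℝ) else 0)) +
          Eu (fun x => if Zn Y (x ∪ Y u) ≠ Zn Y x + 1 then (1 : ℝ) else 0))) := by
            refine Finset.sum_le_sum fun u _ => ?_
            rw [← St_add, ← St_add]
            exact St_mono (hpt u)
      _ = _ := by
            rw [Finset.sum_add_distrib, Finset.sum_add_distrib, hGam, hzet]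
            simp only [Finset.sum_const, Finset.card_univ, nsmul_eq_mul]
            ring
  have hA : ∑ u, Eu (fun x => if Y u ⊆ x then ψ x else 0) ≤
      lam * (Eu (fun x => c x * h (Zn Y x + 1)) + Gam Y C + zet Y) := by
    have e1 : ∑ u, Eu (fun x => if Y u ⊆ x then ψ x else 0) =
        (1 / 2) ^ N * ∑ u, Eu (fun x => ψ (x ∪ Y u)) := by
      rw [Finset.mul_sum]
      exact Finset.sum_congr rfl fun u _ => hplant u
    rw [e1]
    have hp : (0 : ℝ) < (1 / 2) ^ N := by positivity
    calc (1 / 2 : ℝ) ^ N * ∑ u, Eu (fun x => ψ (x ∪ Y u)) ≤ (1 / 2) ^ N *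
          (Fintype.card U * (Eu (fun x => c x * h (Zn Y x + 1)) + Gam Y C + zet Y)) :=
            mul_le_mul_of_nonneg_left hsumle hp.le
      _ = _ := by
            rw [hlam, one_div, inv_pow]
            ring
  calc Eu (fun x => if C x = true ∧ ∃ u, Y u ⊆ x then (1 : ℝ) else 0)
      = (1 - Real.exp (-lam)) * Eu c + (∑ u, Eu (fun x => if Y u ⊆ x then ψ x else 0) +
        (-lam) * Eu (fun x => c x * h (Zn Y x + 1))) := by
          rw [← St_smul, ← St_smul, ← St_sum, ← St_add, ← St_add]
          congr 1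
          funext x
          exact hstein x
    _ ≤ _ := by
          have : (-lam) * Eu (fun x => c x * h (Zn Y x + 1)) =
            - (lam * Eu (fun x => c x * h (Zn Y x + 1))) := by ring
          rw [this]
          have h2 : lam * (Eu (fun x => c x * h (Zn Y x + 1)) + Gam Y C + zet Y) =
            lam * Eu (fun x => c x * h (Zn Y x + 1)) + lam * (Gam Y C + zet Y) := by ring
          rw [h2] at hA
          linarith

end Pool.Agent.UN
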