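import Pool.Agent.Work.MP_71c844_lc.UN.Stmts

/-!
# Block UN, item Tu: tuning the number of planted sets
-/

namespace Pool.Agent.UN

open Finset
open Pool.Agent.NegLim (T Tn wt dens Dich)
open Pool.Agent.LayCirc (inp)

open Classical in
theorem pr_Tu : StTu := by
  intro E U _ _ _ Y P0 q τ h0 hq hτ hτ'
  have hne : (P0.powerset.filter (fun P =>
      τ ≤ ((univ.filter (fun u => Disjoint (Y u) P)).card : ℝ))).Nonempty := by
    refine ⟨∅, ?_⟩
    rw [mem_filter, mem_powerset]
    refine ⟨empty_subset _, ?_⟩
    have h1 : (univ.filter (fun u => Disjoint (Y u) (∅ : Finset E))) = univ := by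
      apply filter_true_of_mem
      intro u _
      exact disjoint_empty_right _
    rw [h1, card_univ]
    exact hτ'
  obtain ⟨P, hP, hmax⟩ := exists_max_image _ (fun P : Finset E => P.card) hne
  rw [mem_filter, mem_powerset] at hP
  refine ⟨P, hP.1, hP.2, ?_⟩
  have hneq : P ≠ P0 := by
    rintro rfl
    have h1 : (univ.filter (fun u => Disjoint (Y u) P)) = ∅ := by
      apply filter_false_of_mem
      intro u _
      exact h0 u
    have h2 := hP.2
    rw [h1, card_empty, Nat.cast_zero] at h2
    linarith
  obtain ⟨a, haP0, haP⟩ := exists_of_ssubset (hP.1.ssubset_of_ne hneq)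
  have hlt : ((univ.filter (fun u => Disjoint (Y u) (insert a P))).card : ℝ) < τ := by
    by_contra hcon
    have h1 : insert a P ∈ P0.powerset.filter (fun P =>
        τ ≤ ((univ.filter (fun u => Disjoint (Y u) P)).card : ℝ)) := by
      rw [mem_filter, mem_powerset]
      exact ⟨insert_subset haP0 hP.1, not_lt.1 hcon⟩
    have h2 := hmax _ h1
    rw [card_insert_of_notMem haP] at h2
    omega
  have hsub : (univ.filter (fun u => Disjoint (Y u) P)) ⊆
      (univ.filter (fun u => Disjoint (Y u) (insert a P))) ∪ (univ.filter (fun u => a ∈ Y u)) := by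
    intro u hu
    rw [mem_union, mem_filter, mem_filter]
    rw [mem_filter] at hu
    by_cases hau : a ∈ Y u
    · exact Or.inr ⟨mem_univ _, hau⟩
    · refine Or.inl ⟨mem_univ _, ?_⟩
      rw [disjoint_insert_right]
      exact ⟨hau, hu.2⟩
  have hcard : ((univ.filter (fun u => Disjoint (Y u) P)).card : ℝ) ≤
      ((univ.filter (fun u => Disjoint (Y u) (insert a P))).card : ℝ) +
        ((univ.filter (fun u => a ∈ Y u)).card : ℝ) := by
    exact_mod_cast (card_le_card hsub).trans (card_union_le _ _)
  have := hq a haP0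
  linarith

end Pool.Agent.UN
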