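import Pool.Agent.Work.MP_71c844_lc.UN.Stmts

/-!
# Block UN, item Ze: adding a planted set nearly always increases `Zn` by one
-/

namespace Pool.Agent.UN

open Finset
open Pool.Agent.NegLim (T Tn wt dens Dich)
open Pool.Agent.LayCirc (inp)

theorem Ze_mono {E : Type} [Fintype E] [DecidableEq E] {φ ψ : Finset E → ℝ}
    (h : ∀ x, φ x ≤ ψ x) : Eu φ ≤ Eu ψ := by
  unfold Eu
  exact div_le_div_of_nonneg_right (Finset.sum_le_sum fun x _ => h x) (by positivity)

theorem Ze_sum {E ι : Type} [Fintype E] [DecidableEq E] (s : Finset ι) (f : ι → Finset E → ℝ) :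
    Eu (fun x => ∑ i ∈ s, f i x) = ∑ i ∈ s, Eu (f i) := by
  unfold Eu
  rw [Finset.sum_comm, Finset.sum_div]

theorem Ze_add {E : Type} [Fintype E] [DecidableEq E] (φ ψ : Finset E → ℝ) :
    Eu (fun x => φ x + ψ x) = Eu φ + Eu ψ := by
  unfold Eu
  rw [Finset.sum_add_distrib, add_div]

theorem Ze_div {E : Type} [Fintype E] [DecidableEq E] (φ : Finset E → ℝ) (c : ℝ) :
    Eu (fun x => φ x / c) = Eu φ / c := by
  unfold Eu
  rw [← Finset.sum_div, div_right_comm]

theorem Ze_one {E : Type} [Fintype E] [DecidableEq E] : Eu (fun _ : Finset E => (1 : ℝ)) = 1 := by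
  unfold Eu
  rw [Finset.sum_const, Finset.card_univ, Fintype.card_finset, nsmul_eq_mul, mul_one]
  push_cast
  exact div_self (by positivity)

open Classical in
theorem Ze_ind (hPl : StPl) {E : Type} [Fintype E] [DecidableEq E] (D : Finset E) :
    Eu (fun x => if D ⊆ x then (1 : ℝ) else 0) = (1 / 2) ^ D.card := by
  have h := hPl E D (fun _ => 1)
  rw [Ze_one, mul_one] at h
  exact h

open Classical in
theorem Ze_pt {E U : Type} [Fintype E] [DecidableEq E] [Fintype U] (B : ℕ) (Y : U → Finset E)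
    (hB : ∀ u u', u ≠ u' → (Y u ∩ Y u').card ≤ B) (u : U) (x : Finset E) :
    (if Zn Y (x ∪ Y u) ≠ Zn Y x + 1 then (1 : ℝ) else 0) ≤
      (if Y u ⊆ x then (1 : ℝ) else 0) +
        ∑ A ∈ (Y u).powerset.filter (fun A => 1 ≤ A.card ∧ A.card ≤ B),
          ∑ u' ∈ univ.filter (fun u' => A ⊆ Y u'), (if Y u' \ A ⊆ x then (1 : ℝ) else 0) := by
  have hnn : 0 ≤ ∑ A ∈ (Y u).powerset.filter (fun A => 1 ≤ A.card ∧ A.card ≤ B),
      ∑ u' ∈ univ.filter (fun u' => A ⊆ Y u'), (if Y u' \ A ⊆ x then (1 : ℝ) else 0) := by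
    refine Finset.sum_nonneg fun A _ => Finset.sum_nonneg fun u' _ => ?_
    split_ifs <;> norm_num
  have hnn1 : (0 : ℝ) ≤ (if Y u ⊆ x then (1 : ℝ) else 0) := by split_ifs <;> norm_num
  by_cases hne : Zn Y (x ∪ Y u) ≠ Zn Y x + 1
  swap
  · rw [if_neg hne]; linarith
  rw [if_pos hne]
  by_cases hux : Y u ⊆ x
  · rw [if_pos hux]; linarith
  rw [if_neg hux, zero_add]
  have hex : ∃ u', u' ≠ u ∧ Y u' ⊆ x ∪ Y u ∧ ¬ Y u' ⊆ x := by
    by_contra hcon
    apply hne
    unfold Zn
    have hset : univ.filter (fun u' => Y u' ⊆ x ∪ Y u) =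
        insert u (univ.filter (fun u' => Y u' ⊆ x)) := by
      ext v
      rw [Finset.mem_insert, Finset.mem_filter, Finset.mem_filter]
      constructor
      · rintro ⟨-, hv⟩
        by_cases hvu : v = u
        · exact Or.inl hvu
        · right
          refine ⟨Finset.mem_univ _, ?_⟩
          by_contra hvx
          exact hcon ⟨v, hvu, hv, hvx⟩
      · rintro (rfl | ⟨-, hv⟩)
        · exact ⟨Finset.mem_univ _, Finset.subset_union_right⟩
        · exact ⟨Finset.mem_univ _, hv.trans Finset.subset_union_left⟩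
    rw [hset, Finset.card_insert_of_notMem]
    rw [Finset.mem_filter]
    exact fun h => hux h.2
  obtain ⟨u', hu', h1, h2⟩ := hex
  have hA : Y u ∩ Y u' ∈ (Y u).powerset.filter (fun A => 1 ≤ A.card ∧ A.card ≤ B) := by
    rw [Finset.mem_filter, Finset.mem_powerset]
    refine ⟨Finset.inter_subset_left, ?_, hB u u' (Ne.symm hu')⟩
    rw [Nat.one_le_iff_ne_zero, Finset.card_ne_zero]
    obtain ⟨e, he, hex⟩ := Finset.not_subset.1 h2
    have := h1 he
    rw [Finset.mem_union] at this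
    exact ⟨e, Finset.mem_inter.2 ⟨this.resolve_left hex, he⟩⟩
  have hu'A : u' ∈ univ.filter (fun v => Y u ∩ Y u' ⊆ Y v) :=
    Finset.mem_filter.2 ⟨Finset.mem_univ _, Finset.inter_subset_right⟩
  have hsub : Y u' \ (Y u ∩ Y u') ⊆ x := by
    intro e he
    rw [Finset.mem_sdiff, Finset.mem_inter] at he
    have := h1 he.1
    rw [Finset.mem_union] at this
    rcases this with h | h
    · exact h
    · exact absurd ⟨h, he.1⟩ he.2
  calc (1 : ℝ) = (if Y u' \ (Y u ∩ Y u') ⊆ x then (1 : ℝ) else 0) := (if_pos hsub).symm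
    _ ≤ ∑ v ∈ univ.filter (fun v => Y u ∩ Y u' ⊆ Y v),
        (if Y v \ (Y u ∩ Y u') ⊆ x then (1 : ℝ) else 0) :=
      Finset.single_le_sum (f := fun v => if Y v \ (Y u ∩ Y u') ⊆ x then (1 : ℝ) else 0)
        (fun v _ => by split_ifs <;> norm_num) hu'A
    _ ≤ _ := Finset.single_le_sum (f := fun A =>
        ∑ v ∈ univ.filter (fun v => A ⊆ Y v), (if Y v \ A ⊆ x then (1 : ℝ) else 0))
        (fun A _ => Finset.sum_nonneg fun v _ => by split_ifs <;> norm_num) hA

open Classical in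
theorem Ze_one_u (hPl : StPl) (hBe : StBe) {E U : Type} [Fintype E] [DecidableEq E] [Fintype U]
    (N B : ℕ) (Y : U → Finset E) (lam q : ℝ)
    (hN : ∀ u, (Y u).card = N) (hlam : lam = Fintype.card U / 2 ^ N) (hq : 0 < q)
    (h4 : 4 * N ≤ q) (hB : ∀ u u', u ≠ u' → (Y u ∩ Y u').card ≤ B)
    (hA : ∀ A : Finset E, A.card ≤ B →
      ((univ.filter (fun u => A ⊆ Y u)).card : ℝ) ≤ Fintype.card U * (1 / q) ^ A.card) (u : U) :
    Eu (fun x => if Zn Y (x ∪ Y u) ≠ Zn Y x + 1 then (1 : ℝ) else 0) ≤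
      (1 / 2) ^ N + lam * (4 * N / q) := by
  have hlam0 : 0 ≤ lam := by rw [hlam]; positivity
  refine (Ze_mono (Ze_pt B Y hB u)).trans ?_
  rw [Ze_add, Ze_ind hPl, hN u, Ze_sum]
  refine add_le_add le_rfl ?_
  have hterm : ∀ A ∈ (Y u).powerset.filter (fun A => 1 ≤ A.card ∧ A.card ≤ B),
      Eu (fun x => ∑ u' ∈ univ.filter (fun u' => A ⊆ Y u'),
        (if Y u' \ A ⊆ x then (1 : ℝ) else 0)) ≤ lam * (2 / q) ^ A.card := by
    intro A hAm
    rw [Finset.mem_filter, Finset.mem_powerset] at hAm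
    obtain ⟨hAu, -, hAB⟩ := hAm
    have hAN : A.card ≤ N := by rw [← hN u]; exact Finset.card_le_card hAu
    rw [Ze_sum]
    have h1 : ∀ u' ∈ univ.filter (fun u' => A ⊆ Y u'),
        Eu (fun x => if Y u' \ A ⊆ x then (1 : ℝ) else 0) = 2 ^ A.card / 2 ^ N := by
      intro u' hu'
      have hsub := (Finset.mem_filter.1 hu').2
      rw [Ze_ind hPl, Finset.card_sdiff_of_subset hsub, hN u', one_div, inv_pow,
        eq_div_iff (by positivity), inv_mul_eq_div, div_eq_iff (by positivity), ← pow_add,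
        Nat.add_sub_cancel' hAN]
    rw [Finset.sum_congr rfl h1, Finset.sum_const, nsmul_eq_mul]
    have h2 := hA A hAB
    calc ((univ.filter (fun u => A ⊆ Y u)).card : ℝ) * (2 ^ A.card / 2 ^ N)
        ≤ (Fintype.card U * (1 / q) ^ A.card) * (2 ^ A.card / 2 ^ N) :=
          mul_le_mul_of_nonneg_right h2 (by positivity)
      _ = lam * (2 / q) ^ A.card := by
          rw [hlam, div_pow, div_pow, one_pow]; ring
  refine (Finset.sum_le_sum hterm).trans ?_
  rw [← Finset.mul_sum]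
  refine mul_le_mul_of_nonneg_left ?_ hlam0
  have hall : ∑ A ∈ (Y u).powerset, (2 / q) ^ A.card = (2 / q + 1) ^ N := by
    have h := Finset.sum_pow_mul_eq_add_pow (2 / q) (1 : ℝ) (Y u)
    simp only [one_pow, mul_one] at h
    rw [h, hN u]
  have hsplit : ∑ A ∈ (Y u).powerset.filter (fun A => 1 ≤ A.card ∧ A.card ≤ B), (2 / q) ^ A.card +
      1 ≤ ∑ A ∈ (Y u).powerset, (2 / q) ^ A.card := by
    have hins : insert ∅ ((Y u).powerset.filter (fun A => 1 ≤ A.card ∧ A.card ≤ B)) ⊆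
        (Y u).powerset := by
      intro A hA'
      rw [Finset.mem_insert] at hA'
      rcases hA' with rfl | h
      · exact Finset.empty_mem_powerset _
      · exact (Finset.mem_filter.1 h).1
    have hnot : (∅ : Finset E) ∉ (Y u).powerset.filter (fun A => 1 ≤ A.card ∧ A.card ≤ B) := by
      rw [Finset.mem_filter]
      rintro ⟨-, h, -⟩
      simp at h
    have h3 := Finset.sum_le_sum_of_subset_of_nonneg hins
      (f := fun A : Finset E => (2 / q) ^ A.card) (fun A _ _ => by positivity)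
    rw [Finset.sum_insert hnot, Finset.card_empty, pow_zero] at h3
    linarith
  have hb := hBe (2 / q) N (by positivity) (by
    rw [← mul_div_assoc, div_le_iff₀ hq]; linarith)
  rw [add_comm 1 (2 / q)] at hb
  have h5 : 2 * (N : ℝ) * (2 / q) = 4 * N / q := by ring
  linarith

theorem pr_Ze : StZe := by
  classical
  intro hPl hBe E U _ _ _ _ N B Y lam q hN hlam hq h4 hB hA
  have hu := Ze_one_u hPl hBe N B Y lam q hN hlam hq h4 hB hA
  have hU : (0 : ℝ) < Fintype.card U := by exact_mod_cast Fintype.card_pos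
  have hz : zet Y = (∑ u : U, Eu (fun x => if Zn Y (x ∪ Y u) ≠ Zn Y x + 1 then (1 : ℝ) else 0)) /
      Fintype.card U := by
    rw [← Ze_sum, ← Ze_div]
    unfold zet
    congr 1
    funext x
    rw [Finset.sum_boole]
  rw [hz, div_le_iff₀ hU]
  refine (Finset.sum_le_sum fun u _ => hu u).trans ?_
  rw [Finset.sum_const, Finset.card_univ, nsmul_eq_mul, mul_comm]

end Pool.Agent.UN
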