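import Pool.Agent.Work.MP_71c844_lc.UN.Main
import Pool.Agent.Work.MP_71c844_lc.UN.I_Be
import Pool.Agent.Work.MP_71c844_lc.UN.I_Cs
import Pool.Agent.Work.MP_71c844_lc.UN.I_Hh
import Pool.Agent.Work.MP_71c844_lc.UN.I_Lx
import Pool.Agent.Work.MP_71c844_lc.UN.I_Mp
import Pool.Agent.Work.MP_71c844_lc.UN.I_Mu
import Pool.Agent.Work.MP_71c844_lc.UN.I_Pl
import Pool.Agent.Work.MP_71c844_lc.UN.I_Ps
import Pool.Agent.Work.MP_71c844_lc.UN.I_Rh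
import Pool.Agent.Work.MP_71c844_lc.UN.I_Rn
import Pool.Agent.Work.MP_71c844_lc.UN.I_Rs
import Pool.Agent.Work.MP_71c844_lc.UN.I_Sb
import Pool.Agent.Work.MP_71c844_lc.UN.I_Sl
import Pool.Agent.Work.MP_71c844_lc.UN.I_St
import Pool.Agent.Work.MP_71c844_lc.UN.I_Tu
import Pool.Agent.Work.MP_71c844_lc.UN.I_Ze

/-!
# Block UN: all items
-/

namespace Pool.Agent.UN

theorem items : ItemsB where
  A := {
    Rh := pr_Rh
    Rn := pr_Rn
    Rs := pr_Rs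
    Be := pr_Be
    Cs := pr_Cs
    Mu := pr_Mu
    Pl := pr_Pl
    Hh := pr_Hh
    St := pr_St
    Sl := pr_Sl
    Ze := pr_Ze
    Tu := pr_Tu
    Sb := pr_Sb }
  Mp := pr_Mp
  Ps := pr_Ps
  Lx := pr_Lx

end Pool.Agent.UN
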