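import Pool.Agent.Work.MP_71c844_lc.UN.Stmts
import Pool.Agent.Work.MP_71c844_lc.RecDich
import Pool.Agent.Work.MP_71c844_lc.FormCore

/-!
# Block UN: circuits, families of monotone functions, and the covariance
-/

namespace Pool.Agent.UN

open Finset
open Pool.Agent.NegLim (T Tn wt dens Dich gval numNot lowSets mapVar)
open Pool.Agent.LayCirc

set_option linter.unusedSectionVars false

/-- The statements of the items, in the form in which they are used. -/
structure Items : Prop where
  Rh : StRh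
  Rn : StRn
  Rs : StRs
  Be : StBe
  Cs : StCs
  Mu : StMu
  Pl : StPl
  Hh : StHh
  St : StSt
  Sl : StSl
  Ze : StZe
  Tu : StTu
  Sb : StSb

lemma Items.cs (I : Items) : CsC := I.Cs I.Rh I.Rn I.Rs I.Be

section eu

variable {E : Type} [Fintype E] [DecidableEq E]

lemma Eu_mono {φ ψ : Finset E → ℝ} (h : ∀ x, φ x ≤ ψ x) : Eu φ ≤ Eu ψ := by
  unfold Eu
  exact div_le_div_of_nonneg_right (Finset.sum_le_sum fun x _ => h x) (by positivity)

lemma Eu_add (φ ψ : Finset E → ℝ) : Eu (fun x => φ x + ψ x) = Eu φ + Eu ψ := by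
  unfold Eu
  rw [Finset.sum_add_distrib, add_div]

lemma Eu_sub (φ ψ : Finset E → ℝ) : Eu (fun x => φ x - ψ x) = Eu φ - Eu ψ := by
  unfold Eu
  rw [Finset.sum_sub_distrib, sub_div]

lemma Eu_smul (c : ℝ) (φ : Finset E → ℝ) : Eu (fun x => c * φ x) = c * Eu φ := by
  unfold Eu
  rw [← Finset.mul_sum, mul_div_assoc]

lemma Eu_sum {ι : Type*} (s : Finset ι) (φ : ι → Finset E → ℝ) :
    Eu (fun x => ∑ i ∈ s, φ i x) = ∑ i ∈ s, Eu (φ i) := by
  unfold Eu
  rw [Finset.sum_comm, Finset.sum_div]

lemma Eu_const (c : ℝ) : Eu (fun _ : Finset E => c) = c := by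
  unfold Eu
  rw [Finset.sum_const, Finset.card_univ, Fintype.card_finset, nsmul_eq_mul]
  push_cast
  field_simp

lemma Eu_nonneg {φ : Finset E → ℝ} (h : ∀ x, 0 ≤ φ x) : 0 ≤ Eu φ := by
  have := Eu_mono h
  rwa [Eu_const] at this

end eu

section fam

variable {E U : Type} [Fintype E] [DecidableEq E] [Fintype U] [Nonempty U]

lemma Gam_nonneg (Y : U → Finset E) (C : Finset E → Bool) : 0 ≤ Gam Y C := by
  unfold Gam
  refine Eu_nonneg fun x => mul_nonneg ?_ (by positivity)
  split_ifs <;> norm_num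

lemma zet_nonneg (Y : U → Finset E) : 0 ≤ zet Y := by
  unfold zet
  exact Eu_nonneg fun x => by positivity

open Classical in
/-- functions covered by few monotone functions -/
lemma Gam_le_sum {J : Type} [Fintype J] (Y : U → Finset E) (C : Finset E → Bool)
    (G : J → Finset E → Bool)
    (hcov : ∀ x u, C x = false → C (x ∪ Y u) = true →
      ∃ j, G j x = false ∧ G j (x ∪ Y u) = true) :
    Gam Y C ≤ ∑ j, Gam Y (G j) := by
  have hUpos : (0 : ℝ) < Fintype.card U := by exact_mod_cast Fintype.card_pos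
  unfold Gam
  rw [← Eu_sum]
  refine Eu_mono fun x => ?_
  have hnn : ∀ j, (0 : ℝ) ≤ (if G j x = true then (0 : ℝ) else 1) *
      (((univ.filter (fun u => G j (x ∪ Y u) = true)).card : ℝ) / Fintype.card U) := by
    intro j
    apply mul_nonneg
    · split_ifs <;> norm_num
    · positivity
  rcases hC : C x with _ | _
  · simp only [Bool.false_eq_true, if_false, one_mul]
    have hsub : (univ.filter (fun u => C (x ∪ Y u) = true)) ⊆
        univ.biUnion (fun j => (univ.filter (fun u => G j x = false ∧ G j (x ∪ Y u) = true))) := by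
      intro u hu
      rw [mem_filter] at hu
      obtain ⟨j, h1, h2⟩ := hcov x u hC hu.2
      rw [mem_biUnion]
      exact ⟨j, mem_univ _, by rw [mem_filter]; exact ⟨mem_univ _, h1, h2⟩⟩
    have h1 : ((univ.filter (fun u => C (x ∪ Y u) = true)).card : ℝ) ≤
        ∑ j, ((univ.filter (fun u => G j x = false ∧ G j (x ∪ Y u) = true)).card : ℝ) := by
      exact_mod_cast (Finset.card_le_card hsub).trans Finset.card_biUnion_le
    have h2 : ∀ j, ((univ.filter (fun u => G j x = false ∧ G j (x ∪ Y u) = true)).card : ℝ) /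
        Fintype.card U = (if G j x = true then (0 : ℝ) else 1) *
      (((univ.filter (fun u => G j (x ∪ Y u) = true)).card : ℝ) / Fintype.card U) := by
      intro j
      rcases hg : G j x with _ | _
      · simp
      · simp
    rw [div_le_iff₀ hUpos]
    refine h1.trans (le_of_eq ?_)
    rw [Finset.sum_mul]
    refine Finset.sum_congr rfl fun j _ => ?_
    rw [← h2 j]
    field_simp
  · simp only [if_true, zero_mul]
    exact Finset.sum_nonneg fun j _ => hnn j

end fam

section circ

variable {ι : Type} {s : ℕ} {E U : Type} [Fintype E] [DecidableEq E] [Fintype U] [Nonempty U]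

open Classical in
/-- the family of monotone circuits of a circuit -/
lemma family (π : ι → Bool ⊕ E) (c : Circuit ι s) (o : Fin s) (M : ℕ)
    (hM : (Set.range (fun x => pattern c x)).ncard ≤ M ∨ wires c + numMixing c + 1 ≤ M ∨
      (FormulaLike c ∧ wires c + numArb c + 1 ≤ M)) (Y : U → Finset E) :
    ∃ (J : Type) (_ : Fintype J) (g : J → List (NegLim.Gate E)), Fintype.card J ≤ 4 * M ∧
      (∀ j, numNot (g j) = 0) ∧ (∀ j, NegLim.size (g j) ≤ 2 * s) ∧
      ∀ x u, val c (inp π x) o = false → val c (inp π (x ∪ Y u)) o = true →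
        ∃ j, gval (g j) 0 x = false ∧ gval (g j) 0 (x ∪ Y u) = true := by
  rcases hM with h | h
  · -- patterns
    let S : Finset (Fin s → Bool) := univ.image (fun X : Finset E => pat π c X)
    have hS : S.card ≤ M := by
      refine le_trans ?_ h
      rw [← Set.ncard_coe_finset]
      let ext : ({j : Fin s // Fed c j} → Bool) → (Fin s → Bool) :=
        fun f j => if h : Fed c j then f ⟨j, h⟩ else false
      refine le_trans (Set.ncard_le_ncard
        (t := ext '' (Set.range (fun x => pattern c x)))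
        ?_ (Set.toFinite _)) (Set.ncard_image_le (Set.toFinite _))
      intro f hf
      obtain ⟨X, _, rfl⟩ := Finset.mem_image.mp (Finset.mem_coe.mp hf)
      refine ⟨pattern c (inp π X), ⟨inp π X, rfl⟩, ?_⟩
      funext j
      simp only [ext, pattern, pat]
      by_cases h : Fed c j
      · rw [dif_pos h, if_pos h]
      · rw [dif_neg h, if_neg h]
    refine ⟨{h // h ∈ S}, inferInstance, fun h => qry π c o h.1, ?_, fun h => numNot_qry π c o h.1,
      fun h => size_qry π c o h.1, ?_⟩
    · rw [Fintype.card_coe]; omega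
    · intro x u hx hxu
      refine ⟨⟨pat π c x, Finset.mem_image_of_mem _ (mem_univ x)⟩, ?_, ?_⟩
      · exact (pat_cover π c o x x (Finset.Subset.refl _) hx).1
      · exact (pat_cover π c o x (x ∪ Y u) Finset.subset_union_left hx).2 hxu
  · have hW : wires c + numMixing c + 1 ≤ M := by
      rcases h with h | h
      · exact h
      · have := numMixing_le c h.1
        omega
    let J : Type := {i : Fin s // i ∈ tgt c o} × Bool
    have hJ : Fintype.card J ≤ 4 * M := by
      have h1 := card_tgt c o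
      have h2 : Fintype.card J = (tgt c o).card * 2 := by
        rw [Fintype.card_prod, Fintype.card_coe, Fintype.card_bool]
      rw [h2]
      omega
    have hsz : LayCirc.size c ≤ 2 * s := by
      have h1 : LayCirc.size c ≤ s := by
        unfold LayCirc.size
        refine (Finite.card_subtype_le _).trans ?_
        rw [Nat.card_eq_fintype_card, Fintype.card_fin]
      omega
    refine ⟨J, inferInstance, fun t => mapVar π (mono c t.1.1 t.2), hJ,
      fun t => by rw [NegLim.numNot_mapVar]; exact numNot_mono _ _ _,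
      fun t => by rw [NegLim.size_mapVar]; exact (size_mono c t.1.1 t.2).trans hsz, ?_⟩
    intro x u hx hxu
    by_contra hcon
    push Not at hcon
    have hdet := det c o (inp π x) (inp π (x ∪ Y u)) (by
      intro i hi b'
      have e : ∀ z : Finset E, gval (mapVar π (mono c i b')) 0 z =
          val (fz c b') (inp π z) i := fun z => by
        rw [← output_mono]
        exact NegLim.output_mapVar π (fun e => decide (e ∈ z)) (mono c i b')
      rw [← e, ← e]
      have h1 := hcon (⟨i, hi⟩, b')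
      rcases hgx : gval (mapVar π (mono c i b')) 0 x with _ | _
      · have h4 := h1 hgx
        simp only [ne_eq, Bool.not_eq_true] at h4
        rw [h4]
      · refine (NegLim.gval_mono _ ?_ 0 Finset.subset_union_left hgx).symm
        rw [NegLim.numNot_mapVar]
        exact numNot_mono _ _ _)
    rw [hx, hxu] at hdet
    cases hdet

open Classical in
/-- The bound for `Gam` of a circuit. -/
lemma gam_circ (I : Items) {b ℓ K R M : ℕ} {q : ℝ} {Y : U → Finset E} (hb : 1 ≤ b)
    (hℓ : 2 * b < 2 ^ ℓ) (hq : 64 * 2 ^ K ≤ q) (hq2 : q ≤ 128 * 2 ^ K)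
    (hY : ∀ A : Finset E, A.card ≤ 2 * b →
      ((univ.filter (fun u => A ⊆ Y u)).card : ℝ) ≤ Fintype.card U * (1 / q) ^ A.card)
    (π : ι → Bool ⊕ E) (c : Circuit ι s) (o : Fin s)
    (hM : (Set.range (fun x => pattern c x)).ncard ≤ M ∨ wires c + numMixing c + 1 ≤ M ∨
      (FormulaLike c ∧ wires c + numArb c + 1 ≤ M))
    (hS : 2 * s ≤ 2 ^ b) (hR : 1 ≤ R) (hℓ1 : 1 ≤ ℓ) :
    Gam Y (fun X => val c (inp π X) o) ≤
      4 * M * (5 * ((((2 * s : ℕ) : ℝ) + 1) * ((lowSets E b).card * (1 / 2) ^ R)) + 128 / q +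
        (512 * K + 256) * (ℓ * R) * √(Fintype.card E) / q) := by
  set ε : ℝ := (((2 * s : ℕ) : ℝ) + 1) * ((lowSets E b).card * (1 / 2) ^ R) with hε
  have hε0 : 0 ≤ ε := by positivity
  have hqpos : 0 < q := lt_of_lt_of_le (by positivity) hq
  obtain ⟨J, _, g, hJ, hg, hgS, hcov⟩ := family π c o M hM Y
  have h1 := Gam_le_sum (J := J) Y (fun X => val c (inp π X) o) (fun j => gval (g j) 0) hcov
  have h2 : ∀ j, Gam Y (gval (g j) 0) ≤ 5 * ε + 128 / q +
      (512 * K + 256) * ((ℓ * R : ℕ) : ℝ) * √(Fintype.card E) / q := by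
    intro j
    refine I.Mu I.cs E U K (ℓ * R) q ε Y (gval (g j) 0) hq hq2 hε0
      (Nat.one_le_iff_ne_zero.mpr (by positivity)) ?_
    exact Rec82.dich_circuit (E := E) (U := U) (b := b) (ℓ := ℓ) (K := K) (R := R) (q := q)
      (Y := Y) hb hℓ hq hY (g j) (hg j) 0 (2 * s) (hgS j) hS
  refine h1.trans ((Finset.sum_le_sum fun j _ => h2 j).trans ?_)
  rw [Finset.sum_const, Finset.card_univ, nsmul_eq_mul]
  have h3 : (Fintype.card J : ℝ) ≤ 4 * M := by exact_mod_cast hJ
  push_cast
  exact mul_le_mul_of_nonneg_right h3 (by positivity)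

end circ

section adv

variable {E U : Type} [Fintype E] [DecidableEq E] [Fintype U] [Nonempty U]

open Classical in
/-- `Pr[right] - Pr[wrong]` in terms of `Gam` and `zet` -/
lemma adv_le (I : Items) {N : ℕ} {Y : U → Finset E} {lam : ℝ} (C : Finset E → Bool)
    (hN : ∀ u, (Y u).card = N) (hlam : lam = Fintype.card U / 2 ^ N) (hlam1 : lam ≤ 1) :
    Eu (fun x => if (C x = true ↔ ∃ u, Y u ⊆ x) then (1 : ℝ) else -1) ≤
      |2 * Real.exp (-lam) - 1| + 4 * Gam Y C + 6 * zet Y := by
  have hlam0 : 0 ≤ lam := by rw [hlam]; positivity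
  have h1 := I.St I.Pl I.Hh E U N Y lam C hN hlam
  have h2 := I.Sl I.Pl I.Hh E U N Y lam hN hlam
  set cf := Eu (fun x => if C x = true ∧ ∃ u, Y u ⊆ x then (1 : ℝ) else 0) with hcf
  set cC := Eu (fun x => if C x = true then (1 : ℝ) else 0) with hcC
  set a := Eu (fun x => if ∃ u, Y u ⊆ x then (1 : ℝ) else 0) with ha
  have h3 : Eu (fun x => if (C x = true ↔ ∃ u, Y u ⊆ x) then (1 : ℝ) else -1) =
      1 - 2 * cC - 2 * a + 4 * cf := by
    have e1 : (fun x => if (C x = true ↔ ∃ u, Y u ⊆ x) then (1 : ℝ) else -1) =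
        fun x => (1 - 2 * (if C x = true then (1 : ℝ) else 0) -
          2 * (if ∃ u, Y u ⊆ x then (1 : ℝ) else 0)) +
          4 * (if C x = true ∧ ∃ u, Y u ⊆ x then (1 : ℝ) else 0) := by
      funext x
      by_cases h4 : C x = true
      · by_cases h5 : ∃ u, Y u ⊆ x
        · rw [if_pos (iff_of_true h4 h5), if_pos h4, if_pos h5, if_pos ⟨h4, h5⟩]; norm_num
        · rw [if_neg (fun h => h5 (h.mp h4)), if_pos h4, if_neg h5, if_neg (fun h => h5 h.2)]
          norm_num
      · by_cases h5 : ∃ u, Y u ⊆ x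
        · rw [if_neg (fun h => h4 (h.mpr h5)), if_neg h4, if_pos h5, if_neg (fun h => h4 h.1)]
          norm_num
        · rw [if_pos (iff_of_false h4 h5), if_neg h4, if_neg h5, if_neg (fun h => h5 h.2)]
          norm_num
    rw [e1, Eu_add, Eu_sub, Eu_sub, Eu_const, Eu_smul, Eu_smul, Eu_smul]
  rw [h3]
  have hc0 : 0 ≤ cC := Eu_nonneg fun x => by split_ifs <;> norm_num
  have hc1 : cC ≤ 1 := by
    have : cC ≤ Eu (fun _ : Finset E => (1 : ℝ)) := Eu_mono fun x => by split_ifs <;> norm_num
    rwa [Eu_const] at this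
  have hG := Gam_nonneg Y C
  have hz := zet_nonneg Y
  set e := Real.exp (-lam) with he
  have h4 : lam * (Gam Y C + zet Y) ≤ Gam Y C + zet Y := by
    have : 0 ≤ Gam Y C + zet Y := by linarith
    nlinarith
  have h5 : lam * zet Y ≤ zet Y := by nlinarith
  have h6 : (2 * e - 1) * (1 - 2 * cC) ≤ |2 * e - 1| := by
    refine (le_abs_self _).trans ?_
    rw [abs_mul]
    have : |1 - 2 * cC| ≤ 1 := by rw [abs_le]; constructor <;> linarith
    calc |2 * e - 1| * |1 - 2 * cC| ≤ |2 * e - 1| * 1 :=
          mul_le_mul_of_nonneg_left this (abs_nonneg _)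
      _ = |2 * e - 1| := mul_one _
  nlinarith

end adv

end Pool.Agent.UN
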