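import Pool.Agent.Work.MP_71c844_lc.UN.Stmts

/-!
# MP_71c844_lc, block UN, item Rh: one noise step
-/

namespace Pool.Agent.UN

open Finset
open Pool.Agent.NegLim (T Tn wt dens Dich)
open Pool.Agent.LayCirc (inp)

/-- the weights of the sets with a given union with `x` -/
private lemma Rh_fiber {E : Type} [Fintype E] [DecidableEq E] (δ : ℝ) (x w : Finset E)
    (hxw : x ⊆ w) : ∑ z ∈ univ.filter (fun z : Finset E => x ∪ z = w), wt δ z =
      δ ^ (w \ x).card * (1 - δ) ^ (univ \ w).card := by
  have h1 : ∑ z ∈ univ.filter (fun z : Finset E => x ∪ z = w), wt δ z =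
      ∑ a ∈ x.powerset, (δ ^ (w \ x).card * (1 - δ) ^ (univ \ w).card) *
        (δ ^ a.card * (1 - δ) ^ (x.card - a.card)) := by
    symm
    refine Finset.sum_nbij' (fun a => (w \ x) ∪ a) (fun z => z ∩ x) ?_ ?_ ?_ ?_ ?_
    · intro a ha
      have ha' : a ⊆ x := Finset.mem_powerset.mp ha
      simp only [Finset.mem_filter, Finset.mem_univ, true_and]
      ext e
      simp only [Finset.mem_union, Finset.mem_sdiff]
      constructor
      · rintro (h | ⟨h, _⟩ | h)
        · exact hxw h
        · exact h
        · exact hxw (ha' h)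
      · intro h
        by_cases hx : e ∈ x
        · exact Or.inl hx
        · exact Or.inr (Or.inl ⟨h, hx⟩)
    · intro z _
      exact Finset.mem_powerset.mpr Finset.inter_subset_right
    · intro a ha
      have ha' : a ⊆ x := Finset.mem_powerset.mp ha
      ext e
      simp only [Finset.mem_inter, Finset.mem_union, Finset.mem_sdiff]
      constructor
      · rintro ⟨⟨_, h2⟩ | h, h3⟩
        · exact absurd h3 h2
        · exact h
      · intro h
        exact ⟨Or.inr h, ha' h⟩
    · intro z hz
      have hz' : x ∪ z = w := (Finset.mem_filter.mp hz).2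
      ext e
      simp only [Finset.mem_inter, Finset.mem_union, Finset.mem_sdiff]
      constructor
      · rintro (⟨h1, h2⟩ | ⟨h, _⟩)
        · rw [← hz', Finset.mem_union] at h1
          exact h1.resolve_left h2
        · exact h
      · intro h
        by_cases hx : e ∈ x
        · exact Or.inr ⟨h, hx⟩
        · refine Or.inl ⟨?_, hx⟩
          rw [← hz']
          exact Finset.mem_union_right _ h
    · intro a ha
      have ha' : a ⊆ x := Finset.mem_powerset.mp ha
      have hd : Disjoint (w \ x) a := by
        rw [Finset.disjoint_left]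
        intro e he hea
        exact (Finset.mem_sdiff.mp he).2 (ha' hea)
      have hc : ((w \ x) ∪ a).card = (w \ x).card + a.card := Finset.card_union_of_disjoint hd
      have hu : univ \ ((w \ x) ∪ a) = (univ \ w) ∪ (x \ a) := by
        ext e
        simp only [Finset.mem_sdiff, Finset.mem_univ, true_and, Finset.mem_union, not_or, not_and,
          not_not]
        constructor
        · rintro ⟨h1, h2⟩
          by_cases hw : e ∈ w
          · exact Or.inr ⟨h1 hw, h2⟩
          · exact Or.inl hw
        · rintro (h | ⟨h1, h2⟩)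
          · exact ⟨fun h' => absurd h' h, fun h' => h (hxw (ha' h'))⟩
          · exact ⟨fun _ => h1, h2⟩
      have hd2 : Disjoint (univ \ w) (x \ a) := by
        rw [Finset.disjoint_left]
        intro e he hea
        exact (Finset.mem_sdiff.mp he).2 (hxw (Finset.mem_sdiff.mp hea).1)
      have hc2 : (univ \ ((w \ x) ∪ a)).card = (univ \ w).card + (x.card - a.card) := by
        rw [hu, Finset.card_union_of_disjoint hd2, Finset.card_sdiff_of_subset ha']
      simp only [wt]
      rw [hc, hc2, pow_add, pow_add]
      ring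
  rw [h1, ← Finset.mul_sum, Finset.sum_pow_mul_eq_add_pow]
  simp

/-- the noise step, sorted by the union -/
private lemma Rh_T {E : Type} [Fintype E] [DecidableEq E] (δ : ℝ) (φ : Finset E → ℝ)
    (x : Finset E) : T δ φ x = ∑ w : Finset E,
      if x ⊆ w then δ ^ (w \ x).card * (1 - δ) ^ (univ \ w).card * φ w else 0 := by
  have h1 : T δ φ x = ∑ z : Finset E, wt δ z * φ (x ∪ z) := rfl
  rw [h1, ← Finset.sum_fiberwise (s := (univ : Finset (Finset E))) (fun z : Finset E => x ∪ z)]
  refine Finset.sum_congr rfl fun w _ => ?_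
  by_cases hxw : x ⊆ w
  · rw [if_pos hxw, ← Rh_fiber δ x w hxw, Finset.sum_mul]
    refine Finset.sum_congr rfl fun z hz => ?_
    rw [(Finset.mem_filter.mp hz).2]
  · rw [if_neg hxw]
    refine Finset.sum_eq_zero fun z hz => ?_
    exact absurd ((Finset.mem_filter.mp hz).2 ▸ Finset.subset_union_left) hxw

/-- the sum over the subsets of `w` -/
private lemma Rh_sub {E : Type} [Fintype E] [DecidableEq E] (δ D : ℝ) (w : Finset E) :
    ∑ x ∈ w.powerset, rho D x * (δ ^ (w \ x).card * (1 - δ) ^ (univ \ w).card) =
      rho (D + δ - D * δ) w := by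
  have h1 : ∑ x ∈ w.powerset, rho D x * (δ ^ (w \ x).card * (1 - δ) ^ (univ \ w).card) =
      ∑ x ∈ w.powerset, ((1 - D) ^ (univ \ w).card * (1 - δ) ^ (univ \ w).card) *
        ((1 + D) ^ x.card * ((1 - D) * δ) ^ (w.card - x.card)) := by
    refine Finset.sum_congr rfl fun x hx => ?_
    have hx' : x ⊆ w := Finset.mem_powerset.mp hx
    have hu : univ \ x = (univ \ w) ∪ (w \ x) := by
      ext e
      simp only [Finset.mem_sdiff, Finset.mem_univ, true_and, Finset.mem_union]
      constructor
      · intro h
        by_cases hw : e ∈ w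
        · exact Or.inr ⟨hw, h⟩
        · exact Or.inl hw
      · rintro (h | ⟨_, h⟩)
        · exact fun h' => h (hx' h')
        · exact h
    have hd : Disjoint (univ \ w) (w \ x) := by
      rw [Finset.disjoint_left]
      intro e he he'
      exact (Finset.mem_sdiff.mp he).2 (Finset.mem_sdiff.mp he').1
    have hc : (univ \ x).card = (univ \ w).card + (w.card - x.card) := by
      rw [hu, Finset.card_union_of_disjoint hd, Finset.card_sdiff_of_subset hx']
    rw [rho, hc, Finset.card_sdiff_of_subset hx', pow_add, mul_pow]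
    ring
  rw [h1, ← Finset.mul_sum, Finset.sum_pow_mul_eq_add_pow, rho, ← mul_pow]
  have e1 : 1 + D + (1 - D) * δ = 1 + (D + δ - D * δ) := by ring
  have e2 : (1 - D) * (1 - δ) = 1 - (D + δ - D * δ) := by ring
  rw [e1, e2]
  ring

theorem pr_Rh : StRh := by
  intro E _ _ δ D φ
  have h1 : ∀ x : Finset E, rho D x * T δ φ x = ∑ w : Finset E,
      if x ⊆ w then rho D x * (δ ^ (w \ x).card * (1 - δ) ^ (univ \ w).card) * φ w else 0 := by
    intro x
    rw [Rh_T, Finset.mul_sum]
    refine Finset.sum_congr rfl fun w _ => ?_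
    by_cases hxw : x ⊆ w
    · rw [if_pos hxw, if_pos hxw]
      ring
    · rw [if_neg hxw, if_neg hxw, mul_zero]
  rw [Finset.sum_congr rfl fun x _ => h1 x, Finset.sum_comm]
  refine Finset.sum_congr rfl fun w _ => ?_
  rw [← Rh_sub δ D w, Finset.sum_mul, ← Finset.sum_filter]
  refine Finset.sum_congr ?_ fun _ _ => rfl
  ext x
  simp

end Pool.Agent.UN
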