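import Mathlib

/-!
# Block UN: the choice of the parameters
-/

namespace Pool.Agent.UN

lemma num_pow (L v : ℕ) (hL : L = Nat.log 2 v + 1) : v < 2 ^ L := by
  rw [hL]; exact Nat.lt_pow_succ_log_self (by norm_num) v

/-- the sizes of the parameters -/
lemma num_params {b L v p : ℕ} (hb : 1 ≤ b) (hL : L = Nat.log 2 v + 1)
    (hp0 : 9 * b * L ≤ p) (hpv : p ^ 2 ≤ v) (hL2 : 2 ≤ L) :
    ∃ N K : ℕ, 2 ≤ N ∧ N ≤ 4 * b * L ∧ (2 : ℝ) ^ N * Real.log 2 ≤ (p : ℝ) ^ (8 * b) ∧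
      (p : ℝ) ^ (8 * b) ≤ 2 * ((2 : ℝ) ^ N * Real.log 2) ∧ 64 * 2 ^ K ≤ (p : ℝ) ^ 4 / 2 ∧
      (p : ℝ) ^ 4 / 2 ≤ 128 * 2 ^ K ∧ K + 1 ≤ 2 * L := by
  have hvL := num_pow L v hL
  have hp9 : 18 ≤ p := by
    have : 18 ≤ 9 * b * L := by nlinarith
    omega
  have hpR : (18 : ℝ) ≤ p := by exact_mod_cast hp9
  have hl1 := Real.log_two_gt_d9
  have hl2 := Real.log_two_lt_d9
  have hlog : 0 < Real.log 2 := by linarith
  have hp8 : (18 : ℝ) ≤ (p : ℝ) ^ (8 * b) := by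
    calc (18 : ℝ) ≤ p := hpR
      _ = (p : ℝ) ^ 1 := (pow_one _).symm
      _ ≤ (p : ℝ) ^ (8 * b) := pow_le_pow_right₀ (by linarith) (by omega)
  have hpow : (p : ℝ) ^ (8 * b) ≤ 2 ^ (4 * b * L) := by
    have h1 : p ^ (8 * b) ≤ 2 ^ (4 * b * L) := by
      calc p ^ (8 * b) = (p ^ 2) ^ (4 * b) := by rw [← pow_mul]; congr 1; ring
        _ ≤ (2 ^ L) ^ (4 * b) := Nat.pow_le_pow_left (hpv.trans hvL.le) _
        _ = 2 ^ (4 * b * L) := by rw [← pow_mul]; congr 1; ring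
    exact_mod_cast h1
  obtain ⟨N, hN1, hN2⟩ := exists_nat_pow_near (x := (p : ℝ) ^ (8 * b) / Real.log 2)
    (y := (2 : ℝ)) (by rw [le_div_iff₀ hlog]; linarith) (by norm_num)
  rw [le_div_iff₀ hlog] at hN1
  rw [div_lt_iff₀ hlog, pow_succ] at hN2
  have hp4 : (128 : ℝ) ≤ (p : ℝ) ^ 4 := by
    calc (128 : ℝ) ≤ 18 ^ 4 := by norm_num
      _ ≤ (p : ℝ) ^ 4 := pow_le_pow_left₀ (by norm_num) hpR 4
  obtain ⟨K, hK1, hK2⟩ := exists_nat_pow_near (x := (p : ℝ) ^ 4 / 128) (y := (2 : ℝ))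
    (by rw [le_div_iff₀ (by norm_num)]; linarith) (by norm_num)
  rw [le_div_iff₀ (by norm_num)] at hK1
  rw [div_lt_iff₀ (by norm_num), pow_succ (2 : ℝ) K] at hK2
  refine ⟨N, K, ?_, ?_, hN1, by linarith, by linarith, by linarith, ?_⟩
  · by_contra hcon
    have hN : N ≤ 1 := by omega
    have h1 : (2 : ℝ) ^ N ≤ 2 ^ 1 := pow_le_pow_right₀ (by norm_num) hN
    have h2 : (2 : ℝ) ^ N * 2 * Real.log 2 ≤ 2 ^ 1 * 2 * 1 := by
      apply mul_le_mul _ (by linarith) hlog.le (by norm_num)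
      exact mul_le_mul_of_nonneg_right h1 (by norm_num)
    linarith
  · by_contra hcon
    have hN : 4 * b * L + 1 ≤ N := by omega
    have h1 : (2 : ℝ) ^ (4 * b * L + 1) ≤ 2 ^ N := pow_le_pow_right₀ (by norm_num) hN
    rw [pow_succ] at h1
    have h2 : (2 : ℝ) ^ (4 * b * L) * 2 * Real.log 2 ≤ (2 : ℝ) ^ N * Real.log 2 :=
      mul_le_mul_of_nonneg_right h1 hlog.le
    have h3 : (0 : ℝ) < 2 ^ (4 * b * L) := by positivity
    nlinarith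
  · have h1 : (2 : ℝ) ^ K < 2 ^ (2 * L) := by
      have h2 : p ^ 4 < 2 ^ (2 * L) := by
        calc p ^ 4 = (p ^ 2) ^ 2 := by ring
          _ < (2 ^ L) ^ 2 := Nat.pow_lt_pow_left (lt_of_le_of_lt hpv hvL) (by norm_num)
          _ = 2 ^ (2 * L) := by rw [← pow_mul]; congr 1; ring
      have h3 : (p : ℝ) ^ 4 < 2 ^ (2 * L) := by exact_mod_cast h2
      have h4 : (0 : ℝ) < 2 ^ K := by positivity
      linarith
    have h2 : K < 2 * L := (pow_lt_pow_iff_right₀ (by norm_num : (1 : ℝ) < 2)).mp h1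
    omega

lemma num_ell {b L v : ℕ} (hL : L = Nat.log 2 v + 1) (hv : 2 ^ 16 * b ^ 4 * L ^ 3 ≤ v)
    (hb : 1 ≤ b) : 2 * b < 2 ^ (L / 4) := by
  by_contra hcon
  push Not at hcon
  have hvL := num_pow L v hL
  have h1 : (2 ^ (L / 4)) ^ 4 ≤ (2 * b) ^ 4 := Nat.pow_le_pow_left hcon 4
  have h2 : 2 ^ L ≤ 8 * (2 ^ (L / 4)) ^ 4 := by
    rw [← pow_mul]
    calc 2 ^ L ≤ 2 ^ (3 + L / 4 * 4) := Nat.pow_le_pow_right (by norm_num) (by omega)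
      _ = 8 * 2 ^ (L / 4 * 4) := by rw [pow_add]; norm_num
  have h3 : (2 * b) ^ 4 = 16 * b ^ 4 := by ring
  have h4 : 1 ≤ L ^ 3 := Nat.one_le_pow _ _ (by omega)
  have h5 : 2 ^ 16 * b ^ 4 * 1 ≤ 2 ^ 16 * b ^ 4 * L ^ 3 := Nat.mul_le_mul_left _ h4
  have h6 : 1 ≤ b ^ 4 := Nat.one_le_pow _ _ hb
  rw [h3] at h1
  norm_num at h5 hv
  omega

/-- `p ^ 4` is at least `v`, so that `N` is large -/
lemma num_dense {b L v p N : ℕ} (hL : L = Nat.log 2 v + 1) (hv : 2 ^ 16 * b ^ 4 * L ^ 3 ≤ v)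
    (hb : 1 ≤ b) (hp2 : v < 720 * b ^ 2 * L * p ^ 2)
    (hN : (p : ℝ) ^ (8 * b) ≤ 2 * ((2 : ℝ) ^ N * Real.log 2)) : b * L + 1 ≤ N := by
  have hvL := num_pow L v hL
  have hL1 : 1 ≤ L := by omega
  have hv1 : 1 ≤ b ^ 4 * L ^ 3 := Nat.one_le_iff_ne_zero.mpr (by positivity)
  have hv16 : 2 ^ 16 ≤ v := by nlinarith
  have hL17 : 17 ≤ L := by
    by_contra hcon
    have : 2 ^ L ≤ 2 ^ 16 := Nat.pow_le_pow_right (by norm_num) (by omega)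
    omega
  have hv0 : 0 < v := by omega
  have hvl : 2 ^ (L - 1) ≤ v := by
    rw [hL, Nat.add_sub_cancel]
    exact Nat.pow_log_le_self 2 (by omega)
  have h1 : v ≤ p ^ 4 := by
    have e1 : v ^ 2 ≤ (720 * b ^ 2 * L * p ^ 2) ^ 2 := Nat.pow_le_pow_left hp2.le 2
    have e2 : (720 * b ^ 2 * L * p ^ 2) ^ 2 = 518400 * (b ^ 4 * L ^ 2) * p ^ 4 := by ring
    have e3 : 2 ^ 16 * (b ^ 4 * L ^ 2) * 17 ≤ v := by
      refine le_trans ?_ hv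
      calc 2 ^ 16 * (b ^ 4 * L ^ 2) * 17 ≤ 2 ^ 16 * (b ^ 4 * L ^ 2) * L :=
            Nat.mul_le_mul_left _ hL17
        _ = 2 ^ 16 * b ^ 4 * L ^ 3 := by ring
    rw [e2] at e1
    by_contra hcon
    push Not at hcon
    have e4 : 518400 * (b ^ 4 * L ^ 2) ≤ v := by
      refine le_trans ?_ e3
      calc 518400 * (b ^ 4 * L ^ 2) ≤ 1114112 * (b ^ 4 * L ^ 2) :=
            Nat.mul_le_mul_right _ (by norm_num)
        _ = 2 ^ 16 * (b ^ 4 * L ^ 2) * 17 := by ring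
    have e5 : 518400 * (b ^ 4 * L ^ 2) * p ^ 4 ≤ v * p ^ 4 := Nat.mul_le_mul_right _ e4
    have e6 : v * p ^ 4 < v * v := Nat.mul_lt_mul_of_pos_left hcon hv0
    have e7 : v ^ 2 = v * v := sq v
    omega
  have h2 : 2 ^ (2 * b * (L - 1)) ≤ p ^ (8 * b) := by
    calc 2 ^ (2 * b * (L - 1)) = (2 ^ (L - 1)) ^ (2 * b) := by rw [← pow_mul]; congr 1; ring
      _ ≤ (p ^ 4) ^ (2 * b) := Nat.pow_le_pow_left (hvl.trans h1) _
      _ = p ^ (8 * b) := by rw [← pow_mul]; congr 1; ring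
  have h3 : (2 : ℝ) ^ (2 * b * (L - 1)) ≤ (p : ℝ) ^ (8 * b) := by exact_mod_cast h2
  have hl2 := Real.log_two_lt_d9
  have h4 : (2 : ℝ) ^ (2 * b * (L - 1)) ≤ 2 ^ (N + 1) := by
    rw [pow_succ]
    have h5 : (0 : ℝ) < 2 ^ N := by positivity
    nlinarith
  have h5 : 2 * b * (L - 1) ≤ N + 1 := (pow_le_pow_iff_right₀ (by norm_num : (1 : ℝ) < 2)).mp h4
  have h6 : b * L + 2 ≤ 2 * b * (L - 1) := by
    obtain ⟨m, rfl⟩ : ∃ m, L = m + 17 := ⟨L - 17, by omega⟩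
    have : m + 17 - 1 = m + 16 := by omega
    rw [this]
    nlinarith
  omega

/-- the final estimate -/
lemma num_final {P r dev ze G ε : ℝ} {M b L ℓ K N R : ℕ} (hP : 144 ≤ P) (hr0 : 0 ≤ r)
    (hr : r ^ 2 ≤ N * P ^ 4) (hNP : 2 * (N : ℝ) ≤ P) (hNL : N ≤ 4 * b * L)
    (hdev : dev ≤ 2 / P ^ 4) (hze : ze ≤ 2 / P ^ 4 + 8 * N / P ^ 4)
    (hG : G ≤ 4 * M * (5 * ε + 128 / (P ^ 4 / 2) +
      (512 * K + 256) * (ℓ * R) * r / (P ^ 4 / 2)))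
    (hε : ε ≤ 1 / P ^ 4) (hK : K + 1 ≤ 2 * L) (hℓ : 4 * ℓ ≤ L) (hR : R = 7 * b * L)
    (hM : 1 ≤ M) (hb : 1 ≤ b) (hL : 1 ≤ L) :
    r * (dev + 4 * G + 6 * ze) < 2 ^ 18 * M * b ^ 2 * L ^ 4 := by
  have hP0 : 0 < P := by linarith
  have hP4 : 0 < P ^ 4 := by positivity
  obtain ⟨a, ha⟩ : ∃ a, a = r / P ^ 4 := ⟨_, rfl⟩
  have hra : r = a * P ^ 4 := by rw [ha]; field_simp
  have ha0 : 0 ≤ a := by rw [ha]; positivity
  have hr3 : r ≤ P ^ 3 / 2 := by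
    by_contra hcon
    push Not at hcon
    have e1 : (P ^ 3 / 2) ^ 2 < r ^ 2 := pow_lt_pow_left₀ hcon (by positivity) (by norm_num)
    have e2 : (N : ℝ) * P ^ 4 ≤ (P / 2) * P ^ 4 :=
      mul_le_mul_of_nonneg_right (by linarith) hP4.le
    have e3 : (P ^ 3 / 2) ^ 2 = (P / 2) * P ^ 4 * (P / 2) := by ring
    have e4 : (P / 2) * P ^ 4 * 1 ≤ (P / 2) * P ^ 4 * (P / 2) :=
      mul_le_mul_of_nonneg_left (by linarith) (by positivity)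
    linarith
  have haP : a * P ≤ 1 / 2 := by
    have e1 : a * P * P ^ 3 ≤ 1 / 2 * P ^ 3 := by
      calc a * P * P ^ 3 = r := by rw [hra]; ring
        _ ≤ P ^ 3 / 2 := hr3
        _ = 1 / 2 * P ^ 3 := by ring
    exact le_of_mul_le_mul_right e1 (by positivity)
  have ha288 : a ≤ 1 / 288 := by nlinarith
  have hra2 : r * a ≤ N := by
    have e1 : r * a * P ^ 4 ≤ N * P ^ 4 := by
      calc r * a * P ^ 4 = r ^ 2 := by rw [hra]; ring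
        _ ≤ N * P ^ 4 := hr
    exact le_of_mul_le_mul_right e1 hP4
  have hN0 : (0 : ℝ) ≤ N := by positivity
  have hMR : (1 : ℝ) ≤ M := by exact_mod_cast hM
  have hbR : (1 : ℝ) ≤ b := by exact_mod_cast hb
  have hLR : (1 : ℝ) ≤ L := by exact_mod_cast hL
  have h1 : r * dev ≤ 1 := by
    have e1 : r * dev ≤ r * (2 / P ^ 4) := mul_le_mul_of_nonneg_left hdev hr0
    have e2 : r * (2 / P ^ 4) = 2 * a := by rw [ha]; ring
    linarith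
  have h2 : r * (6 * ze) ≤ 13 := by
    have e1 : r * (6 * ze) ≤ r * (6 * (2 / P ^ 4 + 8 * N / P ^ 4)) :=
      mul_le_mul_of_nonneg_left (by linarith) hr0
    have e2 : r * (6 * (2 / P ^ 4 + 8 * N / P ^ 4)) = 12 * a + 48 * (a * N) := by rw [ha]; ring
    have e3 : a * N ≤ a * (P / 2) := mul_le_mul_of_nonneg_left (by linarith) ha0
    have e4 : a * (P / 2) = a * P / 2 := by ring
    linarith
  have h3 : (512 * (K : ℝ) + 256) ≤ 1024 * L := by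
    have : (K : ℝ) + 1 ≤ 2 * L := by exact_mod_cast hK
    linarith
  have hNLR : (N : ℝ) ≤ 4 * b * L := by exact_mod_cast hNL
  have hℓR : 4 * (ℓ : ℝ) ≤ L := by exact_mod_cast hℓ
  have hRR : (R : ℝ) = 7 * b * L := by rw [hR]; push_cast; ring
  have h4 : r * ((512 * K + 256) * (ℓ * R) * r / (P ^ 4 / 2)) ≤ 14336 * (b ^ 2 * L ^ 4) := by
    have e1 : r * ((512 * K + 256) * (ℓ * R) * r / (P ^ 4 / 2)) =
        2 * ((512 * K + 256) * (ℓ * R) * (r * a)) := by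
      rw [ha, div_div_eq_mul_div]; ring
    have e2 : (512 * (K : ℝ) + 256) * (ℓ * R) * (r * a) ≤
        1024 * L * (ℓ * R) * (4 * b * L) := by
      apply mul_le_mul _ (hra2.trans hNLR) (by positivity) (by positivity)
      exact mul_le_mul_of_nonneg_right h3 (by positivity)
    have e3 : 2 * (1024 * (L : ℝ) * (ℓ * R) * (4 * b * L)) =
        14336 * (b ^ 2 * L ^ 3) * (4 * ℓ) := by
      rw [hRR]; ring
    have e4 : 14336 * ((b : ℝ) ^ 2 * L ^ 3) * (4 * ℓ) ≤ 14336 * (b ^ 2 * L ^ 3) * L :=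
      mul_le_mul_of_nonneg_left hℓR (by positivity)
    have e5 : 14336 * ((b : ℝ) ^ 2 * L ^ 3) * L = 14336 * (b ^ 2 * L ^ 4) := by ring
    linarith
  have h5 : r * (5 * ε) ≤ 1 := by
    have e1 : r * (5 * ε) ≤ r * (5 * (1 / P ^ 4)) := mul_le_mul_of_nonneg_left (by linarith) hr0
    have e2 : r * (5 * (1 / P ^ 4)) = 5 * a := by rw [ha]; ring
    linarith
  have h6 : r * (128 / (P ^ 4 / 2)) ≤ 1 := by
    have e2 : r * (128 / (P ^ 4 / 2)) = 256 * a := by rw [ha, div_div_eq_mul_div]; ring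
    linarith
  have h7 : r * (4 * G) ≤ 16 * M * (2 + 14336 * (b ^ 2 * L ^ 4)) := by
    have e1 : r * (4 * G) ≤ r * (4 * (4 * M * (5 * ε + 128 / (P ^ 4 / 2) +
        (512 * K + 256) * (ℓ * R) * r / (P ^ 4 / 2)))) :=
      mul_le_mul_of_nonneg_left (by linarith) hr0
    have e2 : r * (4 * (4 * M * (5 * ε + 128 / (P ^ 4 / 2) +
        (512 * K + 256) * (ℓ * R) * r / (P ^ 4 / 2)))) =
        16 * M * (r * (5 * ε) + r * (128 / (P ^ 4 / 2)) +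
          r * ((512 * K + 256) * (ℓ * R) * r / (P ^ 4 / 2))) := by ring
    have e3 : 16 * M * (r * (5 * ε) + r * (128 / (P ^ 4 / 2)) +
          r * ((512 * K + 256) * (ℓ * R) * r / (P ^ 4 / 2))) ≤
        16 * M * (2 + 14336 * (b ^ 2 * L ^ 4)) :=
      mul_le_mul_of_nonneg_left (by linarith) (by positivity)
    linarith
  have h8 : (1 : ℝ) ≤ M * (b ^ 2 * L ^ 4) := by
    have e1 : (1 : ℝ) ≤ b ^ 2 := one_le_pow₀ hbR
    have e2 : (1 : ℝ) ≤ L ^ 4 := one_le_pow₀ hLR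
    have e3 : (1 : ℝ) ≤ b ^ 2 * L ^ 4 := by nlinarith
    nlinarith
  have h9 : (M : ℝ) ≤ M * (b ^ 2 * L ^ 4) := by
    have e1 : (1 : ℝ) ≤ b ^ 2 := one_le_pow₀ hbR
    have e2 : (1 : ℝ) ≤ L ^ 4 := one_le_pow₀ hLR
    have e3 : (1 : ℝ) ≤ b ^ 2 * L ^ 4 := by nlinarith
    nlinarith
  have h10 : r * (dev + 4 * G + 6 * ze) = r * dev + r * (4 * G) + r * (6 * ze) := by ring
  have h11 : (2 : ℝ) ^ 18 * M * b ^ 2 * L ^ 4 = 262144 * (M * (b ^ 2 * L ^ 4)) := by ring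
  have h12 : 16 * (M : ℝ) * (2 + 14336 * (b ^ 2 * L ^ 4)) =
      32 * M + 229376 * (M * (b ^ 2 * L ^ 4)) := by ring
  rw [h10, h11]
  linarith

/-- the error term of the approximation -/
lemma num_eps {b L v p s W : ℕ} (hb : 1 ≤ b) (hL : L = Nat.log 2 v + 1) (hpv : p ^ 2 ≤ v)
    (hs : 2 * s + 1 ≤ 2 ^ b) (hW : W ≤ 2 ^ (4 * b * L)) (hp : 1 ≤ p) :
    (((2 * s : ℕ) : ℝ) + 1) * (W * (1 / 2) ^ (7 * b * L)) ≤ 1 / (p : ℝ) ^ 4 := by
  have hvL := num_pow L v hL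
  have hpR : (0 : ℝ) < p := by exact_mod_cast hp
  have h1 : (2 * s + 1) * W * p ^ 4 ≤ 2 ^ (7 * b * L) := by
    calc (2 * s + 1) * W * p ^ 4 ≤ 2 ^ b * 2 ^ (4 * b * L) * (2 ^ L) ^ 2 := by
          apply Nat.mul_le_mul (Nat.mul_le_mul hs hW)
          calc p ^ 4 = (p ^ 2) ^ 2 := by ring
            _ ≤ (2 ^ L) ^ 2 := Nat.pow_le_pow_left (hpv.trans hvL.le) 2
      _ = 2 ^ (b + 4 * b * L + L * 2) := by rw [← pow_mul, ← pow_add, ← pow_add]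
      _ ≤ 2 ^ (7 * b * L) := by
          apply Nat.pow_le_pow_right (by norm_num)
          have hL1 : 1 ≤ L := by omega
          nlinarith
  have h2 : (((2 * s : ℕ) : ℝ) + 1) * W * (p : ℝ) ^ 4 ≤ 2 ^ (7 * b * L) := by exact_mod_cast h1
  rw [le_div_iff₀ (by positivity)]
  have h3 : (1 / 2 : ℝ) ^ (7 * b * L) = 1 / 2 ^ (7 * b * L) := by rw [div_pow, one_pow]
  rw [h3]
  have h4 : (((2 * s : ℕ) : ℝ) + 1) * (W * (1 / 2 ^ (7 * b * L))) * (p : ℝ) ^ 4 =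
      ((((2 * s : ℕ) : ℝ) + 1) * W * (p : ℝ) ^ 4) / 2 ^ (7 * b * L) := by ring
  rw [h4, div_le_one (by positivity)]
  exact h2

/-- the number of small sets -/
lemma num_low {b L v p N n : ℕ} (hb : 1 ≤ b) (hL : L = Nat.log 2 v + 1)
    (hp1 : p ^ 2 * (180 * b ^ 2 * L) ≤ v) (hNL : N ≤ 4 * b * L) (hp : 1 ≤ p)
    (hn : n ≤ N * p ^ 4) : (n + 1) ^ (2 * b) ≤ 2 ^ (4 * b * L) := by
  have hvL := num_pow L v hL
  have hL1 : 1 ≤ L := by omega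
  have h1 : n + 1 ≤ (2 ^ L) ^ 2 := by
    have e1 : (p ^ 2 * (180 * b ^ 2 * L)) ^ 2 ≤ (2 ^ L) ^ 2 :=
      Nat.pow_le_pow_left (hp1.trans hvL.le) 2
    refine le_trans ?_ e1
    have e2 : (p ^ 2 * (180 * b ^ 2 * L)) ^ 2 = 32400 * (b ^ 3 * L) * (b * L) * p ^ 4 := by ring
    have e3 : 1 ≤ p ^ 4 := Nat.one_le_pow _ _ hp
    have e4 : n ≤ 4 * (b * L) * p ^ 4 := by
      refine hn.trans ?_
      apply Nat.mul_le_mul_right
      calc N ≤ 4 * b * L := hNL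
        _ = 4 * (b * L) := by ring
    have e5 : 1 ≤ b ^ 3 * L := Nat.one_le_iff_ne_zero.mpr (by positivity)
    have e6 : 1 ≤ b * L := Nat.one_le_iff_ne_zero.mpr (by positivity)
    rw [e2]
    calc n + 1 ≤ 4 * (b * L) * p ^ 4 + (b * L) * p ^ 4 := by
          have : 1 * 1 ≤ (b * L) * p ^ 4 := Nat.mul_le_mul e6 e3
          omega
      _ = 5 * 1 * (b * L) * p ^ 4 := by ring
      _ ≤ 32400 * (b ^ 3 * L) * (b * L) * p ^ 4 := by
          apply Nat.mul_le_mul_right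
          apply Nat.mul_le_mul_right
          exact Nat.mul_le_mul (by norm_num) e5
  calc (n + 1) ^ (2 * b) ≤ ((2 ^ L) ^ 2) ^ (2 * b) := Nat.pow_le_pow_left h1 _
    _ = 2 ^ (4 * b * L) := by rw [← pow_mul, ← pow_mul]; congr 1; ring

end Pool.Agent.UN
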