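import Pool.Agent.Work.MP_71c844_lc.UN.Stmts
import Pool.Agent.Work.MP_71c844_lc.LayPattern

/-!
# Block UN, part B: patterns along increasing sequences

Write `pr_<name> : St<name>` in `UN/I_<name>.lean` (namespace `Pool.Agent.UN`).
-/

namespace Pool.Agent.UN

open Finset
open Pool.Agent.NegLim (T Tn wt dens Dich gval)
open Pool.Agent.LayCirc

/-- **Mp** (MEDIUM; hypothesis `CsC`; model: `pr_Mu` in `UN/I_Mu.lean`, which is the case of one function
`G`; only the bound for `Eu (D k)` is new). PROOF. Let `δ = 1 / 2^K`,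
`φ j x = if G j x = true then 0 else 1`, `p x` the fraction of the planted sets `Y u` with
`G (st x) (x ∪ Y u) = true`, `η k` as in `I_Mu`, and
`D k x = if C x = false ∧ Tn δ (2^k R) (φ (st x)) x ≤ ε then 1 else 0`. Pointwise
`(if C x = true then 0 else 1) * (fraction of the u with C (x ∪ Y u)) ≤ D 0 x + ∑ k < K, η k * D (k+1) x + η K`:
if `C x = true` the left side is `0`; if `C x = false` the fraction is at most `p x` (hypothesis) and
`hpt` of `I_Mu` for the function `G (st x)` (with `G (st x) x = false`) applies.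
NEW: `Eu (D k) ≤ ε + B * (2 * dens δ (2^k R) * √n)`. Write `s = 2^k R`, `ψ x = (Ψ x : ℝ)`. Pointwise
`D k x ≤ ε + (Tn δ s ψ x - ψ x)`: for `y ⊇ x` always `ψ y - ψ x ≥ 0`, hence `Tn δ s ψ x ≥ ψ x`
(`Tn δ s` is an average over supersets of `x`; e.g. `NegLim.Tn_le_self` for `-ψ`, which is `Anti`);
and if `C x = false`, then `ψ y - ψ x ≥ 1 - φ (st x) y` for all `y ⊇ x`, so
`Tn δ s ψ x - ψ x ≥ 1 - Tn δ s (φ (st x)) x ≥ 1 - ε` (to compare values only on supersets of `x`, apply
`NegLim.Tn_mono`, `Tn_const`, linearity to the functions `y ↦ f (x ∪ y)`, or compare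
`y ↦ ψ y + φ (st x) y` with a constant on supersets as in the proof of `Tn_le_self`; induction on `s` with
`T δ f x = ∑ z, wt δ z * f (x ∪ z)` also works). Then `StCs` for `1 - ψ / B`, which has values in `[0,1]`:
`Eu (Tn δ s ψ) - Eu ψ = B * (Eu (1 - ψ/B) - Eu (Tn δ s (1 - ψ/B))) ≤ B * (2 * dens δ s * √n)`.
The rest is as in `I_Mu`. -/
def StMp : Prop := CsC → ∀ (E U J : Type) [Fintype E] [DecidableEq E] [Fintype U] [Nonempty U]
  (K R B : ℕ) (q ε : ℝ) (Y : U → Finset E) (C : Finset E → Bool) (st : Finset E → J)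
  (G : J → Finset E → Bool) (Ψ : Finset E → ℕ),
  64 * 2 ^ K ≤ q → q ≤ 128 * 2 ^ K → 0 ≤ ε → 1 ≤ R → 1 ≤ B → (∀ j, Dich K R 4 q ε Y (G j)) →
  (∀ x, Ψ x ≤ B) → (∀ x y, x ⊆ y → Ψ x ≤ Ψ y) →
  (∀ x y, x ⊆ y → C x = false → G (st x) y = true → Ψ x + 1 ≤ Ψ y) →
  (∀ x, C x = false → G (st x) x = false) →
  (∀ x u, C x = false → C (x ∪ Y u) = true → G (st x) (x ∪ Y u) = true) →
  Gam Y C ≤ 5 * ε + 128 / q + B * ((512 * K + 256) * R * √(Fintype.card E) / q)

/-- **Lx** (MEDIUM; model: the second half of the proof of `LayCirc.pat_cover` in `LayPattern.lean`).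
Extended patterns never return along increasing sequences. For `x ⊆ y` with
`(pat π c x, val c (inp π x) o) ≠ (pat π c y, val c (inp π y) o)` the code
`2 * ∑ j, 2^(s-1-j) [pat j] + [output]` increases strictly. PROOF. If the patterns differ let `n` be the
first gate (fed) where they differ. As in the proof of `pat_cover`, `frozen_eq` and `NegLim.run_mono` show
that the value of gate `n` is `false` at `x` and `true` at `y`. All earlier coordinates of `pat` agree
(coordinates of gates which are not fed are `false` for both), the coordinate `n` contributes `2^(s-1-n)`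
more to the code of `y`, and all the later ones together change the sum by at most `2^(s-1-n) - 1`; with the
factor `2` and the last bit: strict increase. If the patterns agree, `frozen_eq` for all `n ≤ s` gives
`val c (inp π y) o = ` value of the frozen circuit at `y` and the same for `x`, and the frozen circuit is
monotone, so the output is `false` at `x`, `true` at `y`. -/
def StLx : Prop := ∀ (ι E : Type) [Fintype E] [DecidableEq E] (s : ℕ) (π : ι → Bool ⊕ E)
  (c : Circuit ι s) (o : Fin s), ∃ N : Finset E → ℕ, ∀ x y, x ⊆ y →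
    (pat π c x = pat π c y ∧ val c (inp π x) o = val c (inp π y) o) ∨ N x < N y

/-- **Ps** (MEDIUM; hypothesis `StLx`). The potential. PROOF. Let
`ep x = (pat π c x, val c (inp π x) o)` and `P m x` the statement: there is `a : ℕ → Finset E` monotone with
`a i = x` for all `i ≥ m` and `ep (a i) ≠ ep (a (i+1))` for all `i < m`. By `StLx`, `N (a i)` is strictly
increasing for `i ≤ m`, so the `m + 1` values `ep (a i)`, `i ≤ m`, are distinct; at most `M` patterns occur
(the bound for `ncard`, with `LayCirc.card_pat`-like map from `pattern` to `pat` as at the end of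
`LayCirc.pattern_bound` or in `UN/Core.lean`), hence `m + 1 ≤ 2 * M`. `P 0 x` holds. Let `Ψ x` be the
largest `m ≤ 2 M` with `P m x` (`Nat.findGreatest`). If `x ⊆ y` and `ep x = ep y` then `P m x → P m y`
(replace the values from `m` on by `y`); if `ep x ≠ ep y` then `P m x → P (m+1) y` (replace the values from
`m + 1` on). So `Ψ` is monotone and `Ψ x + 1 ≤ Ψ y` if `ep x ≠ ep y`. Last claim: `x ⊆ y`,
`val c (inp π x) o = false`, `gval (qry π c o (pat π c x)) 0 y = true`: if `ep x = ep y` then
`pat_cover π c o y y` gives `gval (qry π c o (pat π c y)) 0 y = false`, contradiction; so `ep x ≠ ep y`. -/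
def StPs : Prop := StLx → ∀ (ι E : Type) [Fintype E] [DecidableEq E] (s M : ℕ) (π : ι → Bool ⊕ E)
  (c : Circuit ι s) (o : Fin s),
  (∀ x : ℕ → (ι → Bool), Monotone x → (Set.range (fun i => pattern c (x i))).ncard ≤ M) →
  ∃ Ψ : Finset E → ℕ, (∀ x, Ψ x ≤ 2 * M) ∧ (∀ x y, x ⊆ y → Ψ x ≤ Ψ y) ∧
    ∀ x y, x ⊆ y → val c (inp π x) o = false → gval (qry π c o (pat π c x)) 0 y = true →
      Ψ x + 1 ≤ Ψ y

end Pool.Agent.UN
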