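import Pool.Agent.Work.MP_71c844_lc.UN.Tune
import Pool.Agent.Work.MP_71c844_lc.UN.Num
import Pool.Agent.Work.MP_71c844_lc.UN.StmtsB

/-!
# Block UN: the main theorem
-/

namespace Pool.Agent.UN

open Finset
open Pool.Agent.NegLim (Dich gval numNot lowSets Part Vtx Gr Seed planted proj)
open Pool.Agent.LayCirc

set_option linter.unusedSectionVars false

/-- all items -/
structure ItemsB : Prop where
  A : Items
  Mp : StMp
  Ps : StPs
  Lx : StLx

section circ

variable {ι : Type} {s : ℕ} {E U : Type} [Fintype E] [DecidableEq E] [Fintype U] [Nonempty U]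

lemma one_le_of_chain (c : Circuit ι s) {M : ℕ}
    (hM : ∀ x : ℕ → (ι → Bool), Monotone x → (Set.range (fun i => pattern c (x i))).ncard ≤ M) :
    1 ≤ M := by
  refine le_trans ?_ (hM (fun _ => fun _ => false) (fun _ _ _ => le_rfl))
  rw [Nat.one_le_iff_ne_zero]
  intro h
  rw [Set.ncard_eq_zero (Set.toFinite _)] at h
  exact (Set.range_nonempty _).ne_empty h

open Classical in
/-- The bound for `Gam` of a circuit. -/
lemma gam_all (I : ItemsB) {b ℓ K R M : ℕ} {q : ℝ} {Y : U → Finset E} (hb : 1 ≤ b)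
    (hℓ : 2 * b < 2 ^ ℓ) (hq : 64 * 2 ^ K ≤ q) (hq2 : q ≤ 128 * 2 ^ K)
    (hY : ∀ A : Finset E, A.card ≤ 2 * b →
      ((univ.filter (fun u => A ⊆ Y u)).card : ℝ) ≤ Fintype.card U * (1 / q) ^ A.card)
    (π : ι → Bool ⊕ E) (c : Circuit ι s) (o : Fin s)
    (hM : (∀ x : ℕ → (ι → Bool), Monotone x →
        (Set.range (fun i => pattern c (x i))).ncard ≤ M) ∨
      wires c + numMixing c + 1 ≤ M ∨ (FormulaLike c ∧ wires c + numArb c + 1 ≤ M))
    (hS : 2 * s ≤ 2 ^ b) (hR : 1 ≤ R) (hℓ1 : 1 ≤ ℓ) :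
    1 ≤ M ∧ Gam Y (fun X => val c (inp π X) o) ≤
      4 * M * (5 * ((((2 * s : ℕ) : ℝ) + 1) * ((lowSets E b).card * (1 / 2) ^ R)) + 128 / q +
        (512 * K + 256) * (ℓ * R) * √(Fintype.card E) / q) := by
  have hqpos : 0 < q := lt_of_lt_of_le (by positivity) hq
  rcases hM with h | h
  · have hM1 := one_le_of_chain c h
    refine ⟨hM1, ?_⟩
    set ε : ℝ := (((2 * s : ℕ) : ℝ) + 1) * ((lowSets E b).card * (1 / 2) ^ R) with hε
    have hε0 : 0 ≤ ε := by positivity
    obtain ⟨Ψ, hΨ1, hΨ2, hΨ3⟩ := I.Ps I.Lx ι E s M π c o h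
    have key := I.Mp I.A.cs E U (Fin s → Bool) K (ℓ * R) (2 * M) q ε Y
      (fun X => val c (inp π X) o) (pat π c) (fun h => gval (qry π c o h) 0) Ψ hq hq2 hε0
      (Nat.one_le_iff_ne_zero.mpr (by positivity)) (by omega)
      (fun j => by
        exact Rec82.dich_circuit (E := E) (U := U) (b := b) (ℓ := ℓ) (K := K) (R := R) (q := q)
          (Y := Y) hb hℓ hq hY (qry π c o j) (numNot_qry π c o j) 0 (2 * s)
          (size_qry π c o j) hS)
      hΨ1 hΨ2 hΨ3
      (fun x hx => (pat_cover π c o x x (Finset.Subset.refl _) hx).1)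
      (fun x u hx hxu => (pat_cover π c o x (x ∪ Y u) Finset.subset_union_left hx).2 hxu)
    refine key.trans ?_
    have hMR : (1 : ℝ) ≤ M := by exact_mod_cast hM1
    have h1 : 0 ≤ 5 * ε + 128 / q := by positivity
    have h2 : (0 : ℝ) ≤ (512 * K + 256) * (ℓ * R) * √(Fintype.card E) / q := by positivity
    push_cast
    have h3 : (5 * ε + 128 / q) ≤ 4 * M * (5 * ε + 128 / q) := by nlinarith
    have h4 : 2 * (M : ℝ) * ((512 * K + 256) * (ℓ * R) * √(Fintype.card E) / q) ≤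
        4 * M * ((512 * K + 256) * (ℓ * R) * √(Fintype.card E) / q) := by
      apply mul_le_mul_of_nonneg_right _ h2
      linarith
    linarith
  · refine ⟨?_, gam_circ I.A hb hℓ hq hq2 hY π c o (Or.inr h) hS hR hℓ1⟩
    rcases h with h | h <;> omega

end circ

open Classical in
/-- **CLIQUE is hard on average for the uniform distribution on a subcube** (parameters). -/
theorem main_unif0 (I : ItemsB) {v k b L : ℕ} (hb : 1 ≤ b) (hL : L = Nat.log 2 v + 1)
    (hv : 2 ^ 16 * b ^ 4 * L ^ 3 ≤ v) (hk : 40 * b ^ 2 * L ≤ k) (hkv : 2 * k ≤ v) :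
    ∃ (F : Finset (Sym2 (Fin v))) (x₀ : Sym2 (Fin v) → Bool), (∀ e ∈ F, ¬ e.IsDiag) ∧
      v ^ 2 ≤ 2 ^ 19 * b ^ 3 * L * F.card ∧
      ∀ (s M : ℕ) (c : Circuit (Sym2 (Fin v)) s) (o : Fin s), 2 * s + 1 ≤ 2 ^ b →
        ((∀ x : ℕ → (Sym2 (Fin v) → Bool), Monotone x →
            (Set.range (fun i => pattern c (x i))).ncard ≤ M) ∨
          wires c + numMixing c + 1 ≤ M ∨ (FormulaLike c ∧ wires c + numArb c + 1 ≤ M)) →
        √(F.card) * ∑ x : Sym2 (Fin v) → Bool with ∀ e ∉ F, x e = x₀ e,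
          (if (val c x o = true ↔
            ¬ (SimpleGraph.fromEdgeSet {e | x e = true}).CliqueFree k) then (1 : ℝ) else -1) <
          2 ^ 18 * M * b ^ 2 * L ^ 4 * 2 ^ F.card := by
  have hL1 : 1 ≤ L := by omega
  have hvL := num_pow L v hL
  have hb4 : 1 ≤ b ^ 4 * L ^ 3 := Nat.one_le_iff_ne_zero.mpr (by positivity)
  have hv16 : 2 ^ 16 ≤ v := by nlinarith
  have hL17 : 17 ≤ L := by
    by_contra hcon
    have : 2 ^ L ≤ 2 ^ 16 := Nat.pow_le_pow_right (by norm_num) (by omega)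
    omega
  obtain ⟨p, hp, hp0, hp1, hp2⟩ := choose_prime b L v hb (by omega) (by
    refine le_trans ?_ hv
    apply Nat.mul_le_mul_right
    apply Nat.mul_le_mul_right
    norm_num)
  haveI : Fact p.Prime := ⟨hp⟩
  have hD1 : 1 ≤ 180 * b ^ 2 * L := Nat.one_le_iff_ne_zero.mpr (by positivity)
  have hpv : p ^ 2 ≤ v := by nlinarith
  obtain ⟨N, K, hN2, hNL, hN3, hN4, hK1, hK2, hKL⟩ := num_params hb hL hp0 hpv (by omega)
  have hbLN : b * L + 1 ≤ N := num_dense hL hv hb hp2 hN4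
  have hNp2 : 2 * N ≤ p := by nlinarith
  have hNp : N ≤ p := by omega
  obtain ⟨P, hPc, hU1, hU2, hU3⟩ := tune I.A.Tu hb (by omega) hNp hN3 hN4
  -- real numbers
  have hl1 := Real.log_two_gt_d9
  have hl2 := Real.log_two_lt_d9
  have hp18 : 144 ≤ p := by nlinarith
  have hPR : (144 : ℝ) ≤ (p : ℝ) := by exact_mod_cast hp18
  have hPpos : (0 : ℝ) < p := by linarith
  have h2N : (0 : ℝ) < 2 ^ N := by positivity
  have hcU : (0 : ℝ) < Fintype.card (SeedP b P) := lt_of_lt_of_le (by positivity) hU1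
  haveI : Nonempty (SeedP b P) := by
    rw [← Fintype.card_pos_iff]
    exact_mod_cast hcU
  obtain ⟨lam, hlam⟩ : ∃ lam : ℝ, lam = Fintype.card (SeedP b P) / 2 ^ N := ⟨_, rfl⟩
  have hlam0 : Real.log 2 ≤ lam := by
    rw [hlam, le_div_iff₀ h2N]; linarith
  have hlam2 : lam ≤ Real.log 2 * (1 + 2 / (p : ℝ) ^ 4) := by
    rw [hlam, div_le_iff₀ h2N]
    linarith
  have hP4 : (144 : ℝ) ≤ (p : ℝ) ^ 4 := by
    calc (144 : ℝ) ≤ p := hPR
      _ = (p : ℝ) ^ 1 := (pow_one _).symm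
      _ ≤ (p : ℝ) ^ 4 := pow_le_pow_right₀ (by linarith) (by norm_num)
  have h24 : 2 / (p : ℝ) ^ 4 ≤ 1 / 72 := by
    rw [div_le_div_iff₀ (by linarith) (by norm_num)]; linarith
  have hlam1 : lam ≤ 1 := by
    refine hlam2.trans ?_
    nlinarith [Real.log_two_lt_d9, Real.log_two_gt_d9]
  have hdev : |2 * Real.exp (-lam) - 1| ≤ 2 / (p : ℝ) ^ 4 := by
    have e1 : Real.exp (-lam) ≤ 1 / 2 := by
      calc Real.exp (-lam) ≤ Real.exp (-Real.log 2) := Real.exp_le_exp.mpr (by linarith)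
        _ = 1 / 2 := by rw [Real.exp_neg, Real.exp_log (by norm_num)]; norm_num
    have e2 : 1 / 2 * (1 - Real.log 2 * (2 / (p : ℝ) ^ 4)) ≤ Real.exp (-lam) := by
      have e3 : Real.exp (-(Real.log 2 * (1 + 2 / (p : ℝ) ^ 4))) ≤ Real.exp (-lam) :=
        Real.exp_le_exp.mpr (by linarith)
      refine le_trans ?_ e3
      have e4 : -(Real.log 2 * (1 + 2 / (p : ℝ) ^ 4)) =
          -Real.log 2 + -(Real.log 2 * (2 / (p : ℝ) ^ 4)) := by ring
      rw [e4, Real.exp_add, Real.exp_neg (Real.log 2), Real.exp_log (by norm_num)]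
      have e5 := Real.add_one_le_exp (-(Real.log 2 * (2 / (p : ℝ) ^ 4)))
      have e6 : (1 : ℝ) / 2 = 2⁻¹ := by norm_num
      rw [e6]
      apply mul_le_mul_of_nonneg_left _ (by norm_num)
      linarith
    rw [abs_le]
    have e3 : 0 ≤ 2 / (p : ℝ) ^ 4 := by positivity
    constructor
    · nlinarith
    · linarith
  -- the embedding
  have hcardPart : Fintype.card (Part b N) = N * (8 * b + 2) := by
    simp only [Fintype.card_sum, Fintype.card_prod, Fintype.card_fin]; ring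
  have hNb : N * (8 * b + 2) ≤ 40 * b ^ 2 * L := by
    calc N * (8 * b + 2) ≤ (4 * b * L) * (10 * b) := Nat.mul_le_mul hNL (by omega)
      _ = 40 * b ^ 2 * L := by ring
  obtain ⟨d, hd⟩ : ∃ d, N * (8 * b + 2) + d = k := ⟨k - N * (8 * b + 2), by omega⟩
  have hcardV : Fintype.card (Vtx p b N d) = N * (8 * b + 2) * p ^ 2 + d := by
    rw [Fintype.card_sum, Fintype.card_prod, hcardPart, Fintype.card_prod, ZMod.card,
      Fintype.card_fin]
    ring
  have hVv : N * (8 * b + 2) * p ^ 2 + d ≤ v := by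
    have e1 : N * (8 * b + 2) * p ^ 2 ≤ 40 * b ^ 2 * L * p ^ 2 := Nat.mul_le_mul_right _ hNb
    have e2 : p ^ 2 * (180 * b ^ 2 * L) = 180 * (b ^ 2 * L * p ^ 2) := by ring
    have e3 : 40 * b ^ 2 * L * p ^ 2 = 40 * (b ^ 2 * L * p ^ 2) := by ring
    omega
  obtain ⟨ι⟩ : Nonempty (Vtx p b N d ↪ Fin v) :=
    Function.Embedding.nonempty_of_card_le (by rw [hcardV, Fintype.card_fin]; exact hVv)
  have hkc : Fintype.card (Part b N ⊕ Fin d) = k := by
    rw [Fintype.card_sum, hcardPart, Fintype.card_fin]; exact hd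
  obtain ⟨F, x₀, hF1, hF2, hF3⟩ := I.A.Sb (Sym2 (Fin v)) (GrP P) (projP ι P) (projP_uniq ι P)
  -- cardinalities
  have hcardGr : Fintype.card (Gr p N) = N * p ^ 4 := by
    simp only [Fintype.card_prod, Fintype.card_fin, ZMod.card]; ring
  have hn : Fintype.card (GrP P) = N * p ^ 4 - P.card := by
    rw [Fintype.card_of_subtype Pᶜ (fun x => by rw [Finset.mem_compl]), Finset.card_compl, hcardGr]
  have hn1 : Fintype.card (GrP P) ≤ N * p ^ 4 := by omega
  have hn2 : b * L * p ^ 4 ≤ Fintype.card (GrP P) := by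
    have e1 : (b * L + 1) * p ^ 4 ≤ N * p ^ 4 := Nat.mul_le_mul_right _ hbLN
    have e2 : (b * L + 1) * p ^ 4 = b * L * p ^ 4 + p ^ 4 := by ring
    omega
  refine ⟨F, x₀, ?_, ?_, ?_⟩
  · -- no loops
    choose f hf1 _ using projP_uniq ι P
    have hinj : Function.Injective f := by
      intro t t' h
      have e1 := hf1 t
      rw [h, hf1 t', Sum.inr.injEq] at e1
      exact e1.symm
    have hsub : univ.image f ⊆ F := by
      intro e he
      obtain ⟨t, _, rfl⟩ := Finset.mem_image.mp he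
      exact hF2 _ t (hf1 t)
    have heq : univ.image f = F := by
      apply Finset.eq_of_subset_of_card_le hsub
      rw [Finset.card_image_of_injective _ hinj, Finset.card_univ, hF1]
    intro e he
    rw [← heq] at he
    obtain ⟨t, _, rfl⟩ := Finset.mem_image.mp he
    exact projP_diag ι P _ t (hf1 t)
  · rw [hF1]
    have e1 : v ^ 2 ≤ (720 * b ^ 2 * L * p ^ 2) ^ 2 := Nat.pow_le_pow_left hp2.le 2
    have e2 : (720 * b ^ 2 * L * p ^ 2) ^ 2 = 518400 * (b ^ 3 * L) * (b * L * p ^ 4) := by ring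
    refine e1.trans ?_
    rw [e2]
    calc 518400 * (b ^ 3 * L) * (b * L * p ^ 4) ≤ 2 ^ 19 * (b ^ 3 * L) * (b * L * p ^ 4) := by
          apply Nat.mul_le_mul_right
          apply Nat.mul_le_mul_right
          norm_num
      _ ≤ 2 ^ 19 * (b ^ 3 * L) * Fintype.card (GrP P) := Nat.mul_le_mul_left _ hn2
      _ = 2 ^ 19 * b ^ 3 * L * Fintype.card (GrP P) := by ring
  · intro s M c o hs hM
    rw [hF1, hF3]
    obtain ⟨hM1, hG⟩ := gam_all I (Y := plP P) (q := (p : ℝ) ^ 4 / 2) (b := b) (ℓ := L / 4)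
      (K := K) (R := 7 * b * L) hb (num_ell hL hv hb) hK1 hK2
      (fun A hA => spread_plP hb hNp P (by linarith) A hA) (projP ι P) c o hM (by omega)
      (Nat.one_le_iff_ne_zero.mpr (by positivity)) (by omega)
    have hadv := adv_le I.A (Y := plP P) (fun X => val c (inp (projP ι P) X) o)
      (fun u => card_plP u) hlam hlam1
    have hze := I.A.Ze I.A.Pl I.A.Be (GrP P) (SeedP b P) N (2 * b) (plP P) lam
      ((p : ℝ) ^ 4 / 2) (fun u => card_plP u) hlam (by positivity) (by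
        have e1 : (N : ℝ) ≤ p := by exact_mod_cast hNp
        have e2 : (p : ℝ) ^ 4 = p * p ^ 3 := by ring
        have e3 : (8 : ℝ) ≤ (p : ℝ) ^ 3 := by
          calc (8 : ℝ) ≤ p := by linarith
            _ = (p : ℝ) ^ 1 := (pow_one _).symm
            _ ≤ (p : ℝ) ^ 3 := pow_le_pow_right₀ (by linarith) (by norm_num)
        have e4 : (p : ℝ) * 8 ≤ p * p ^ 3 := mul_le_mul_of_nonneg_left e3 (by linarith)
        linarith) (pairs_plP hb hNp P)
      (fun A hA => spread_plP hb hNp P (by linarith) A hA)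
    obtain ⟨n, hnn⟩ : ∃ n, n = Fintype.card (GrP P) := ⟨_, rfl⟩
    have hlow := num_low (n := Fintype.card (GrP P)) hb hL hp1 hNL (by omega) hn1
    have heps := num_eps (s := s) hb hL hpv hs
      ((NegLim.card_lowSets_le (E := GrP P) b).trans hlow) (by omega)
    have hze2 : zet (plP (b := b) P) ≤ 2 / (p : ℝ) ^ 4 + 8 * N / (p : ℝ) ^ 4 := by
      refine hze.trans ?_
      have e1 : (1 / 2 : ℝ) ^ N ≤ 2 / (p : ℝ) ^ 4 := by
        have f1 : (p : ℝ) ^ 4 ≤ (p : ℝ) ^ (8 * b) :=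
          pow_le_pow_right₀ (by linarith) (by omega)
        have f2 : (p : ℝ) ^ 4 ≤ 2 * 2 ^ N := by nlinarith
        rw [div_pow, one_pow, div_le_div_iff₀ h2N (by positivity)]
        linarith
      have e2 : lam * (4 * N / ((p : ℝ) ^ 4 / 2)) ≤ 8 * N / (p : ℝ) ^ 4 := by
        have f1 : 4 * (N : ℝ) / ((p : ℝ) ^ 4 / 2) = 8 * N / (p : ℝ) ^ 4 := by
          rw [div_div_eq_mul_div]; ring
        rw [f1]
        have f2 : 0 ≤ 8 * (N : ℝ) / (p : ℝ) ^ 4 := by positivity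
        nlinarith
      linarith
    have hsqrt : √(Fintype.card (GrP P) : ℝ) ^ 2 ≤ N * (p : ℝ) ^ 4 := by
      rw [Real.sq_sqrt (by positivity)]
      exact_mod_cast hn1
    have hfin := num_final (P := (p : ℝ)) (r := √(Fintype.card (GrP P) : ℝ))
      (dev := |2 * Real.exp (-lam) - 1|) (ze := zet (plP (b := b) P))
      (G := Gam (plP (b := b) P) (fun X => val c (inp (projP ι P) X) o)) (M := M) (b := b)
      (L := L) (ℓ := L / 4) (K := K) (N := N) (R := 7 * b * L)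
      hPR (Real.sqrt_nonneg _) hsqrt (by exact_mod_cast hNp2) hNL hdev hze2 hG heps hKL
      (by omega) rfl hM1 hb hL1
    have hsum : ∑ X : Finset (GrP P), (if (val c (inp (projP ι P) X) o = true ↔
        ¬ (SimpleGraph.fromEdgeSet {e | inp (projP ι P) X e = true}).CliqueFree k)
        then (1 : ℝ) else -1) =
        Eu (fun X => if ((fun X => val c (inp (projP ι P) X) o) X = true ↔
          ∃ u, plP (b := b) P u ⊆ X) then (1 : ℝ) else -1) * 2 ^ Fintype.card (GrP P) := by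
      unfold Eu
      rw [div_mul_cancel₀ _ (by positivity)]
      refine Finset.sum_congr rfl fun X _ => ?_
      exact if_congr (iff_congr Iff.rfl (clique_iff ι P hb (by omega) hkc X)) rfl rfl
    rw [hsum, ← mul_assoc]
    apply mul_lt_mul_of_pos_right _ (by positivity)
    refine lt_of_le_of_lt ?_ hfin
    exact mul_le_mul_of_nonneg_left hadv (Real.sqrt_nonneg _)

open Classical in
/-- **CLIQUE is hard on average for the uniform distribution on a subcube.** -/
theorem main_unif (I : ItemsB) {v k w : ℕ}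
    (hv : 2 ^ 16 * (w + 1) ^ 4 * (Nat.log 2 v + 1) ^ 3 ≤ v)
    (hk : 40 * (w + 1) ^ 2 * (Nat.log 2 v + 1) ≤ k) (hkv : 2 * k ≤ v) :
    ∃ (F : Finset (Sym2 (Fin v))) (x₀ : Sym2 (Fin v) → Bool), (∀ e ∈ F, ¬ e.IsDiag) ∧
      v ^ 2 ≤ 2 ^ 19 * (w + 1) ^ 3 * (Nat.log 2 v + 1) * F.card ∧
      ∀ (s M : ℕ) (c : Circuit (Sym2 (Fin v)) s) (o : Fin s), s < 2 ^ w →
        ((∀ x : ℕ → (Sym2 (Fin v) → Bool), Monotone x →
            (Set.range (fun i => pattern c (x i))).ncard ≤ M) ∨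
          wires c + numMixing c + 1 ≤ M ∨ (FormulaLike c ∧ wires c + numArb c + 1 ≤ M)) →
        √(F.card) * ∑ x : Sym2 (Fin v) → Bool with ∀ e ∉ F, x e = x₀ e,
          (if (val c x o = true ↔
            ¬ (SimpleGraph.fromEdgeSet {e | x e = true}).CliqueFree k) then (1 : ℝ) else -1) <
          2 ^ 18 * M * (w + 1) ^ 2 * (Nat.log 2 v + 1) ^ 4 * 2 ^ F.card := by
  obtain ⟨F, x₀, h1, h2, h3⟩ := main_unif0 I (b := w + 1) (by omega) rfl hv hk hkv
  refine ⟨F, x₀, h1, h2, fun s M c o hs hM => ?_⟩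
  have h4 := h3 s M c o (by rw [pow_succ]; omega) hM
  push_cast at h4 ⊢
  exact h4

end Pool.Agent.UN
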