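import Pool.Agent.Work.MP_71c844_lc.LayGuess

/-!
# Block UN: CLIQUE is hard on average for the UNIFORM distribution on a subcube

Definitions and statements with complete proofs. Write `pr_<name> : St<name>` in `UN/I_<name>.lean`
(namespace `Pool.Agent.UN`). Every item is independent of the others: statements of other items are
used only as hypotheses, where the statement says so.

Idea. `x` is a uniform random subset of the finite set `E`, the function is `f x = 1` iff `x`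
contains a planted set `Y u`. (1) Adding a little noise of density `D` to `x` changes the
distribution of `x` by at most `2 D √|E|` (Cauchy-Schwarz), so the dichotomy for small monotone
circuits shows that they cannot see whether a planted set is added to `x`. (2) The number `Zn Y x` of
planted sets in `x` is nearly a Poisson variable, and the Stein-Chen method gives the covariance with
`f` for every function that does not see planted sets.
-/

namespace Pool.Agent.UN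

open Finset
open Pool.Agent.NegLim (T Tn wt dens Dich)
open Pool.Agent.LayCirc (inp)

/-- The expected value for the uniform distribution on the subsets of `E`. -/
noncomputable def Eu {E : Type} [Fintype E] [DecidableEq E] (φ : Finset E → ℝ) : ℝ :=
  (∑ x, φ x) / 2 ^ Fintype.card E

/-- The density, relative to the uniform distribution, of the union of a uniform random set and of
a random set of density `D`. -/
noncomputable def rho {E : Type} [Fintype E] [DecidableEq E] (D : ℝ) (y : Finset E) : ℝ :=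
  (1 + D) ^ y.card * (1 - D) ^ (univ \ y).card

open Classical in
/-- The number of planted sets contained in `x`. -/
noncomputable def Zn {E U : Type} [Fintype E] [DecidableEq E] [Fintype U] (Y : U → Finset E)
    (x : Finset E) : ℕ := (univ.filter (fun u => Y u ⊆ x)).card

open Classical in
/-- The probability that `C` becomes true when a planted set is added. -/
noncomputable def Gam {E U : Type} [Fintype E] [DecidableEq E] [Fintype U] (Y : U → Finset E)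
    (C : Finset E → Bool) : ℝ :=
  Eu (fun x => (if C x = true then (0 : ℝ) else 1) *
    (((univ.filter (fun u => C (x ∪ Y u) = true)).card : ℝ) / Fintype.card U))

open Classical in
/-- The probability that adding a planted set does not increase `Zn` by exactly one. -/
noncomputable def zet {E U : Type} [Fintype E] [DecidableEq E] [Fintype U] (Y : U → Finset E) : ℝ :=
  Eu (fun x => ((univ.filter (fun u => Zn Y (x ∪ Y u) ≠ Zn Y x + 1)).card : ℝ) / Fintype.card U)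

/-- **Rh** (EASY-MEDIUM; one noise step). PROOF. `T δ φ x = ∑ z, wt δ z * φ (x ∪ z)` with
`wt δ z = δ^|z| (1-δ)^|univ \ z|`. So the left side is `∑ x, ∑ z, rho D x * wt δ z * φ (x ∪ z)`; sort the
pairs `(x, z)` by `w = x ∪ z` (`Finset.sum_comm` after inserting `∑ w, if x ∪ z = w then .. else 0`, or
`Finset.sum_fiberwise`): it suffices that for every `w`
`∑ (x, z) with x ∪ z = w, rho D x * wt δ z = rho (D + δ - D δ) w`. The pairs are `x ⊆ w`,
`z = (w \ x) ∪ z'` with `z' ⊆ x` (bijection `(x, z) ↦ (x, z ∩ x)`). For fixed `x ⊆ w` the sum over `z'` of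
`δ^|z'| (1-δ)^(|x| - |z'|)` is `(δ + (1 - δ))^|x| = 1` (`Finset.sum_pow_mul_eq_add_pow`), what remains is
`(1+D)^|x| (1-D)^(n-|x|) δ^(|w|-|x|) (1-δ)^(n-|w|) = ((1-D)(1-δ))^(n-|w|) (1+D)^|x| ((1-D)δ)^(|w|-|x|)`, and
the sum over `x ⊆ w` is `((1-D)(1-δ))^(n-|w|) (1 + D + (1-D) δ)^|w|`, again by
`Finset.sum_pow_mul_eq_add_pow`; `1 + D + (1-D)δ = 1 + (D + δ - Dδ)` and
`(1-D)(1-δ) = 1 - (D + δ - Dδ)`. (Alternative: write everything as products over `e : E` and use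
`Finset.prod_univ_sum` for the four values of `(e ∈ x, e ∈ z)`.) -/
def StRh : Prop := ∀ (E : Type) [Fintype E] [DecidableEq E] (δ D : ℝ) (φ : Finset E → ℝ),
  ∑ x, rho D x * T δ φ x = ∑ x, rho (D + δ - D * δ) x * φ x

/-- **Rn** (EASY; hypothesis `StRh`). PROOF. Induction on `s` for all `φ`:
`Tn δ (s + 1) φ = Tn δ s (T δ φ)` (`Function.iterate_succ_apply`), so the left side is
`∑ x, rho (dens δ s) x * T δ φ x = ∑ x, rho (dens δ s + δ - dens δ s * δ) x * φ x` and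
`dens δ (s + 1) = 1 - (1-δ)^(s+1) = dens δ s + δ - dens δ s * δ`. For `s = 0`: `dens δ 0 = 0`,
`rho 0 x = 1`. -/
def StRn : Prop := StRh → ∀ (E : Type) [Fintype E] [DecidableEq E] (δ : ℝ) (s : ℕ)
  (φ : Finset E → ℝ), ∑ x, Tn δ s φ x = ∑ x, rho (dens δ s) x * φ x

/-- **Rs** (EASY). PROOF. `∑ x : Finset E, a^|x| b^|univ \ x| = (a + b)^n`
(`Finset.sum_pow_mul_eq_add_pow` for `univ`, `Finset.powerset_univ`, `Finset.card_sdiff`), with
`a = 1 + D`, `b = 1 - D`, and `a = (1+D)^2`, `b = (1-D)^2`, `a + b = 2 (1 + D^2)`. -/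
def StRs : Prop := ∀ (E : Type) [Fintype E] [DecidableEq E] (D : ℝ),
  ∑ x : Finset E, rho D x = 2 ^ Fintype.card E ∧
    ∑ x : Finset E, rho D x ^ 2 = (2 * (1 + D ^ 2)) ^ Fintype.card E

/-- **Be** (EASY). PROOF. Induction on `n`:
`(1+x)^(n+1) ≤ (1 + 2 n x) (1 + x) = 1 + 2 (n+1) x - x + 2 n x^2` and `2 n x^2 ≤ x` as `n x ≤ 1/2`
(the hypothesis for `n + 1` implies it for `n`). -/
def StBe : Prop := ∀ (x : ℝ) (n : ℕ), 0 ≤ x → n * x ≤ 1 / 2 → (1 + x) ^ n ≤ 1 + 2 * n * x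

/-- **Cs** (EASY-MEDIUM; hypotheses `StRh`, `StRn`, `StRs`, `StBe`). Noise of density `D = dens δ s`
changes the uniform distribution by at most `2 D √n`. PROOF. Let `n = card E`, `A = n D^2`
(`0 ≤ D ≤ 1`: `NegLim.dens_nonneg`, `dens_le_one`). If `A > 1/2` then `2 D √n = √(4 A) ≥ 1`, and the left
side is at most `Eu φ ≤ 1` because `0 ≤ Tn δ s φ` (`NegLim.Tn_mono`, `Tn_const`). If `A ≤ 1/2`: by
`StRn` the left side is `2^(-n) ∑ x, φ x * (1 - rho D x)`; by Cauchy-Schwarz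
(`Finset.sum_mul_sq_le_sq_mul_sq`) its square is at most
`2^(-2n) (∑ φ^2) (∑ (1 - rho D x)^2) ≤ 2^(-2n) 2^n (2^n - 2 * 2^n + 2^n (1 + D^2)^n) = (1+D^2)^n - 1 ≤ 2 A`
(`StRs`, `StBe`), and `√(2A) ≤ √(4 A) = 2 D √n` (`Real.sqrt_le_sqrt`, `abs_le_of_sq_le_sq`). -/
def StCs : Prop := StRh → StRn → StRs → StBe → ∀ (E : Type) [Fintype E] [DecidableEq E] (δ : ℝ)
  (s : ℕ) (φ : Finset E → ℝ), 0 ≤ δ → δ ≤ 1 → (∀ x, 0 ≤ φ x) → (∀ x, φ x ≤ 1) →
  Eu φ - Eu (Tn δ s φ) ≤ 2 * dens δ s * √(Fintype.card E)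

/-- the conclusion of `StCs` -/
def CsC : Prop := ∀ (E : Type) [Fintype E] [DecidableEq E] (δ : ℝ)
  (s : ℕ) (φ : Finset E → ℝ), 0 ≤ δ → δ ≤ 1 → (∀ x, 0 ≤ φ x) → (∀ x, φ x ≤ 1) →
  Eu φ - Eu (Tn δ s φ) ≤ 2 * dens δ s * √(Fintype.card E)

/-- **Mu** (MEDIUM; hypothesis `CsC`; model: the proof of `NegLim.sep_adaptive` in `LaySep.lean`, word by
word up to and including `hpt`, with `st` and `H` deleted). PROOF. Let `δ = 1 / 2^K`,
`φ x = if G x then 0 else 1`, `p x` the fraction of the planted sets `Y u` with `G (x ∪ Y u)`,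
`η k = 4 * (8 * 4 * 2^K / 2^k / q) = 128 * 2^K / (2^k q)`, `Dk k x = if Tn δ (2^k R) φ x ≤ ε then φ x else 0`.
As in the model, `φ x * p x ≤ Dk 0 x + ∑ k < K, η k * Dk (k+1) x + η K` for all `x`. Also
`Dk k x ≤ ε + (φ x - Tn δ (2^k R) φ x)` (`Tn_le_self`, `φ` is decreasing by `hG.mono`), so with `CsC` and
`dens δ (2^k R) ≤ 2^k R / 2^K` (`NegLim.dens_le`): `Eu (Dk k) ≤ ε + 2 * 2^k * R / 2^K * √n`. Hence
`Eu (φ p) ≤ ε + 2 R √n / 2^K + ∑ k < K, (η k ε + η k * 2 * 2^(k+1) R √n / 2^K) + 128 / q`. Here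
`1 / 2^K ≤ 128 / q`, `η k * 4 * 2^k R √n / 2^K = 512 R √n / q`, and `η k ε ≤ 2 ε / 2^k` (as
`64 * 2^K ≤ q`), `∑ k < K, 1 / 2^k ≤ 2`. -/
def StMu : Prop := CsC → ∀ (E U : Type) [Fintype E] [DecidableEq E] [Fintype U] [Nonempty U]
  (K R : ℕ) (q ε : ℝ) (Y : U → Finset E) (G : Finset E → Bool),
  64 * 2 ^ K ≤ q → q ≤ 128 * 2 ^ K → 0 ≤ ε → 1 ≤ R → Dich K R 4 q ε Y G →
  Gam Y G ≤ 5 * ε + 128 / q + (512 * K + 256) * R * √(Fintype.card E) / q

open Classical in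
/-- **Pl** (EASY; planting). PROOF. The map `x ↦ x ∪ A` sends the subsets of `E` onto the sets
containing `A`, and every fibre has `2^|A|` elements: the fibre of `w ⊇ A` is
`{x | x ∪ A = w} = {(w \ A) ∪ a | a ⊆ A}` (`Finset.card_powerset`). So
`∑ x, ψ (x ∪ A) = 2^|A| * ∑ x with A ⊆ x, ψ x`. (`Finset.sum_comm'` or `Finset.sum_fiberwise`.) -/
def StPl : Prop := ∀ (E : Type) [Fintype E] [DecidableEq E] (A : Finset E) (ψ : Finset E → ℝ),
  Eu (fun x => if A ⊆ x then ψ x else 0) = (1 / 2) ^ A.card * Eu (fun x => ψ (x ∪ A))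

/-- **Hh** (EASY-MEDIUM; the Stein equation). PROOF. Take `h j = ∫ t in (0:ℝ)..1, t^(j-1) * exp (-λ t)`
for `j ≥ 1` and `h 0 = 0`. `0 ≤ h j ≤ 1` since the integrand is between `0` and `1` (continuous;
`intervalIntegral.integral_nonneg`, `integral_mono_on`). For `j ≥ 1`:
`j h j - λ h (j+1) = ∫ t, (j t^(j-1) - λ t^j) exp (-λ t) = [t^j exp (-λ t)] from 0 to 1 = exp (-λ)`
(`intervalIntegral.integral_eq_sub_of_hasDerivAt`), and for `j = 0`:
`- λ h 1 = [exp (-λ t)] from 0 to 1 = exp (-λ) - 1`. -/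
def StHh : Prop := ∀ lam : ℝ, 0 < lam → ∃ h : ℕ → ℝ, (∀ j, 0 ≤ h j) ∧ (∀ j, h j ≤ 1) ∧
  ∀ j : ℕ, j * h j - lam * h (j + 1) = (if j = 0 then (0 : ℝ) else 1) - (1 - Real.exp (-lam))

open Classical in
/-- **St** (MEDIUM; hypotheses `StPl`, `StHh`; Stein-Chen). PROOF. Let `c x = if C x then 1 else 0`,
`Z = Zn Y`, `h` from `StHh`. `∑ u, 1[Y u ⊆ x] = Z x`, so by `StPl` (`|Y u| = N`)
`Eu (c Z h(Z)) = ∑ u, Eu (1[Y u ⊆ x] c x h(Z x)) = 2^(-N) ∑ u, Eu (c (x ∪ Y u) h (Z (x ∪ Y u)))`. Pointwise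
`c (x ∪ Y u) h (Z (x ∪ Y u)) ≤ c x h (Z x + 1) + 1[C x = false ∧ C (x ∪ Y u) = true] + 1[Z (x ∪ Y u) ≠ Z x + 1]`
(`0 ≤ h ≤ 1`). Sum over `u`: `Eu (c Z h(Z)) ≤ lam * (Eu (c h(Z + 1)) + Gam Y C + zet Y)`. The Stein
equation at `j = Z x`: `Z h(Z) - lam h(Z+1) = (if Z x = 0 then 0 else 1) - (1 - exp (-lam))`, and
`Z x ≠ 0` iff `∃ u, Y u ⊆ x`. Multiply by `c` and take `Eu`. -/
def StSt : Prop := StPl → StHh → ∀ (E U : Type) [Fintype E] [DecidableEq E] [Fintype U] [Nonempty U]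
  (N : ℕ) (Y : U → Finset E) (lam : ℝ) (C : Finset E → Bool), (∀ u, (Y u).card = N) →
  lam = Fintype.card U / 2 ^ N →
  Eu (fun x => if C x = true ∧ ∃ u, Y u ⊆ x then (1 : ℝ) else 0) ≤
    (1 - Real.exp (-lam)) * Eu (fun x => if C x = true then (1 : ℝ) else 0) +
      lam * (Gam Y C + zet Y)

open Classical in
/-- **Sl** (EASY-MEDIUM; hypotheses `StPl`, `StHh`). The same with `C = 1` and the opposite sign.
PROOF. As in `StSt`: `Eu (Z h(Z)) = 2^(-N) ∑ u, Eu (h (Z (x ∪ Y u)))` and pointwise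
`h (Z (x ∪ Y u)) ≥ h (Z x + 1) - 1[Z (x ∪ Y u) ≠ Z x + 1]`, so
`Eu (Z h(Z)) ≥ lam * (Eu (h (Z + 1)) - zet Y)`. Take `Eu` of the Stein equation. -/
def StSl : Prop := StPl → StHh → ∀ (E U : Type) [Fintype E] [DecidableEq E] [Fintype U] [Nonempty U]
  (N : ℕ) (Y : U → Finset E) (lam : ℝ), (∀ u, (Y u).card = N) → lam = Fintype.card U / 2 ^ N →
  1 - Real.exp (-lam) - lam * zet Y ≤ Eu (fun x => if ∃ u, Y u ⊆ x then (1 : ℝ) else 0)

open Classical in
/-- **Ze** (MEDIUM; hypotheses `StPl`, `StBe`). PROOF. Fix `u`. If `Y u ⊄ x` and no `u' ≠ u` has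
`Y u' ⊆ x ∪ Y u`, `Y u' ⊄ x`, then `{u' | Y u' ⊆ x ∪ Y u}` is the disjoint union of `{u' | Y u' ⊆ x}` and
`{u}`, so `Zn Y (x ∪ Y u) = Zn Y x + 1`. Hence
`1[Zn Y (x ∪ Y u) ≠ Zn Y x + 1] ≤ 1[Y u ⊆ x] + ∑ u' ≠ u, 1[Y u' ⊆ x ∪ Y u ∧ ¬ Y u' ⊆ x]`. The first term has
`Eu = 2^(-N)` (`StPl` with `ψ = 1`). In the second, `A = Y u' ∩ Y u` is not empty (otherwise
`Y u' ⊆ x`), `|A| ≤ B`, and `Y u' \ A ⊆ x` has `Eu`-probability `2^(|A| - N)`. So the second sum has
`Eu ≤ ∑ A ⊆ Y u with 1 ≤ |A| ≤ B, ∑ u' with A ⊆ Y u', 2^(|A|-N) ≤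
∑ A ⊆ Y u with 1 ≤ |A|, card U * (1/q)^|A| * 2^|A| / 2^N = lam * ((1 + 2/q)^N - 1) ≤ lam * (4 N / q)`
(for every `u'` take `A = Y u' ∩ Y u`; spread; `Finset.sum_pow_mul_eq_add_pow`; `StBe` with `x = 2/q`,
`N * (2/q) ≤ 1/2`). Average over `u`. -/
def StZe : Prop := StPl → StBe → ∀ (E U : Type) [Fintype E] [DecidableEq E] [Fintype U] [Nonempty U]
  (N B : ℕ) (Y : U → Finset E) (lam q : ℝ), (∀ u, (Y u).card = N) → lam = Fintype.card U / 2 ^ N →
  0 < q → 4 * N ≤ q → (∀ u u', u ≠ u' → (Y u ∩ Y u').card ≤ B) →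
  (∀ A : Finset E, A.card ≤ B →
    ((univ.filter (fun u => A ⊆ Y u)).card : ℝ) ≤ Fintype.card U * (1 / q) ^ A.card) →
  zet Y ≤ (1 / 2) ^ N + lam * (4 * N / q)

open Classical in
/-- **Tu** (EASY-MEDIUM; tuning the number of planted sets). PROOF. Let
`c P = card {u | Disjoint (Y u) P}`. Choose `P ⊆ P0` with `τ ≤ c P` and `P.card` maximal (`c ∅ = card U ≥ τ`;
`Finset.exists_max_image` on `P0.powerset.filter ..`). As `c P0 = 0 < τ` there is `a ∈ P0 \ P`, and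
`c (insert a P) < τ` by maximality. The sets counted by `c P` and not by `c (insert a P)` contain `a`, so
`c P ≤ c (insert a P) + card {u | a ∈ Y u} ≤ τ + card U / q`. -/
def StTu : Prop := ∀ (E U : Type) [Fintype E] [DecidableEq E] [Fintype U] (Y : U → Finset E)
  (P0 : Finset E) (q τ : ℝ), (∀ u, ¬ Disjoint (Y u) P0) →
  (∀ a ∈ P0, ((univ.filter (fun u => a ∈ Y u)).card : ℝ) ≤ Fintype.card U / q) →
  0 < τ → τ ≤ Fintype.card U →
  ∃ P ⊆ P0, τ ≤ ((univ.filter (fun u => Disjoint (Y u) P)).card : ℝ) ∧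
    ((univ.filter (fun u => Disjoint (Y u) P)).card : ℝ) ≤ τ + Fintype.card U / q

open Classical in
/-- **Sb** (EASY-MEDIUM; the image of a projection is a subcube). PROOF. `F` = the set of the `e` with
`∃ t, π e = .inr t`, `x₀ = inp π ∅`. `e ↦ t` is a bijection from `F` to `E` (surjective and injective by
the hypothesis), so `F.card = Fintype.card E`. The map `X ↦ inp π X` is a bijection from the subsets of
`E` to `{x | ∀ e ∉ F, x e = x₀ e}`: outside `F`, `inp π X e` is the constant `b` of `π e = .inl b`; on `F`,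
`inp π X e = decide (t ∈ X)`; inverse `x ↦ {t | x (e t) = true}`. `Finset.sum_bij'` or
`Finset.sum_nbij'`. -/
def StSb : Prop := ∀ (ι E : Type) [Fintype ι] [DecidableEq ι] [Fintype E] [DecidableEq E]
  (π : ι → Bool ⊕ E), (∀ t, ∃ e, π e = .inr t ∧ ∀ e', π e' = .inr t → e' = e) →
  ∃ (F : Finset ι) (x₀ : ι → Bool), F.card = Fintype.card E ∧ (∀ e t, π e = .inr t → e ∈ F) ∧
    ∀ h : (ι → Bool) → ℝ, ∑ x ∈ univ.filter (fun x : ι → Bool => ∀ e ∉ F, x e = x₀ e), h x =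
      ∑ X : Finset E, h (inp π X)

end Pool.Agent.UN
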