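import Pool.Agent.Work.MP_71c844_lc.UN.Core
import Pool.Agent.Work.MP_71c844_lc.LayClique

/-!
# Block UN: the tuned planted family and its projection
-/

namespace Pool.Agent.UN

open Finset
open Pool.Agent.NegLim (Part Vtx Gr Seed planted proj endL endR pull code card_planted mem_planted)
open Pool.Agent.LayCirc

set_option linter.unusedSectionVars false

variable {p : ℕ} [Fact p.Prime] {b N : ℕ}

/-- the ground set without `P` -/
abbrev GrP (P : Finset (Gr p N)) : Type := {t : Gr p N // t ∉ P}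

/-- the seeds whose planted set avoids `P` -/
abbrev SeedP (b : ℕ) (P : Finset (Gr p N)) : Type := {u : Seed p b // Disjoint (planted N u) P}

noncomputable instance (P : Finset (Gr p N)) : Fintype (SeedP b P) :=
  @Subtype.fintype _ _ (Classical.decPred _) _

/-- the planted sets which avoid `P` -/
def plP (P : Finset (Gr p N)) (u : SeedP b P) : Finset (GrP P) :=
  (planted N u.1).subtype (fun t => t ∉ P)

lemma mem_plP {P : Finset (Gr p N)} (u : SeedP b P) (t : GrP P) :
    t ∈ plP P u ↔ t.1 ∈ planted N u.1 := by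
  unfold plP
  rw [Finset.mem_subtype]

lemma card_plP {P : Finset (Gr p N)} (u : SeedP b P) : (plP P u).card = N := by
  unfold plP
  rw [Finset.card_subtype, Finset.filter_true_of_mem, card_planted]
  intro t ht h
  exact Finset.disjoint_left.mp u.2 ht h

/-- the embedding of the subsets -/
def up {P : Finset (Gr p N)} (A : Finset (GrP P)) : Finset (Gr p N) :=
  A.map (Function.Embedding.subtype _)

lemma mem_up {P : Finset (Gr p N)} (A : Finset (GrP P)) (t : Gr p N) :
    t ∈ up A ↔ ∃ h : t ∉ P, (⟨t, h⟩ : GrP P) ∈ A := by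
  unfold up
  rw [Finset.mem_map]
  constructor
  · rintro ⟨a, ha, rfl⟩
    exact ⟨a.2, ha⟩
  · rintro ⟨h, ha⟩
    exact ⟨_, ha, rfl⟩

lemma card_up {P : Finset (Gr p N)} (A : Finset (GrP P)) : (up A).card = A.card :=
  Finset.card_map _

lemma subset_plP {P : Finset (Gr p N)} (u : SeedP b P) (A : Finset (GrP P)) :
    A ⊆ plP P u ↔ up A ⊆ planted N u.1 := by
  constructor
  · intro h t ht
    obtain ⟨h1, h2⟩ := (mem_up A t).mp ht
    exact (mem_plP u _).mp (h h2)
  · intro h t ht
    exact (mem_plP u t).mpr (h ((mem_up A t.1).mpr ⟨t.2, ht⟩))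

open Classical in
lemma spread_plP (hb : 1 ≤ b) (hNp : N ≤ p) (P : Finset (Gr p N))
    (hU : (Fintype.card (Seed p b) : ℝ) ≤ 2 * Fintype.card (SeedP b P))
    (A : Finset (GrP P)) (hA : A.card ≤ 2 * b) :
    ((univ.filter (fun u : SeedP b P => A ⊆ plP P u)).card : ℝ) ≤
      Fintype.card (SeedP b P) * (1 / ((p : ℝ) ^ 4 / 2)) ^ A.card := by
  have hp : (0 : ℝ) < p := by exact_mod_cast (Fact.out : p.Prime).pos
  rcases Nat.eq_zero_or_pos A.card with h0 | h0
  · rw [h0, pow_zero, mul_one]
    exact_mod_cast Finset.card_filter_le _ _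
  · have h1 : (univ.filter (fun u : SeedP b P => A ⊆ plP P u)).card ≤
        (univ.filter (fun u : Seed p b => up A ⊆ planted N u)).card := by
      refine Finset.card_le_card_of_injOn (fun u => u.1) ?_ ?_
      · intro u hu
        rw [Finset.mem_coe, mem_filter] at hu ⊢
        exact ⟨mem_univ _, (subset_plP u A).mp hu.2⟩
      · intro u _ u' _ h
        exact Subtype.ext h
    have h2 := NegLim.planted_spread hb hNp (up A) (by rw [card_up]; exact hA)
    rw [card_up] at h2
    have h3 : ((univ.filter (fun u : SeedP b P => A ⊆ plP P u)).card : ℝ) ≤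
        Fintype.card (Seed p b) * (1 / (p : ℝ) ^ 4) ^ A.card := by
      refine le_trans ?_ h2
      exact_mod_cast h1
    refine h3.trans ?_
    have h4 : (1 / ((p : ℝ) ^ 4 / 2)) ^ A.card = 2 ^ A.card * (1 / (p : ℝ) ^ 4) ^ A.card := by
      rw [← mul_pow]; congr 1; field_simp
    have h5 : (2 : ℝ) ≤ 2 ^ A.card := by
      calc (2 : ℝ) = 2 ^ 1 := (pow_one 2).symm
        _ ≤ 2 ^ A.card := pow_le_pow_right₀ (by norm_num) h0
    rw [h4, ← mul_assoc]
    apply mul_le_mul_of_nonneg_right _ (by positivity)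
    refine hU.trans ?_
    rw [mul_comm]
    exact mul_le_mul_of_nonneg_left h5 (by positivity)

lemma pairs_planted (hb : 1 ≤ b) (hNp : N ≤ p) (u u' : Seed p b) (h : u ≠ u') :
    (planted N u ∩ planted N u').card ≤ 2 * b := by
  classical
  by_contra hcon
  push Not at hcon
  obtain ⟨A, hA1, hA2⟩ := Finset.exists_subset_card_eq hcon.le
  have h1 := NegLim.planted_spread hb hNp A hA2.le
  have hp : (0 : ℝ) < p := by exact_mod_cast (Fact.out : p.Prime).pos
  have h2 : (Fintype.card (Seed p b) : ℝ) * (1 / (p : ℝ) ^ 4) ^ A.card = 1 := by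
    rw [NegLim.card_seed, hA2]
    push_cast
    rw [one_div, inv_pow, ← pow_mul, show 4 * (2 * b) = 8 * b by ring]
    exact mul_inv_cancel₀ (by positivity)
  rw [h2] at h1
  have h3 : 2 ≤ (univ.filter (fun u : Seed p b => A ⊆ planted N u)).card := by
    have h4 : ({u, u'} : Finset (Seed p b)) ⊆
        univ.filter (fun u : Seed p b => A ⊆ planted N u) := by
      intro z hz
      rw [mem_insert, mem_singleton] at hz
      rw [mem_filter]
      rcases hz with rfl | rfl
      · exact ⟨mem_univ _, hA1.trans Finset.inter_subset_left⟩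
      · exact ⟨mem_univ _, hA1.trans Finset.inter_subset_right⟩
    have h5 := Finset.card_le_card h4
    rwa [Finset.card_pair h] at h5
  have h4 : (univ.filter (fun u : Seed p b => A ⊆ planted N u)).card ≤ 1 := by
    exact_mod_cast h1
  omega

lemma pairs_plP (hb : 1 ≤ b) (hNp : N ≤ p) (P : Finset (Gr p N)) (u u' : SeedP b P)
    (h : u ≠ u') : (plP P u ∩ plP P u').card ≤ 2 * b := by
  refine le_trans ?_ (pairs_planted hb hNp u.1 u'.1 (fun e => h (Subtype.ext e)))
  rw [← card_up]
  apply Finset.card_le_card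
  intro t ht
  obtain ⟨h1, h2⟩ := (mem_up _ t).mp ht
  rw [mem_inter] at h2 ⊢
  exact ⟨(mem_plP u _).mp h2.1, (mem_plP u' _).mp h2.2⟩

section projection

variable {d v : ℕ} (ι : Vtx p b N d ↪ Fin v) (P : Finset (Gr p N))

/-- the projection, with the variables in `P` set to false -/
noncomputable def projP (e : Sym2 (Fin v)) : Bool ⊕ GrP P :=
  match proj ι e with
  | .inl c => .inl c
  | .inr t => if h : t ∈ P then .inl false else .inr ⟨t, h⟩

lemma inp_projP (X : Finset (GrP P)) : inp (projP ι P) X = inp (proj ι) (up X) := by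
  funext e
  unfold inp pull projP
  rcases proj ι e with c | t
  · rfl
  · by_cases h : t ∈ P
    · simp only [h, dite_true]
      symm
      rw [decide_eq_false_iff_not]
      intro h1
      exact ((mem_up X t).mp h1).1 h
    · simp only [h, dite_false]
      congr 1
      rw [eq_iff_iff, mem_up]
      exact ⟨fun h1 => ⟨h, h1⟩, fun ⟨_, h1⟩ => h1⟩

lemma proj_var (t : Gr p N) : proj ι s(ι (endL t), ι (endR t)) = .inr t := by
  have h : ∃ t' : Gr p N, s(ι (endL t), ι (endR t)) = s(ι (endL t'), ι (endR t')) := ⟨t, rfl⟩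
  unfold proj
  rw [dif_pos h]
  congr 1
  exact (NegLim.end_unique ι h.choose_spec).symm

lemma proj_inr (e : Sym2 (Fin v)) (t : Gr p N) (h : proj ι e = .inr t) :
    e = s(ι (endL t), ι (endR t)) := by
  unfold proj at h
  split_ifs at h with h1
  have h2 := h1.choose_spec
  rw [Sum.inr.injEq] at h
  rw [h] at h2
  exact h2

lemma projP_inr (e : Sym2 (Fin v)) (t : GrP P) (h : projP ι P e = .inr t) :
    e = s(ι (endL t.1), ι (endR t.1)) := by
  apply proj_inr
  unfold projP at h
  rcases h1 : proj ι e with c | t'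
  · rw [h1] at h; cases h
  · rw [h1] at h
    simp only at h
    split_ifs at h with h2
    rw [Sum.inr.injEq] at h
    rw [← h]

lemma projP_uniq (t : GrP P) :
    ∃ e, projP ι P e = .inr t ∧ ∀ e', projP ι P e' = .inr t → e' = e := by
  refine ⟨s(ι (endL t.1), ι (endR t.1)), ?_, fun e' h => projP_inr ι P e' t h⟩
  unfold projP
  rw [proj_var]
  simp only
  rw [dif_neg t.2]

lemma projP_diag (e : Sym2 (Fin v)) (t : GrP P) (h : projP ι P e = .inr t) : ¬ e.IsDiag := by
  rw [projP_inr ι P e t h, Sym2.mk_isDiag_iff]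
  intro h1
  have := ι.injective h1
  simp only [endL, endR, Sum.inl.injEq, Prod.mk.injEq, Sum.inr.injEq] at this
  exact absurd this.1.2 (by decide)

lemma clique_iff0 (hb : 1 ≤ b) (hN1 : 1 ≤ N) {k : ℕ} (hk : Fintype.card (Part b N ⊕ Fin d) = k)
    (x : Finset (Gr p N)) :
    ¬ (SimpleGraph.fromEdgeSet {e | inp (proj ι) x e = true}).CliqueFree k ↔
      ∃ u : Seed p b, planted N u ⊆ x := by
  rw [← hk]
  constructor
  · intro h
    obtain ⟨u, hu⟩ := NegLim.planted_of_clique ι hb hN1 (fun e => decide (e ∈ x)) h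
    refine ⟨u, fun a ha => ?_⟩
    rw [NegLim.mem_planted] at ha
    have := hu a.1
    rw [ha] at this
    simpa using this
  · rintro ⟨u, hu⟩
    have h1 := NegLim.clique_of_planted ι (fun e => decide (e ∈ x)) u (by
      intro i
      simp only [decide_eq_true_eq]
      apply hu
      rw [NegLim.mem_planted])
    exact h1

lemma clique_iff (hb : 1 ≤ b) (hN1 : 1 ≤ N) {k : ℕ} (hk : Fintype.card (Part b N ⊕ Fin d) = k)
    (X : Finset (GrP P)) :
    ¬ (SimpleGraph.fromEdgeSet {e | inp (projP ι P) X e = true}).CliqueFree k ↔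
      ∃ u : SeedP b P, plP P u ⊆ X := by
  rw [inp_projP, clique_iff0 ι hb hN1 hk]
  constructor
  · rintro ⟨u, h1⟩
    have h2 : Disjoint (planted N u) P := by
      rw [Finset.disjoint_left]
      intro a ha
      exact ((mem_up X a).mp (h1 ha)).1
    refine ⟨⟨u, h2⟩, fun t ht => ?_⟩
    have h3 : t.1 ∈ planted N u := (mem_plP (⟨u, h2⟩ : SeedP b P) t).mp ht
    have h4 : t.1 ∈ up X := h1 h3
    rw [mem_up] at h4
    exact h4.2
  · rintro ⟨u, hu⟩
    refine ⟨u.1, fun a h1 => ?_⟩
    have h2 : a ∉ P := fun h => Finset.disjoint_left.mp u.2 h1 h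
    have h3 : (⟨a, h2⟩ : GrP P) ∈ plP P u := (mem_plP u ⟨a, h2⟩).mpr h1
    rw [mem_up]
    exact ⟨h2, hu h3⟩

end projection

section tune

open Classical in
/-- the choice of `P` -/
lemma tune (hTu : StTu) (hb : 1 ≤ b) (hN1 : 1 ≤ N) (hNp : N ≤ p)
    (h1 : (2 : ℝ) ^ N * Real.log 2 ≤ (p : ℝ) ^ (8 * b))
    (h2 : (p : ℝ) ^ (8 * b) ≤ 2 * ((2 : ℝ) ^ N * Real.log 2)) :
    ∃ P : Finset (Gr p N), P.card ≤ p ^ 4 ∧
      (2 : ℝ) ^ N * Real.log 2 ≤ Fintype.card (SeedP b P) ∧
      (Fintype.card (SeedP b P) : ℝ) ≤ 2 ^ N * Real.log 2 * (1 + 2 / p ^ 4) ∧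
      (Fintype.card (Seed p b) : ℝ) ≤ 2 * Fintype.card (SeedP b P) := by
  have hp : (0 : ℝ) < p := by exact_mod_cast (Fact.out : p.Prime).pos
  have hlog : 0 < Real.log 2 := Real.log_pos (by norm_num)
  set τ : ℝ := (2 : ℝ) ^ N * Real.log 2 with hτ
  have hτ0 : 0 < τ := by positivity
  have hcs : (Fintype.card (Seed p b) : ℝ) = (p : ℝ) ^ (8 * b) := by
    rw [NegLim.card_seed]; push_cast; rfl
  let i0 : Fin N := ⟨0, by omega⟩
  let P0 : Finset (Gr p N) := univ.filter (fun a => a.1 = i0)
  have hP0 : P0.card ≤ p ^ 4 := by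
    have h3 : P0.card ≤ Fintype.card ((ZMod p × ZMod p) × (ZMod p × ZMod p)) := by
      rw [← Finset.card_univ]
      refine Finset.card_le_card_of_injOn (fun a => a.2) (fun _ _ => by simp) ?_
      intro a ha a' ha' h
      have e1 : a.1 = i0 := (mem_filter.mp (Finset.mem_coe.mp ha)).2
      have e2 : a'.1 = i0 := (mem_filter.mp (Finset.mem_coe.mp ha')).2
      exact Prod.ext (e1.trans e2.symm) h
    have h4 : Fintype.card ((ZMod p × ZMod p) × (ZMod p × ZMod p)) = p ^ 4 := by
      simp only [Fintype.card_prod, ZMod.card]; ring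
    omega
  obtain ⟨P, hPsub, hP1, hP2⟩ := hTu (Gr p N) (Seed p b) (planted N) P0 ((p : ℝ) ^ 4) τ
    (by
      intro u h
      have h3 : (i0, code u i0.1) ∈ planted N u := by rw [mem_planted]
      exact Finset.disjoint_left.mp h h3 (mem_filter.mpr ⟨mem_univ _, rfl⟩))
    (by
      intro a _
      have h3 := NegLim.planted_spread hb hNp ({a} : Finset (Gr p N))
        (by rw [card_singleton]; omega)
      rw [card_singleton, pow_one] at h3
      simp only [Finset.singleton_subset_iff] at h3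
      rw [mul_one_div] at h3
      exact h3)
    hτ0 (by rw [hcs]; exact h1)
  have hcard : (Fintype.card (SeedP b P) : ℝ) =
      ((univ.filter (fun u : Seed p b => Disjoint (planted N u) P)).card : ℝ) := by
    rw [Fintype.card_subtype]
  refine ⟨P, (Finset.card_le_card hPsub).trans hP0, by rw [hcard]; exact hP1, ?_, ?_⟩
  · rw [hcard]
    refine hP2.trans ?_
    rw [hcs, mul_add, mul_one]
    have h3 : (p : ℝ) ^ (8 * b) / (p : ℝ) ^ 4 ≤ τ * (2 / (p : ℝ) ^ 4) := by
      rw [mul_div_assoc', mul_comm τ 2]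
      exact div_le_div_of_nonneg_right h2 (by positivity)
    linarith
  · rw [hcard, hcs]
    linarith

end tune

end Pool.Agent.UN
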